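import Pool.Agent.Lib.MP_634427_lc.Maj.Sound
import Pool.Agent.Lib.MP_634427_lc.Maj.LtStep

/-!
# Soundness of the adaptive version, in the language of items

`al` = alive at the right leaf of the level, `bd` = in the error set of this leaf.

Proof. As in `lt_sound`: every list contains an item with a solution in `A`. Step: let `Y n k` be such an
item. By the gap and `cover` (as in `sound`, with `p + 1` replaced by `72 * p ^ 2 * A0`) we have
`144 * p ^ 2 * A0 * #false ≤ P ^ 4` for the children without a solution. So `144 * p ^ 2 * #false ≤ #alive`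
by `hA`, and `144 * p ^ 2 * #(alive and bd) ≤ #alive` by `hbK`. Apply `lt_step_many` to the types
`{q : Seed P × ZMod P // al ..}` and `{l : Fin M // al ..}`, `bad` = the alive children that are false or
in `bd` (`72 * p ^ 2 * #bad ≤ #alive`), `pos` = the alive items of the list with
`0 < ∑ k, w k * ltv (a ..) j k` for some `j`. The signs: `∑ k, w k * ltv a j k = 2 * ∑ k, w k * a k + w j`
with `|w j| ≤ 1`. By `hbY` some item of `pos` is not in `bd`, and by `h2` it is true.
-/

namespace Pool.Agent.Lib.MP_634427_lc.Ad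

open Pool.Agent.Lib.MP_634427_lc Pool.Agent.Lib.MP_634427_lc.Maj Finset

/-- The alive children of an item, by their positions. -/
def aliveK {P m n : ℕ} [NeZero P] (al : Itm P m (n + 1) → Bool) (D : Itm P m n) (π : Par P m n) :
    Finset (Seed P × ZMod P) := univ.filter fun q => al (kid D π q.1 q.2) = true

/-- The alive items of a list, by their positions. -/
def aliveY {P m n M : ℕ} (al : Itm P m n → Bool) (Y : Fin M → Itm P m n) : Finset (Fin M) :=
  univ.filter fun l => al (Y l) = true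

/-- Few children are false. -/
private theorem ad_bad {P m c k0 : ℕ} [Fact P.Prime] (u u' : Fin m → ZMod P)
    (A : Finset (Fin m → Bool)) (hg : k0 < A.card) (hk : 2 * c * P ≤ k0)
    (hP : 2 * c * (m + 1) ^ 2 ≤ P) :
    c * (Finset.univ.filter fun q : Seed P × ZMod P =>
      ∀ w ∈ A, ev (vec u u' q.1, q.2) w ≠ 0).card ≤ P ^ 4 := by
  have hP0 : 0 < P := (Fact.out : P.Prime).pos
  have hc := cover u u' A
  obtain ⟨B, hB⟩ : ∃ B, B = Finset.univ.filter fun q : Seed P × ZMod P =>
    ∀ w ∈ A, ev (vec u u' q.1, q.2) w ≠ 0 := ⟨_, rfl⟩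
  rw [← hB] at hc ⊢
  have ht : 2 * c * P ≤ A.card := hk.trans hg.le
  have htP : 0 < A.card * P := Nat.mul_pos (by omega) hP0
  have h1 : 2 * c * (P ^ 2 + A.card * (m + 1) ^ 2) ≤ 2 * (A.card * P) := by
    have e1 : 2 * c * P * P ≤ A.card * P := Nat.mul_le_mul_right _ ht
    have e2 : 2 * c * (m + 1) ^ 2 * A.card ≤ P * A.card := Nat.mul_le_mul_right _ hP
    calc 2 * c * (P ^ 2 + A.card * (m + 1) ^ 2)
        = 2 * c * P * P + 2 * c * (m + 1) ^ 2 * A.card := by ring
      _ ≤ A.card * P + P * A.card := Nat.add_le_add e1 e2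
      _ = 2 * (A.card * P) := by ring
  have h2 : (A.card * P) * (2 * c * B.card) ≤ (A.card * P) * (2 * P ^ 4) := by
    calc (A.card * P) * (2 * c * B.card)
        = 2 * c * (B.card * (A.card * P)) := by ring
      _ ≤ 2 * c * (P ^ 4 * (P ^ 2 + A.card * (m + 1) ^ 2)) :=
          Nat.mul_le_mul_left _ hc
      _ = P ^ 4 * (2 * c * (P ^ 2 + A.card * (m + 1) ^ 2)) := by ring
      _ ≤ P ^ 4 * (2 * (A.card * P)) := Nat.mul_le_mul_left _ h1
      _ = (A.card * P) * (2 * P ^ 4) := by ring
  have h3 := Nat.le_of_mul_le_mul_left h2 htP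
  have h4 : 2 * c * B.card = 2 * (c * B.card) := by ring
  omega

/-- The sign of the functional at the vectors of an item, positive case. -/
private theorem ad_pos {p : ℕ} {w : Fin p → ℤ} (hw : ∀ k, |w k| ≤ 1) {a : Fin p → ℤ}
    (h : 0 < ∑ k, w k * a k) (j : Fin p) : 0 < ∑ k, w k * ltv a j k := by
  have h1 : ∑ k, w k * ltv a j k = 2 * (∑ k, w k * a k) + w j := by
    unfold ltv
    simp only [mul_add, Finset.sum_add_distrib, mul_ite, mul_one, mul_zero,
      Finset.sum_ite_eq', Finset.mem_univ, if_true]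
    rw [Finset.mul_sum]
    congr 1
    refine Finset.sum_congr rfl fun k _ => ?_
    ring
  have h2 := (abs_le.1 (hw j)).1
  rw [h1]
  omega

/-- The sign of the functional at the vectors of an item, negative case. -/
private theorem ad_neg {p : ℕ} {w : Fin p → ℤ} (hw : ∀ k, |w k| ≤ 1) {a : Fin p → ℤ}
    (h : ∑ k, w k * a k < 0) (j : Fin p) : ∑ k, w k * ltv a j k < 0 := by
  have h1 : 0 < ∑ k, (-w k) * a k := by
    have : ∑ k, (-w k) * a k = -∑ k, w k * a k := by
      rw [← Finset.sum_neg_distrib]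
      exact Finset.sum_congr rfl fun k _ => by ring
    rw [this]
    omega
  have h2 := ad_pos (w := fun k => -w k) (fun k => by rw [abs_neg]; exact hw k) h1 j
  have h3 : ∑ k, (-w k) * ltv a j k = -∑ k, w k * ltv a j k := by
    rw [← Finset.sum_neg_distrib]
    exact Finset.sum_congr rfl fun k _ => by ring
  rw [h3] at h2
  omega

/-- If the lists pass all tests then there is no witness. -/
theorem ad_sound {P m p : ℕ} [Fact P.Prime] (hp : 0 < p) (A : Finset (Fin m → Bool))
    (al : ∀ n, Itm P m n → Bool) (bd : ∀ n, Itm P m n → Prop) [∀ n, DecidablePred (bd n)]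
    (a : ∀ n, Itm P m n → Fin p → ℤ) (w : Fin p → ℤ) (hw : ∀ k, |w k| ≤ 1)
    (h1 : ∀ n ≤ m + 2, ∀ D : Itm P m n, al n D = true → ¬ bd n D → (∃ x ∈ A, Sat D x) →
      0 < ∑ k, w k * a n D k)
    (h2 : ∀ n ≤ m + 2, ∀ D : Itm P m n, al n D = true → ¬ bd n D → (¬ ∃ x ∈ A, Sat D x) →
      ∑ k, w k * a n D k < 0)
    (M k0 A0 : ℕ) (U : ℤ) (hU : 0 < U) (hM : 0 < M)
    (hk : 288 * p ^ 2 * A0 * P ≤ k0) (hP : 288 * p ^ 2 * A0 * (m + 1) ^ 2 ≤ P)
    (Y : ∀ n, Fin M → Itm P m n) (π : ∀ n, Fin M → Par P m n)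
    (T : ℕ → Fin p → Fin p → ℤ) (ec : ℕ → Fin M → Seed P × ZMod P → Fin p → ℕ)
    (ey : ℕ → Fin M → Fin p → ℕ)
    (hgap : ∀ n < m + 2, ∀ k, (∃ x ∈ A, Sat (Y n k) x) →
      k0 < (A.filter fun x => Sat (Y n k) x).card)
    (hA : ∀ n < m + 2, ∀ k, P ^ 4 ≤ A0 * (aliveK (al (n + 1)) (Y n k) (π n k)).card)
    (hbK : ∀ n < m + 2, ∀ k, 144 * p ^ 2 *
      ((aliveK (al (n + 1)) (Y n k) (π n k)).filter fun q =>
        bd (n + 1) (kid (Y n k) (π n k) q.1 q.2)).card ≤
          (aliveK (al (n + 1)) (Y n k) (π n k)).card)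
    (hbY : ∀ n < m + 2, 144 * p ^ 2 *
      ((aliveY (al (n + 1)) (Y (n + 1))).filter fun l => bd (n + 1) (Y (n + 1) l)).card <
          (aliveY (al (n + 1)) (Y (n + 1))).card)
    (hc1 : ∀ n < m + 2, ∀ k, ∀ q ∈ aliveK (al (n + 1)) (Y n k) (π n k), ∀ j,
      ∑ r, lpsi (T n) (ec n k q j) (a (n + 1) (kid (Y n k) (π n k) q.1 q.2)) j r ^ 2 ≤
        9 * (p : ℤ) ^ 2 * U ^ 2)
    (hc1' : ∀ n < m + 2, ∀ l ∈ aliveY (al (n + 1)) (Y (n + 1)), ∀ j,
      ∑ r, lpsi (T n) (ey n l j) (a (n + 1) (Y (n + 1) l)) j r ^ 2 ≤ 9 * (p : ℤ) ^ 2 * U ^ 2)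
    (hc2 : ∀ n < m + 2, ∀ k, ∀ r r', |2 * (p : ℤ) *
        (∑ q ∈ aliveK (al (n + 1)) (Y n k) (π n k), ∑ j,
          lpsi (T n) (ec n k q j) (a (n + 1) (kid (Y n k) (π n k) q.1 q.2)) j r *
          lpsi (T n) (ec n k q j) (a (n + 1) (kid (Y n k) (π n k) q.1 q.2)) j r') -
      (if r = r' then 2 * (p : ℤ) *
        (((aliveK (al (n + 1)) (Y n k) (π n k)).card : ℤ) * p * U ^ 2) else 0)| ≤
          ((aliveK (al (n + 1)) (Y n k) (π n k)).card : ℤ) * p * U ^ 2)
    (hc3 : ∀ n < m + 2, ∀ k, ∀ r, 16 * (p : ℤ) ^ 2 *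
      |((aliveY (al (n + 1)) (Y (n + 1))).card : ℤ) *
          (∑ q ∈ aliveK (al (n + 1)) (Y n k) (π n k), ∑ j,
            lpsi (T n) (ec n k q j) (a (n + 1) (kid (Y n k) (π n k) q.1 q.2)) j r) -
        ((aliveK (al (n + 1)) (Y n k) (π n k)).card : ℤ) *
          ∑ l ∈ aliveY (al (n + 1)) (Y (n + 1)), ∑ j,
            lpsi (T n) (ey n l j) (a (n + 1) (Y (n + 1) l)) j r| ≤
      ((aliveY (al (n + 1)) (Y (n + 1))).card : ℤ) *
        (aliveK (al (n + 1)) (Y n k) (π n k)).card * p * U)
    (hbot : ∀ k, ∃ y : Fin (m + 2) → ZMod P,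
      ∑ i, y i • Y (m + 2) k i = ((0 : Fin m → ZMod P), (1 : ZMod P))) : A = ∅ := by
  classical
  by_contra hT
  obtain ⟨w0, hw0⟩ := Finset.nonempty_iff_ne_empty.2 hT
  have hP0 : 0 < P := (Fact.out : P.Prime).pos
  have hP4 : 0 < P ^ 4 := pow_pos hP0 4
  have claim : ∀ n, n ≤ m + 2 → ∃ k, ∃ x ∈ A, Sat (Y n k) x := by
    intro n
    induction n with
    | zero => intro _; exact ⟨⟨0, hM⟩, w0, hw0, fun i => i.elim0⟩
    | succ n ih =>
      intro hn
      obtain ⟨k, hk'⟩ := ih (by omega)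
      have hn' : n < m + 2 := by omega
      have hg := hgap n hn' k hk'
      obtain ⟨A', hA'⟩ : ∃ A', A' = A.filter fun x => Sat (Y n k) x := ⟨_, rfl⟩
      rw [← hA'] at hg
      have hbad := ad_bad (c := 144 * p ^ 2 * A0) (π n k).1.1 (π n k).1.2 A' hg
        (le_trans (le_of_eq (by ring)) hk) (le_trans (le_of_eq (by ring)) hP)
      obtain ⟨B, hB⟩ : ∃ B, B = Finset.univ.filter fun q : Seed P × ZMod P =>
        ∀ w ∈ A', ev (vec (π n k).1.1 (π n k).1.2 q.1, q.2) w ≠ 0 := ⟨_, rfl⟩
      rw [← hB] at hbad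
      obtain ⟨K, hK⟩ : ∃ K, K = aliveK (al (n + 1)) (Y n k) (π n k) := ⟨_, rfl⟩
      obtain ⟨L, hL⟩ : ∃ L, L = aliveY (al (n + 1)) (Y (n + 1)) := ⟨_, rfl⟩
      have hKal : ∀ q ∈ K, al (n + 1) (kid (Y n k) (π n k) q.1 q.2) = true := by
        intro q hq
        rw [hK] at hq
        exact (Finset.mem_filter.1 hq).2
      have hLal : ∀ l ∈ L, al (n + 1) (Y (n + 1) l) = true := by
        intro l hl
        rw [hL] at hl
        exact (Finset.mem_filter.1 hl).2
      have hAn := hA n hn' k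
      have hbKn := hbK n hn' k
      have hbYn := hbY n hn'
      have hc1n := hc1 n hn' k
      have hc1n' := hc1' n hn'
      have hc2n := hc2 n hn' k
      have hc3n := hc3 n hn' k
      rw [← hK] at hAn hbKn hc1n
      rw [← hL] at hbYn hc1n'
      simp only [← hK] at hc2n
      simp only [← hK, ← hL] at hc3n
      have hA0 : 0 < A0 := by
        rcases Nat.eq_zero_or_pos A0 with h | h
        · rw [h, zero_mul] at hAn
          omega
        · exact h
      have hK0 : 0 < K.card := by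
        rcases Nat.eq_zero_or_pos K.card with h | h
        · rw [h, mul_zero] at hAn
          omega
        · exact h
      have hB2 : 144 * p ^ 2 * B.card ≤ K.card := by
        have h3 : A0 * (144 * p ^ 2 * B.card) ≤ A0 * K.card := by
          calc A0 * (144 * p ^ 2 * B.card) = 144 * p ^ 2 * A0 * B.card := by ring
            _ ≤ P ^ 4 := hbad
            _ ≤ A0 * K.card := hAn
        exact Nat.le_of_mul_le_mul_left h3 hA0
      have : Nonempty {q // q ∈ K} := by
        obtain ⟨q, hq⟩ := Finset.card_pos.1 hK0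
        exact ⟨⟨q, hq⟩⟩
      have hcX : Fintype.card {q // q ∈ K} = K.card := Fintype.card_coe K
      have hcZ : Fintype.card {l // l ∈ L} = L.card := Fintype.card_coe L
      obtain ⟨bad, hbd⟩ : ∃ bad : Finset {q // q ∈ K}, bad = Finset.univ.filter fun x =>
        x.1 ∈ B ∨ bd (n + 1) (kid (Y n k) (π n k) x.1.1 x.1.2) := ⟨_, rfl⟩
      have hbad2 : bad.card ≤ B.card +
          (K.filter fun q => bd (n + 1) (kid (Y n k) (π n k) q.1 q.2)).card := by
        rw [← Finset.card_image_of_injective bad Subtype.val_injective]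
        refine (Finset.card_le_card fun q hq => ?_).trans (Finset.card_union_le _ _)
        rw [Finset.mem_image] at hq
        obtain ⟨x, hx, rfl⟩ := hq
        rw [hbd, Finset.mem_filter] at hx
        rw [Finset.mem_union, Finset.mem_filter]
        rcases hx.2 with h | h
        · exact Or.inl h
        · exact Or.inr ⟨x.2, h⟩
      obtain ⟨pos, hps⟩ : ∃ pos : Finset {l // l ∈ L}, pos = Finset.univ.filter fun z =>
        ∃ j, 0 < ∑ i, w i * ltv (a (n + 1) (Y (n + 1) z.1)) j i := ⟨_, rfl⟩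
      have key := lt_step_many (X := {q // q ∈ K}) (Z := {l // l ∈ L}) hp U hU (T n)
        (fun q => a (n + 1) (kid (Y n k) (π n k) q.1.1 q.1.2)) (fun q => ec n k q.1)
        (fun z => a (n + 1) (Y (n + 1) z.1)) (fun z => ey n z.1) w
        (fun q j => hc1n q.1 q.2 j)
        (by
          intro r r'
          have h := hc2n r r'
          rw [hcX, Finset.sum_coe_sort K (fun q => ∑ j,
            lpsi (T n) (ec n k q j) (a (n + 1) (kid (Y n k) (π n k) q.1 q.2)) j r *
            lpsi (T n) (ec n k q j) (a (n + 1) (kid (Y n k) (π n k) q.1 q.2)) j r')]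
          exact h)
        (by
          intro r
          have h := hc3n r
          rw [hcX, hcZ, Finset.sum_coe_sort K (fun q => ∑ j,
            lpsi (T n) (ec n k q j) (a (n + 1) (kid (Y n k) (π n k) q.1 q.2)) j r),
            Finset.sum_coe_sort L (fun l => ∑ j,
            lpsi (T n) (ey n l j) (a (n + 1) (Y (n + 1) l)) j r)]
          exact h)
        (fun z j => hc1n' z.1 z.2 j) bad
        (by
          rw [hcX]
          have h3 : 144 * p ^ 2 * bad.card ≤ 144 * p ^ 2 * B.card + 144 * p ^ 2 *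
              (K.filter fun q => bd (n + 1) (kid (Y n k) (π n k) q.1 q.2)).card := by
            rw [← Nat.mul_add]
            exact Nat.mul_le_mul_left _ hbad2
          have h4 : 144 * p ^ 2 * bad.card = 2 * (72 * p ^ 2 * bad.card) := by ring
          omega)
        (by
          intro x hx j
          rw [hbd, Finset.mem_filter] at hx
          push Not at hx
          obtain ⟨hx1, hx2⟩ := hx (Finset.mem_univ _)
          rw [hB, Finset.mem_filter] at hx1
          push Not at hx1
          obtain ⟨v, hv, hv2⟩ := hx1 (Finset.mem_univ _)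
          rw [hA', Finset.mem_filter] at hv
          have hal := hKal x.1 x.2
          exact ad_pos hw (h1 (n + 1) hn _ hal hx2
            ⟨v, hv.1, (sat_kid_iff _ _ _ _ _).2 ⟨hv.2, hv2⟩⟩) j)
        pos
        (by
          intro z hz j
          rw [hps, Finset.mem_filter] at hz
          push Not at hz
          exact hz (Finset.mem_univ _) j)
      rw [hcZ] at key
      have h5 : ∃ z ∈ pos, ¬ bd (n + 1) (Y (n + 1) z.1) := by
        by_contra hcon
        push Not at hcon
        have h6 : pos.card ≤ (L.filter fun l => bd (n + 1) (Y (n + 1) l)).card := by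
          rw [← Finset.card_image_of_injective pos Subtype.val_injective]
          refine Finset.card_le_card fun l hl => ?_
          rw [Finset.mem_image] at hl
          obtain ⟨z, hz, rfl⟩ := hl
          exact Finset.mem_filter.2 ⟨z.2, hcon z hz⟩
        have h7 := Nat.mul_le_mul_left (144 * p ^ 2) h6
        omega
      obtain ⟨z, hz, hzb⟩ := h5
      rw [hps, Finset.mem_filter] at hz
      obtain ⟨-, j, hj⟩ := hz
      refine ⟨z.1, ?_⟩
      by_contra hcon
      have hal := hLal z.1 z.2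
      have h8 := ad_neg hw (h2 (n + 1) hn _ hal hzb hcon) j
      omega
  obtain ⟨k, x, _, hx⟩ := claim (m + 2) le_rfl
  obtain ⟨y, hy⟩ := hbot k
  exact not_sat_of_comb hy x hx

end Pool.Agent.Lib.MP_634427_lc.Ad
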