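import Pool.Agent.Lib.MP_634427_lc.Ad.Num
import Pool.Agent.Lib.MP_634427_lc.Ad.Sound
import Pool.Agent.Lib.MP_634427_lc.Maj.LtBridge

/-!
# Adaptive version: the checks on lists and the checks for items

`sum_famK`, `mem_famK`, `c1N_iff`, `c2N_iff`, `c3N_iff`, `normN_eq` of Maj/LtBridge.
-/

namespace Pool.Agent.Lib.MP_634427_lc.Ad

open Pool.Agent.Lib.MP_634427_lc Pool.Agent.Lib.MP_634427_lc.Maj Finset

/-- Is the question about an item alive? -/
def alR (rv : (Word × List Op) × Word → Option (List LT.Num)) (x : Word) (P m n : ℕ)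
    (σ : List Op) (D : Itm P m n) : Bool := (rv ((x, σ), quest x P (itmL D))).isSome

/-- The vector of an item. -/
def aR (rv : (Word × List Op) × Word → Option (List LT.Num)) (x : Word) (P m p n : ℕ)
    (σ : List Op) (D : Itm P m n) : Fin p → ℤ :=
  vecZ p ((rv ((x, σ), quest x P (itmL D))).getD [])

variable {rv : (Word × List Op) × Word → Option (List LT.Num)} {x : Word} {σ : List Op}
  {P m n p u M : ℕ} [NeZero P] {a : Node} {E : List (List ℕ)} {Y : List Node}

private theorem br_sum_flat {α β γ : Type} [AddCommMonoid γ] (l : List α) (f : α → List β)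
    (F : β → γ) : ((l.flatMap f).map F).sum = (l.map fun a => ((f a).map F).sum).sum := by
  induction l with
  | nil => rfl
  | cons a l ih =>
    rw [List.flatMap_cons, List.map_append, List.sum_append, ih, List.map_cons, List.sum_cons]

private theorem br_one {α : Type} [AddCommMonoid α] (F : List LT.Num × List ℕ → α)
    (o : Option (List LT.Num)) (e : List ℕ) :
    ((match o with
      | some v => [(v, e)]
      | none => []).map F).sum = if o.isSome = true then F (o.getD [], e) else 0 := by
  cases o with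
  | none => simp
  | some v => simp

private theorem br_famA {α : Type} [AddCommMonoid α] (F : List LT.Num × List ℕ → α) (G : Fam) :
    ((famA rv x σ G).map F).sum = (G.map fun g =>
      if (rv ((x, σ), qof g)).isSome = true then F ((rv ((x, σ), qof g)).getD [], g.2)
        else 0).sum := by
  unfold famA
  rw [br_sum_flat]
  refine congrArg List.sum (List.map_congr_left fun g _ => ?_)
  exact br_one F _ _

private theorem br_mem {G : Fam} {g : List LT.Num × List ℕ} : g ∈ famA rv x σ G ↔
    ∃ g' ∈ G, (rv ((x, σ), qof g')).isSome = true ∧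
      g = ((rv ((x, σ), qof g')).getD [], g'.2) := by
  unfold famA
  rw [List.mem_flatMap]
  refine exists_congr fun g' => and_congr_right fun _ => ?_
  cases rv ((x, σ), qof g') with
  | none => simp
  | some v => simp

private theorem br_len {l : Fam} : l.length = (l.map fun _ => 1).sum := by
  simp

private theorem br_rng {α : Type} [AddCommMonoid α] (p : ℕ) (f : ℕ → α) :
    ((List.range p).map f).sum = ∑ s : Fin p, f s.val := by
  rw [LT.sum_map_range, Finset.sum_range]

/-- The sum over the alive children. -/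
theorem sum_famAK {α : Type} [AddCommMonoid α] (F : List LT.Num × List ℕ → α) :
    ((famA rv x σ (qeK x P m n a E)).map F).sum =
      ∑ q ∈ aliveK (alR rv x P m (n + 1) σ) (itmC P m n a.1.1) (parC P m n a.1.2),
        F ((rv ((x, σ), quest x P (itmL (kid (itmC P m n a.1.1) (parC P m n a.1.2)
          q.1 q.2)))).getD [], E.getD (sidx P q.1.1.val q.1.2.1.val q.1.2.2.val * P + q.2.val) []) := by
  unfold qeK
  rw [br_famA, sum_famK, ← Fintype.sum_prod_type', aliveK, Finset.sum_filter]
  rfl

theorem length_famAK : (famA rv x σ (qeK x P m n a E)).length =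
    (aliveK (alR rv x P m (n + 1) σ) (itmC P m n a.1.1) (parC P m n a.1.2)).card := by
  rw [br_len, sum_famAK, Finset.card_eq_sum_ones]

/-- The sum over the alive items of a list. -/
theorem sum_famAL {α : Type} [AddCommMonoid α] (hY : Y.length = M)
    (F : List LT.Num × List ℕ → α) :
    ((famA rv x σ (qeL x P m n Y E)).map F).sum =
      ∑ l ∈ aliveY (alR rv x P m n σ) (fun l : Fin M => itmC P m n (Y.getD l.val nnil).1.1),
        F ((rv ((x, σ), quest x P (itmL (itmC P m n (Y.getD l.val nnil).1.1)))).getD [],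
          E.getD l.val []) := by
  unfold qeL famL
  rw [br_famA, List.map_map, List.map_map, br_rng, hY, aliveY, Finset.sum_filter]
  refine Finset.sum_congr rfl fun l _ => ?_
  have h1 := normN_eq P m n (Y.getD l.val nnil).1.1
  simp only [Function.comp_apply]
  rw [h1]
  rfl

theorem length_famAL (hY : Y.length = M) : (famA rv x σ (qeL x P m n Y E)).length =
    (aliveY (alR rv x P m n σ) (fun l : Fin M => itmC P m n (Y.getD l.val nnil).1.1)).card := by
  rw [br_len, sum_famAL hY, Finset.card_eq_sum_ones]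

theorem c1K_iff {T : List (List LT.Num)} : c1N p u T (famA rv x σ (qeK x P m n a E)) = true ↔
    ∀ q ∈ aliveK (alR rv x P m (n + 1) σ) (itmC P m n a.1.1) (parC P m n a.1.2), ∀ j,
      ∑ r, lpsi (matZ p T) (expK P p E q.1 q.2 j)
        (aR rv x P m p (n + 1) σ (kid (itmC P m n a.1.1) (parC P m n a.1.2) q.1 q.2)) j r ^ 2 ≤
          9 * (p : ℤ) ^ 2 * (2 ^ u) ^ 2 := by
  rw [c1N_iff]
  constructor
  · intro h q hq j
    exact h _ (br_mem.2 ⟨_, mem_famK.2 ⟨q.1, q.2, rfl⟩, (Finset.mem_filter.1 hq).2, rfl⟩) j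
  · intro h g hg j
    obtain ⟨g', hg', h1, rfl⟩ := br_mem.1 hg
    obtain ⟨s, c, rfl⟩ := mem_famK.1 hg'
    exact h (s, c) (Finset.mem_filter.2 ⟨Finset.mem_univ _, h1⟩) j

theorem c1L_iff {T : List (List LT.Num)} (hY : Y.length = M) :
    c1N p u T (famA rv x σ (qeL x P m n Y E)) = true ↔
    ∀ l ∈ aliveY (alR rv x P m n σ) (fun l : Fin M => itmC P m n (Y.getD l.val nnil).1.1), ∀ j,
      ∑ r, lpsi (matZ p T) (expZ p (E.getD l.val []) j)
        (aR rv x P m p n σ (itmC P m n (Y.getD l.val nnil).1.1)) j r ^ 2 ≤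
          9 * (p : ℤ) ^ 2 * (2 ^ u) ^ 2 := by
  rw [c1N_iff]
  have hm : ∀ g', g' ∈ qeL x P m n Y E ↔ ∃ l : Fin M,
      g' = (qv (x, quest x P (itmL (itmC P m n (Y.getD l.val nnil).1.1))), E.getD l.val []) := by
    intro g'
    unfold qeL famL
    rw [List.map_map, List.mem_map]
    constructor
    · rintro ⟨i, hi, rfl⟩
      refine ⟨⟨i, hY ▸ List.mem_range.1 hi⟩, ?_⟩
      simp only [Function.comp_apply]
      rw [normN_eq]
    · rintro ⟨l, rfl⟩
      refine ⟨l.val, List.mem_range.2 (hY.symm ▸ l.2), ?_⟩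
      simp only [Function.comp_apply]
      rw [normN_eq]
  constructor
  · intro h l hl j
    exact h _ (br_mem.2 ⟨_, (hm _).2 ⟨l, rfl⟩, (Finset.mem_filter.1 hl).2, rfl⟩) j
  · intro h g hg j
    obtain ⟨g', hg', h1, rfl⟩ := br_mem.1 hg
    obtain ⟨l, rfl⟩ := (hm _).1 hg'
    exact h l (Finset.mem_filter.2 ⟨Finset.mem_univ _, h1⟩) j

theorem c2K_iff {T : List (List LT.Num)} :
    c2N p u (famA rv x σ (qeK x P m n a E)).length T (famA rv x σ (qeK x P m n a E)) = true ↔
    ∀ r r', |2 * (p : ℤ) *
        (∑ q ∈ aliveK (alR rv x P m (n + 1) σ) (itmC P m n a.1.1) (parC P m n a.1.2), ∑ j,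
          lpsi (matZ p T) (expK P p E q.1 q.2 j)
            (aR rv x P m p (n + 1) σ (kid (itmC P m n a.1.1) (parC P m n a.1.2) q.1 q.2)) j r *
          lpsi (matZ p T) (expK P p E q.1 q.2 j)
            (aR rv x P m p (n + 1) σ (kid (itmC P m n a.1.1) (parC P m n a.1.2) q.1 q.2)) j r') -
      (if r = r' then 2 * (p : ℤ) *
        (((aliveK (alR rv x P m (n + 1) σ) (itmC P m n a.1.1) (parC P m n a.1.2)).card : ℤ) *
          p * (2 ^ u) ^ 2) else 0)| ≤
          ((aliveK (alR rv x P m (n + 1) σ) (itmC P m n a.1.1) (parC P m n a.1.2)).card : ℤ) *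
            p * (2 ^ u) ^ 2 := by
  rw [c2N_iff]
  refine forall₂_congr fun r r' => ?_
  rw [sum_famAK, length_famAK]
  rfl

theorem c3K_iff {T : List (List LT.Num)} {E' : List (List ℕ)} (hY : Y.length = M) :
    c3N p u (famA rv x σ (qeK x P m n a E)).length
      (famA rv x σ (qeL x P m (n + 1) Y E')).length T (famA rv x σ (qeK x P m n a E))
      (famA rv x σ (qeL x P m (n + 1) Y E')) = true ↔
    ∀ r, 16 * (p : ℤ) ^ 2 * |((aliveY (alR rv x P m (n + 1) σ)
            (fun l : Fin M => itmC P m (n + 1) (Y.getD l.val nnil).1.1)).card : ℤ) *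
          (∑ q ∈ aliveK (alR rv x P m (n + 1) σ) (itmC P m n a.1.1) (parC P m n a.1.2), ∑ j,
            lpsi (matZ p T) (expK P p E q.1 q.2 j)
              (aR rv x P m p (n + 1) σ (kid (itmC P m n a.1.1) (parC P m n a.1.2) q.1 q.2)) j r) -
        ((aliveK (alR rv x P m (n + 1) σ) (itmC P m n a.1.1) (parC P m n a.1.2)).card : ℤ) *
          ∑ l ∈ aliveY (alR rv x P m (n + 1) σ)
              (fun l : Fin M => itmC P m (n + 1) (Y.getD l.val nnil).1.1), ∑ j,
            lpsi (matZ p T) (expZ p (E'.getD l.val []) j)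
              (aR rv x P m p (n + 1) σ (itmC P m (n + 1) (Y.getD l.val nnil).1.1)) j r| ≤
      ((aliveY (alR rv x P m (n + 1) σ)
          (fun l : Fin M => itmC P m (n + 1) (Y.getD l.val nnil).1.1)).card : ℤ) *
        (aliveK (alR rv x P m (n + 1) σ) (itmC P m n a.1.1) (parC P m n a.1.2)).card * p *
          2 ^ u := by
  rw [c3N_iff]
  refine forall_congr' fun r => ?_
  rw [sum_famAK, sum_famAL hY, length_famAK, length_famAL hY]
  rfl

end Pool.Agent.Lib.MP_634427_lc.Ad
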