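import Pool.Agent.Lib.MP_634427_lc.Ad.Count
import Pool.Agent.Lib.MP_634427_lc.Maj.SizeNode

/-!
# Adaptive version: numbers, matrices and exponents as lists; the test of a leaf
-/

namespace Pool.Agent.Lib.MP_634427_lc.Ad

open Pool.Agent.Lib.MP_634427_lc Pool.Agent.Lib.MP_634427_lc.Maj Finset

theorem ca_getD {α : Type} {n : ℕ} (f : Fin n → α) (d : α) (i : Fin n) :
    (List.ofFn f).getD i.val d = f i := by
  rw [List.getD_eq_getElem _ _ (by rw [List.length_ofFn]; exact i.isLt), List.getElem_ofFn]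

theorem ca_mr {α : Type} {n : ℕ} (f : ℕ → α) {i : ℕ} (hi : i < n) (d : α) :
    ((List.range n).map f).getD i d = f i := by
  rw [List.getD_eq_getElem _ _ (by rw [List.length_map, List.length_range]; exact hi),
    List.getElem_map, List.getElem_range]

theorem ca_self {α : Type} (l : List α) (d : α) :
    (List.ofFn fun i : Fin l.length => l.getD i.val d) = l := by
  refine List.ext_getElem (by rw [List.length_ofFn]) fun i h1 h2 => ?_
  rw [List.getElem_ofFn]
  exact List.getD_eq_getElem _ _ h2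

theorem ca_sz {α : Type} [Enc α] (B : ℕ) (l : List α) (h : ∀ a ∈ l, sz a ≤ B) :
    sz l ≤ l.length * (B + 1) := by
  induction l with
  | nil => simp
  | cons a l ih =>
    have h1 := h a List.mem_cons_self
    have h2 := ih fun b hb => h b (List.mem_cons_of_mem a hb)
    rw [sz_cons, List.length_cons, Nat.succ_mul]
    omega

theorem ca_szf {α : Type} [Enc α] (B n : ℕ) (f : Fin n → α) (h : ∀ i, sz (f i) ≤ B) :
    sz (List.ofFn f) ≤ n * (B + 1) := by
  have h1 := ca_sz B (List.ofFn f) (by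
    intro a ha
    obtain ⟨i, rfl⟩ := (List.mem_ofFn' _ _).1 ha
    exact h i)
  rwa [List.length_ofFn] at h1

private theorem ca_word (t : ℕ) : ∀ n : ℕ, n < 2 ^ t → ∃ w : Word, w.length = t ∧ LT.bval w = n := by
  induction t with
  | zero =>
    intro n h
    rw [pow_zero] at h
    exact ⟨[], rfl, by rw [LT.bval_nil]; omega⟩
  | succ t ih =>
    intro n h
    rw [pow_succ] at h
    obtain ⟨w, h1, h2⟩ := ih (n / 2) (by omega)
    refine ⟨decide (n % 2 = 1) :: w, by rw [List.length_cons, h1], ?_⟩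
    rw [LT.bval_cons, h2]
    by_cases h3 : n % 2 = 1
    · simp only [h3, decide_true, LT.dg_true]
      omega
    · simp only [h3, decide_false, LT.dg_false]
      omega

private theorem ca_num {z : ℤ} {u : ℕ} (h : |z| ≤ 2 ^ u) :
    ∃ N : LT.Num, LT.nval N = z ∧ sz N ≤ 2 * u + 3 := by
  have h1 : z.natAbs < 2 ^ (u + 1) := by
    have h2 : ((z.natAbs : ℕ) : ℤ) ≤ 2 ^ u := by rwa [Int.natCast_natAbs]
    have h3 : z.natAbs ≤ 2 ^ u := by exact_mod_cast h2
    have h4 := Nat.one_le_two_pow (n := u)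
    rw [pow_succ]
    omega
  obtain ⟨w, h2, h3⟩ := ca_word _ _ h1
  have h4 := sz_word_le w
  rcases le_total 0 z with h5 | h5
  · refine ⟨(w, []), ?_, ?_⟩
    · show (LT.bval w : ℤ) - ((LT.bval [] : ℕ) : ℤ) = z
      rw [h3, LT.bval_nil]
      omega
    · rw [sz_pair, sz_lnil]
      omega
  · refine ⟨([], w), ?_, ?_⟩
    · show ((LT.bval [] : ℕ) : ℤ) - (LT.bval w : ℤ) = z
      rw [h3, LT.bval_nil]
      omega
    · rw [sz_pair, sz_lnil]
      omega

/-- A matrix as a list. -/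
theorem ca_mat {p u : ℕ} (T : Fin p → Fin p → ℤ) (h : ∀ r s, |T r s| ≤ 2 ^ u) :
    ∃ TL : List (List LT.Num), matZ p TL = T ∧ sz TL ≤ p * (p * (2 * u + 4) + 1) := by
  choose N hN using fun r s => ca_num (h r s)
  refine ⟨List.ofFn fun r => List.ofFn fun s => N r s, ?_, ?_⟩
  · funext r s
    unfold matZ LT.entry
    rw [ca_getD (fun r => List.ofFn fun s => N r s), ca_getD]
    exact (hN r s).1
  · exact ca_szf _ _ _ fun r => ca_szf _ _ _ fun s => (hN r s).2

/-- The exponents of the items of a list. -/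
theorem ca_ey {p M u : ℕ} (ey : Fin M → Fin p → ℕ) (h : ∀ l j, ey l j ≤ u) :
    ∃ E : List (List ℕ), (∀ l : Fin M, expZ p (E.getD l.val []) = ey l) ∧
      sz E ≤ M * (p * (u + 1) + 1) := by
  refine ⟨List.ofFn fun l => List.ofFn (ey l), fun l => ?_, ?_⟩
  · rw [ca_getD (fun l => List.ofFn (ey l))]
    funext j
    exact ca_getD _ 0 j
  · refine ca_szf _ _ _ fun l => ca_szf _ _ _ fun j => ?_
    rw [sz_nat]
    exact h l j

private theorem ca_lt {a b N P : ℕ} (ha : a < N) (hb : b < P) : a * P + b < N * P := by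
  calc a * P + b < a * P + P := Nat.add_lt_add_left hb _
    _ = (a + 1) * P := by ring
    _ ≤ N * P := Nat.mul_le_mul_right _ ha

private theorem ca_div {a b P : ℕ} (hb : b < P) : (a * P + b) / P = a := by
  rw [Nat.add_comm, Nat.add_mul_div_right _ _ (by omega), Nat.div_eq_of_lt hb, Nat.zero_add]

private theorem ca_cast {P : ℕ} [NeZero P] (a : ℕ) (e : ZMod P) :
    ((a * P + e.val : ℕ) : ZMod P) = e := by
  push_cast
  rw [ZMod.natCast_self, mul_zero, zero_add, ZMod.natCast_zmod_val]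

/-- The list of the exponents of the children. -/
private def caE (P p : ℕ) (f : Seed P → ZMod P → Fin p → ℕ) : List (List ℕ) :=
  (List.range (P ^ 4)).map fun i => List.ofFn (f (((i / P / P / P : ℕ) : ZMod P),
    (((i / P / P : ℕ) : ZMod P), ((i / P : ℕ) : ZMod P))) ((i : ℕ) : ZMod P))

private theorem ca_expK {P p : ℕ} [NeZero P] (f : Seed P → ZMod P → Fin p → ℕ) :
    expK P p (caE P p f) = f := by
  funext s c j
  obtain ⟨t, t', g⟩ := s
  have ht := ZMod.val_lt t
  have ht' := ZMod.val_lt t'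
  have hg := ZMod.val_lt g
  have hc := ZMod.val_lt c
  have hlt : sidx P t.val t'.val g.val * P + c.val < P ^ 4 := by
    have h1 := ca_lt (ca_lt (ca_lt ht ht') hg) hc
    have h2 : P * P * P * P = P ^ 4 := by ring
    rw [h2] at h1
    exact h1
  have e1 : (sidx P t.val t'.val g.val * P + c.val) / P = sidx P t.val t'.val g.val := ca_div hc
  have e2 : sidx P t.val t'.val g.val / P = t.val * P + t'.val := ca_div hg
  have e3 : (t.val * P + t'.val) / P = t.val := ca_div ht'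
  show ((caE P p f).getD (sidx P t.val t'.val g.val * P + c.val) []).getD j.val 0 = f (t, (t', g)) c j
  unfold caE
  rw [ca_mr _ hlt, ca_getD, e1, e2, e3, ca_cast, ca_cast]
  have e4 : ((sidx P t.val t'.val g.val : ℕ) : ZMod P) = g := ca_cast _ g
  rw [e4, ZMod.natCast_zmod_val]

/-- The exponents of the children of the items of a list. -/
theorem ca_ec {P p M u : ℕ} [NeZero P] (ec : Fin M → Seed P × ZMod P → Fin p → ℕ)
    (h : ∀ k q j, ec k q j ≤ u) :
    ∃ E : List (List (List ℕ)), (∀ (k : Fin M) s c, expK P p (E.getD k.val []) s c =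
      ec k (s, c)) ∧ sz E ≤ M * (P ^ 4 * (p * (u + 1) + 1) + 1) := by
  refine ⟨List.ofFn fun k => caE P p fun s c => ec k (s, c), fun k s c => ?_, ?_⟩
  · rw [ca_getD (fun k => caE P p fun s c => ec k (s, c)), ca_expK]
  · refine ca_szf _ _ _ fun k => ?_
    have h1 := ca_sz (p * (u + 1)) (caE P p fun s c => ec k (s, c)) (by
      intro a ha
      obtain ⟨i, -, rfl⟩ := List.mem_map.1 ha
      refine ca_szf u p _ fun j => ?_
      rw [sz_nat]
      exact h _ _ j)
    unfold caE at h1 ⊢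
    rwa [List.length_map, List.length_range] at h1

theorem ca_vec0 (p : ℕ) (j : Fin p) : vecZ p [] j = 0 := rfl

section leaf

variable {rv : (Word × List Op) × Word → Option (List LT.Num)}
  {wt : (Word × (List Op × List Word)) × Word → Option Word} {x : Word}
  {P m n M p u A0 Bc Ls : ℕ} [NeZero P]

/-- The test of a leaf from the facts about items. -/
theorem leaf_ok {σ : List Op} {TL : List (List LT.Num)} {EY : List (List ℕ)}
    {EC : List (List (List ℕ))} {X Z : List Node} (hX : X.length = M) (hZ : Z.length = M)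
    {Y : Fin M → Itm P m n} {Y' : Fin M → Itm P m (n + 1)} {π : Fin M → Par P m n}
    {T : Fin p → Fin p → ℤ} {ey : Fin M → Fin p → ℕ} {ec : Fin M → Seed P × ZMod P → Fin p → ℕ}
    (h1 : ∀ k : Fin M, itmC P m n (X.getD k.val nnil).1.1 = Y k)
    (h2 : ∀ k : Fin M, parC P m n (X.getD k.val nnil).1.2 = π k)
    (h3 : ∀ l : Fin M, itmC P m (n + 1) (Z.getD l.val nnil).1.1 = Y' l)
    (h4 : matZ p TL = T) (h5 : ∀ l : Fin M, expZ p (EY.getD l.val []) = ey l)
    (h6 : ∀ (k : Fin M) s c, expK P p (EC.getD k.val []) s c = ec k (s, c))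
    (hLs : σ.length ≤ Ls) (hM : M ≤ A0 * (aliveY (alR rv x P m (n + 1) σ) Y').card)
    (hr : ∀ σ' T w, (σ' ++ [opR T]) <+: σ → w ∉ T →
      Bc * ((univ : Finset (Fin M)).filter fun l => wt ((x, (σ', T)), quest x P
        (itmL (Y' l))) = some w).card ≤ (aliveY (alR rv x P m (n + 1) σ) Y').card)
    (hc1 : ∀ l ∈ aliveY (alR rv x P m (n + 1) σ) Y', ∀ j,
      ∑ r, lpsi T (ey l j) (aR rv x P m p (n + 1) σ (Y' l)) j r ^ 2 ≤
        9 * (p : ℤ) ^ 2 * (2 ^ u) ^ 2)
    (hk : ∀ k, P ^ 4 ≤ A0 * (aliveK (alR rv x P m (n + 1) σ) (Y k) (π k)).card)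
    (hkr : ∀ k, ∀ σ' T w, (σ' ++ [opR T]) <+: σ → w ∉ T →
      Bc * ((univ : Finset (Seed P × ZMod P)).filter fun q => wt ((x, (σ', T)), quest x P
        (itmL (kid (Y k) (π k) q.1 q.2))) = some w).card ≤
          (aliveK (alR rv x P m (n + 1) σ) (Y k) (π k)).card)
    (hk1 : ∀ k, ∀ q ∈ aliveK (alR rv x P m (n + 1) σ) (Y k) (π k), ∀ j,
      ∑ r, lpsi T (ec k q j) (aR rv x P m p (n + 1) σ (kid (Y k) (π k) q.1 q.2)) j r ^ 2 ≤
        9 * (p : ℤ) ^ 2 * (2 ^ u) ^ 2)
    (hk2 : ∀ k, ∀ r r', |2 * (p : ℤ) * (∑ q ∈ aliveK (alR rv x P m (n + 1) σ) (Y k) (π k), ∑ j,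
        lpsi T (ec k q j) (aR rv x P m p (n + 1) σ (kid (Y k) (π k) q.1 q.2)) j r *
        lpsi T (ec k q j) (aR rv x P m p (n + 1) σ (kid (Y k) (π k) q.1 q.2)) j r') -
      (if r = r' then 2 * (p : ℤ) *
        (((aliveK (alR rv x P m (n + 1) σ) (Y k) (π k)).card : ℤ) * p * (2 ^ u) ^ 2) else 0)| ≤
          ((aliveK (alR rv x P m (n + 1) σ) (Y k) (π k)).card : ℤ) * p * (2 ^ u) ^ 2)
    (hk3 : ∀ k, ∀ r, 16 * (p : ℤ) ^ 2 * |((aliveY (alR rv x P m (n + 1) σ) Y').card : ℤ) *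
        (∑ q ∈ aliveK (alR rv x P m (n + 1) σ) (Y k) (π k), ∑ j,
          lpsi T (ec k q j) (aR rv x P m p (n + 1) σ (kid (Y k) (π k) q.1 q.2)) j r) -
        ((aliveK (alR rv x P m (n + 1) σ) (Y k) (π k)).card : ℤ) *
          ∑ l ∈ aliveY (alR rv x P m (n + 1) σ) Y', ∑ j,
            lpsi T (ey l j) (aR rv x P m p (n + 1) σ (Y' l)) j r| ≤
      ((aliveY (alR rv x P m (n + 1) σ) Y').card : ℤ) *
        (aliveK (alR rv x P m (n + 1) σ) (Y k) (π k)).card * p * 2 ^ u) :
    leafA rv wt x P m M p u A0 Bc Ls n X (qeL x P m (n + 1) Z EY) ((σ, TL), (EY, EC)) = true := by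
  obtain rfl : (fun k : Fin M => itmC P m n (X.getD k.val nnil).1.1) = Y := funext h1
  obtain rfl : (fun k : Fin M => parC P m n (X.getD k.val nnil).1.2) = π := funext h2
  obtain rfl : (fun l : Fin M => itmC P m (n + 1) (Z.getD l.val nnil).1.1) = Y' := funext h3
  obtain rfl : (fun l : Fin M => expZ p (EY.getD l.val [])) = ey := funext h5
  obtain rfl : (fun (k : Fin M) (q : Seed P × ZMod P) =>
      expK P p (EC.getD k.val []) q.1 q.2) = ec := by
    funext k q
    exact h6 k q.1 q.2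
  subst h4
  unfold leafA
  rw [Bool.and_eq_true, Bool.and_eq_true, Bool.and_eq_true, Bool.and_eq_true,
    List.all_eq_true]
  refine ⟨⟨⟨decide_eq_true hLs, decide_eq_true ?_⟩, ?_, ?_⟩, fun k hk' => ?_⟩
  · show M ≤ A0 * (famA rv x σ (qeL x P m (n + 1) Z EY)).length
    rw [length_famAL hZ]
    exact hM
  · show rareN wt x Bc σ (qeL x P m (n + 1) Z EY)
      (famA rv x σ (qeL x P m (n + 1) Z EY)).length = true
    rw [length_famAL hZ]
    exact rareL_of hZ hr
  · exact (c1L_iff hZ).2 hc1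
  · have hkX : k < M := hX ▸ List.mem_range.1 hk'
    obtain ⟨k, rfl⟩ : ∃ k' : Fin M, k'.val = k := ⟨⟨k, hkX⟩, rfl⟩
    show kidA rv wt x P p u A0 Bc σ TL (famA rv x σ (qeL x P m (n + 1) Z EY))
      (qeK x P m n (X.getD k.val nnil) (EC.getD k.val [])) = true
    unfold kidA
    rw [Bool.and_eq_true, Bool.and_eq_true, Bool.and_eq_true, Bool.and_eq_true]
    refine ⟨⟨decide_eq_true ?_, ?_⟩, c1K_iff.2 (hk1 k), c2K_iff.2 (hk2 k),
      (c3K_iff hZ).2 (hk3 k)⟩
    · rw [length_famAK]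
      exact hk k
    · rw [length_famAK]
      exact rareK_of (hkr k)

end leaf

end Pool.Agent.Lib.MP_634427_lc.Ad
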