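import Pool.Agent.Lib.MP_634427_lc.Ad.Bridge

/-!
# Adaptive version: few members of a family are in the error set

In `rare_count` the members of `G` in the error set are covered by the sets `atz .. z` for the positions
`t < σ.length` with `isR` and the words `z ∈ F` outside the list of the operation.
-/

namespace Pool.Agent.Lib.MP_634427_lc.Ad

open Pool.Agent.Lib.MP_634427_lc Pool.Agent.Lib.MP_634427_lc.Maj Finset

/-- Is a question in the error set of the script, for the words in `F`? -/
def BdW (wt : (Word × (List Op × List Word)) × Word → Option Word) (x : Word) (F : Finset Word)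
    (σ : List Op) (r : Word) : Prop :=
  ∃ (σ' : List Op) (T : List Word) (z : Word), (σ' ++ [opR T]) <+: σ ∧ z ∈ F ∧ z ∉ T ∧
    wt ((x, (σ', T)), r) = some z

variable {wt : (Word × (List Op × List Word)) × Word → Option Word} {x : Word} {B N : ℕ}
  {σ : List Op}

private theorem count_pos {σ σ' : List Op} {o : Op} (h : (σ' ++ [o]) <+: σ) :
    σ'.length < σ.length ∧ σ.take σ'.length = σ' ∧ σ.getD σ'.length opY = o := by
  obtain ⟨r, rfl⟩ := h
  refine ⟨by simp, by simp, by simp⟩

private theorem count_prefix {σ : List Op} {t : ℕ} (ht : t < σ.length) :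
    (σ.take t ++ [σ.getD t opY]) <+: σ := by
  have h : σ.getD t opY = σ[t] := by simp [List.getD_eq_getElem?_getD, ht]
  rw [h, List.take_append_getElem]
  exact List.take_prefix _ _

private theorem count_rareN_iff {G : Fam} : rareN wt x B σ G N = true ↔
    ∀ (σ' : List Op) (T : List Word) (z : Word), (σ' ++ [opR T]) <+: σ → z ∉ T →
      B * (G.filter (atz wt x σ' T z)).length ≤ N := by
  unfold rareN
  rw [List.all_eq_true]
  constructor
  · intro h σ' T z hσ hz
    obtain ⟨h1, h2, h3⟩ := count_pos hσ
    have h4 := h σ'.length (List.mem_range.2 h1)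
    rw [h2, h3] at h4
    have h5 : isR (opR T) = true := isR_iff.2 rfl
    rw [h5, Bool.not_true, Bool.false_or, List.all_eq_true] at h4
    by_cases h6 : G.filter (atz wt x σ' T z) = []
    · rw [h6, List.length_nil, Nat.mul_zero]
      exact Nat.zero_le _
    · obtain ⟨g, hg⟩ := List.exists_mem_of_ne_nil _ h6
      rw [List.mem_filter] at hg
      have h7 := h4 g hg.1
      have h8 : wt ((x, (σ', T)), qof g) = some z := of_decide_eq_true hg.2
      change (match wt ((x, (σ', T)), qof g) with
        | some z => decide (z ∈ T) ||
          decide (B * (G.filter (atz wt x σ' T z)).length ≤ N)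
        | none => true) = true at h7
      rw [h8] at h7
      change (decide (z ∈ T) || decide (B * (G.filter (atz wt x σ' T z)).length ≤ N)) = true at h7
      rw [Bool.or_eq_true, decide_eq_true_eq, decide_eq_true_eq] at h7
      exact h7.resolve_left hz
  · intro h t ht
    have ht' := List.mem_range.1 ht
    by_cases hR : isR (σ.getD t opY) = true
    · rw [hR, Bool.not_true, Bool.false_or, List.all_eq_true]
      intro g _
      have h1 := count_prefix ht'
      rw [isR_iff.1 hR] at h1
      cases h2 : wt ((x, (σ.take t, (σ.getD t opY).2.1)), qof g) with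
      | none => rfl
      | some z =>
        change (decide (z ∈ (σ.getD t opY).2.1) || decide (B * (G.filter (atz wt x (σ.take t)
          (σ.getD t opY).2.1 z)).length ≤ N)) = true
        rw [Bool.or_eq_true, decide_eq_true_eq, decide_eq_true_eq]
        by_cases h3 : z ∈ (σ.getD t opY).2.1
        · exact Or.inl h3
        · exact Or.inr (h _ _ z h1 h3)
    · rw [Bool.not_eq_true] at hR
      rw [hR]
      rfl

private theorem count_len {α : Type} (l : List α) (p : α → Bool) :
    (l.filter p).length = (l.map fun a => if p a = true then 1 else 0).sum := by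
  induction l with
  | nil => rfl
  | cons a l ih =>
    rw [List.map_cons, List.sum_cons, ← ih]
    by_cases h : p a = true
    · rw [List.filter_cons_of_pos h, List.length_cons, if_pos h, Nat.add_comm]
    · rw [List.filter_cons_of_neg h, if_neg h, Nat.zero_add]

private theorem count_cover {α ι : Type} (s : Finset ι) (p : α → Bool) (q : ι → α → Bool)
    (h : ∀ a, p a = true → ∃ i ∈ s, q i a = true) (l : List α) :
    (l.filter p).length ≤ ∑ i ∈ s, (l.filter (q i)).length := by
  induction l with
  | nil => exact Nat.zero_le _
  | cons a l ih =>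
    have h1 : ∀ r : α → Bool, ((a :: l).filter r).length =
        (if r a = true then 1 else 0) + (l.filter r).length := by
      intro r
      by_cases h2 : r a = true
      · rw [List.filter_cons_of_pos h2, List.length_cons, if_pos h2, Nat.add_comm]
      · rw [List.filter_cons_of_neg h2, if_neg h2, Nat.zero_add]
    simp only [h1]
    rw [Finset.sum_add_distrib]
    refine Nat.add_le_add ?_ ih
    by_cases h2 : p a = true
    · obtain ⟨i, hi, hq⟩ := h a h2
      rw [if_pos h2]
      calc 1 = (if q i a = true then 1 else 0) := by rw [if_pos hq]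
        _ ≤ ∑ i ∈ s, (if q i a = true then 1 else 0) :=
          Finset.single_le_sum (f := fun i => if q i a = true then 1 else 0)
            (fun _ _ => Nat.zero_le _) hi
    · rw [if_neg h2]
      exact Nat.zero_le _

/-- The test at a position, for `z` outside the list of the operation. -/
theorem rareN_apply {G : Fam} (h : rareN wt x B σ G N = true) {σ' : List Op} {T : List Word}
    (hσ : (σ' ++ [opR T]) <+: σ) {z : Word} (hz : z ∉ T) :
    B * (G.filter (atz wt x σ' T z)).length ≤ N := by
  exact count_rareN_iff.1 h σ' T z hσ hz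

open Classical in
/-- Few members of the family are in the error set. -/
theorem rare_count {G : Fam} {F : Finset Word} (h : rareN wt x B σ G N = true) :
    B * (G.filter fun g => decide (BdW wt x F σ (qof g))).length ≤ σ.length * F.card * N := by
  have h1 := count_cover ((Finset.range σ.length) ×ˢ F)
    (fun g : List LT.Num × List ℕ => decide (BdW wt x F σ (qof g)))
    (fun i g => decide ((σ.take i.1 ++ [opR (σ.getD i.1 opY).2.1]) <+: σ ∧
      i.2 ∉ (σ.getD i.1 opY).2.1) && atz wt x (σ.take i.1) (σ.getD i.1 opY).2.1 i.2 g)
    (by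
      intro g hg
      obtain ⟨σ', T, z, hσ, hzF, hzT, hw⟩ := of_decide_eq_true hg
      obtain ⟨h2, h3, h4⟩ := count_pos hσ
      refine ⟨(σ'.length, z), Finset.mem_product.2 ⟨Finset.mem_range.2 h2, hzF⟩, ?_⟩
      rw [Bool.and_eq_true]
      refine ⟨?_, ?_⟩
      · rw [decide_eq_true_eq, h3, h4]
        exact ⟨hσ, hzT⟩
      · unfold atz
        rw [decide_eq_true_eq, h3, h4]
        exact hw) G
  have h2 : ∀ i ∈ (Finset.range σ.length) ×ˢ F,
      B * (G.filter (fun g => decide ((σ.take i.1 ++ [opR (σ.getD i.1 opY).2.1]) <+: σ ∧
        i.2 ∉ (σ.getD i.1 opY).2.1) &&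
          atz wt x (σ.take i.1) (σ.getD i.1 opY).2.1 i.2 g)).length ≤ N := by
    intro i _
    by_cases h3 : (σ.take i.1 ++ [opR (σ.getD i.1 opY).2.1]) <+: σ ∧
        i.2 ∉ (σ.getD i.1 opY).2.1
    · simp only [h3, not_false_eq_true, and_self, decide_true, Bool.true_and]
      exact rareN_apply h h3.1 h3.2
    · simp only [h3, decide_false, Bool.false_and]
      rw [List.filter_false, List.length_nil, Nat.mul_zero]
      exact Nat.zero_le _
  calc B * (G.filter fun g => decide (BdW wt x F σ (qof g))).length
      ≤ B * ∑ i ∈ (Finset.range σ.length) ×ˢ F, (G.filter (fun g =>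
          decide ((σ.take i.1 ++ [opR (σ.getD i.1 opY).2.1]) <+: σ ∧
            i.2 ∉ (σ.getD i.1 opY).2.1) &&
              atz wt x (σ.take i.1) (σ.getD i.1 opY).2.1 i.2 g)).length := Nat.mul_le_mul_left _ h1
    _ = ∑ i ∈ (Finset.range σ.length) ×ˢ F, B * (G.filter (fun g =>
          decide ((σ.take i.1 ++ [opR (σ.getD i.1 opY).2.1]) <+: σ ∧
            i.2 ∉ (σ.getD i.1 opY).2.1) &&
              atz wt x (σ.take i.1) (σ.getD i.1 opY).2.1 i.2 g)).length := Finset.mul_sum _ _ _
    _ ≤ ∑ _i ∈ (Finset.range σ.length) ×ˢ F, N := Finset.sum_le_sum h2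
    _ = σ.length * F.card * N := by
      rw [Finset.sum_const, Finset.card_product, Finset.card_range, smul_eq_mul]

section items

variable {P m n M : ℕ} [NeZero P] {a : Node} {E : List (List ℕ)} {Y : List Node}

private theorem count_lenK (p : Word → Prop) [DecidablePred p] :
    ((qeK x P m n a E).filter fun g => decide (p (qof g))).length =
      ((univ : Finset (Seed P × ZMod P)).filter fun q =>
        p (quest x P (itmL (kid (itmC P m n a.1.1) (parC P m n a.1.2) q.1 q.2)))).card := by
  rw [count_len]
  unfold qeK
  rw [sum_famK qv x P m n (a, ([], E))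
    (fun g => if decide (p (qof g)) = true then 1 else 0), Finset.card_filter]
  simp only [decide_eq_true_eq]
  exact (Fintype.sum_prod_type (fun q : Seed P × ZMod P =>
    if p (quest x P (itmL (kid (itmC P m n a.1.1) (parC P m n a.1.2) q.1 q.2)))
      then 1 else 0)).symm

private theorem count_lenL (hY : Y.length = M) (p : Word → Prop) [DecidablePred p] :
    ((qeL x P m n Y E).filter fun g => decide (p (qof g))).length =
      ((univ : Finset (Fin M)).filter fun l =>
        p (quest x P (itmL (itmC P m n (Y.getD l.val nnil).1.1)))).card := by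
  subst hY
  rw [count_len]
  unfold qeL famL
  rw [List.map_map, List.map_map, LT.sum_map_range, Finset.sum_range, Finset.card_filter]
  refine Finset.sum_congr rfl fun l _ => ?_
  simp only [Function.comp_apply, decide_eq_true_eq, normN_eq]
  rfl

open Classical in
theorem rare_cardK {F : Finset Word} (h : rareN wt x B σ (qeK x P m n a E) N = true) :
    B * ((univ : Finset (Seed P × ZMod P)).filter fun q => BdW wt x F σ
      (quest x P (itmL (kid (itmC P m n a.1.1) (parC P m n a.1.2) q.1 q.2)))).card ≤
        σ.length * F.card * N := by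
  have h1 := rare_count (F := F) h
  rwa [count_lenK (fun w => BdW wt x F σ w)] at h1

open Classical in
theorem rare_cardL {F : Finset Word} (hY : Y.length = M)
    (h : rareN wt x B σ (qeL x P m n Y E) N = true) :
    B * ((univ : Finset (Fin M)).filter fun l => BdW wt x F σ
      (quest x P (itmL (itmC P m n (Y.getD l.val nnil).1.1)))).card ≤ σ.length * F.card * N := by
  have h1 := rare_count (F := F) h
  rwa [count_lenL hY (fun w => BdW wt x F σ w)] at h1

theorem rareK_of (h : ∀ σ' T z, (σ' ++ [opR T]) <+: σ → z ∉ T →
    B * ((univ : Finset (Seed P × ZMod P)).filter fun q => wt ((x, (σ', T)), quest x P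
      (itmL (kid (itmC P m n a.1.1) (parC P m n a.1.2) q.1 q.2))) = some z).card ≤ N) :
    rareN wt x B σ (qeK x P m n a E) N = true := by
  refine count_rareN_iff.2 fun σ' T z hσ hz => ?_
  have h1 := h σ' T z hσ hz
  rwa [← count_lenK (fun w => wt ((x, (σ', T)), w) = some z)] at h1

theorem rareL_of (hY : Y.length = M) (h : ∀ σ' T z, (σ' ++ [opR T]) <+: σ → z ∉ T →
    B * ((univ : Finset (Fin M)).filter fun l => wt ((x, (σ', T)), quest x P
      (itmL (itmC P m n (Y.getD l.val nnil).1.1))) = some z).card ≤ N) :
    rareN wt x B σ (qeL x P m n Y E) N = true := by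
  refine count_rareN_iff.2 fun σ' T z hσ hz => ?_
  have h1 := h σ' T z hσ hz
  rwa [← count_lenL hY (fun w => wt ((x, (σ', T)), w) = some z)] at h1

end items

end Pool.Agent.Lib.MP_634427_lc.Ad
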