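import Pool.Agent.Lib.MP_634427_lc.Maj.LtRound

/-!
# Isotropic position for the alive items; relative means
-/

namespace Pool.Agent.Lib.MP_634427_lc.Ad

open Pool.Agent.Lib.MP_634427_lc Pool.Agent.Lib.MP_634427_lc.Maj Finset

/-- `iso_int` for the subtype of the alive items; the exponents of the other items are 0. -/
theorem iso_alive {G : Type} [Fintype G] {p b c : ℕ} (hp : 0 < p) (al : G → Bool)
    (hne : ∃ g, al g = true) (a : G → Fin p → ℤ) (ha : ∀ g k, |a g k| ≤ 2 ^ b)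
    (hc : Fintype.card G ≤ 2 ^ c) :
    ∃ (e : G → Fin p → ℕ) (T : Fin p → Fin p → ℤ), (∀ g j, e g j ≤ ltK p b c) ∧
      (∀ r s, |T r s| ≤ 2 ^ (ltK p b c + ltL p b)) ∧
      (∀ g, al g = true → ∀ j, ∑ r, lpsi T (e g j) (a g) j r ^ 2 ≤
        9 * (p : ℤ) ^ 2 * (2 ^ (ltK p b c + ltL p b)) ^ 2) ∧
      ∀ r s, 8 * (p : ℤ) * |(∑ g ∈ univ.filter (fun g => al g = true), ∑ j,
          lpsi T (e g j) (a g) j r * lpsi T (e g j) (a g) j s) -
        (if r = s then ((univ.filter fun g => al g = true).card : ℤ) * p *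
          (2 ^ (ltK p b c + ltL p b)) ^ 2 else 0)| ≤
          ((univ.filter fun g => al g = true).card : ℤ) * p *
            (2 ^ (ltK p b c + ltL p b)) ^ 2 := by
  classical
  obtain ⟨g0, hg0⟩ := hne
  have hN : Nonempty {g : G // al g = true} := ⟨⟨g0, hg0⟩⟩
  obtain ⟨e, T, h1, h2, h3, h4⟩ := iso_int (G := {g : G // al g = true}) (b := b) (c := c) hp
    (fun g => a g.1) (fun g k => ha g.1 k) ((Fintype.card_subtype_le _).trans hc)
  have hval : ∀ (g : G) (h : al g = true) (j : Fin p),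
      (if h : al g = true then e ⟨g, h⟩ j else 0) = e ⟨g, h⟩ j := fun g h j => dif_pos h
  refine ⟨fun g j => if h : al g = true then e ⟨g, h⟩ j else 0, T, ?_, h2, ?_, ?_⟩
  · intro g j
    by_cases h : al g = true
    · simp only [hval g h j]
      exact h1 ⟨g, h⟩ j
    · simp only [dif_neg h]
      exact Nat.zero_le _
  · intro g h j
    simp only [hval g h j]
    exact h3 ⟨g, h⟩ j
  · intro r s
    have h5 : (∑ g ∈ univ.filter (fun g => al g = true), ∑ j,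
          lpsi T (if h : al g = true then e ⟨g, h⟩ j else 0) (a g) j r *
            lpsi T (if h : al g = true then e ⟨g, h⟩ j else 0) (a g) j s) =
        ∑ g : {g : G // al g = true}, ∑ j,
          lpsi T (e g j) (a g.1) j r * lpsi T (e g j) (a g.1) j s := by
      rw [Finset.sum_subtype (univ.filter fun g => al g = true)
        (p := fun g => al g = true) (by simp)]
      refine Finset.sum_congr rfl fun g _ => Finset.sum_congr rfl fun j _ => ?_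
      rw [hval g.1 g.2 j]
    have h6 : ((univ.filter fun g => al g = true).card : ℤ) =
        (Fintype.card {g : G // al g = true} : ℤ) := by
      rw [Fintype.card_subtype]
    rw [h5, h6]
    exact h4 r s

private theorem rel_small {p Γ δ α : ℝ} (hp : 1 ≤ p) (hΓ : 0 < Γ) (hα : 1 ≤ Γ * α) (hδ : 0 ≤ δ)
    (hδ' : 512 * p ^ 3 * Γ * δ ≤ 1) :
    0 < α ∧ 512 * (p ^ 3 * δ) ≤ α ∧ δ ≤ p ^ 3 * δ ∧ p * δ ≤ p ^ 3 * δ ∧ p ^ 2 * δ ≤ p ^ 3 * δ := by
  have h0 : 0 < α := by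
    by_contra h
    push Not at h
    nlinarith
  refine ⟨h0, ?_, ?_, ?_, ?_⟩
  · by_contra h
    push Not at h
    have h1 := mul_lt_mul_of_pos_left h hΓ
    have h2 : Γ * (512 * (p ^ 3 * δ)) = 512 * p ^ 3 * Γ * δ := by ring
    linarith
  · have : 1 ≤ p ^ 3 := one_le_pow₀ hp
    nlinarith
  · have : p ≤ p ^ 3 := by nlinarith [one_le_pow₀ hp (n := 2)]
    exact mul_le_mul_of_nonneg_right this hδ
  · have : p ^ 2 ≤ p ^ 3 := pow_le_pow_right₀ hp (by norm_num)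
    exact mul_le_mul_of_nonneg_right this hδ

/-- Second moments: `|x2 - t ax| ≤ |x2 - μ2| + |μ2 - t α| + t |α - ax| ≤ δ + α / (8 p)`. -/
theorem rel2 {p Γ δ α ax x2 μ2 t : ℝ} (hp : 1 ≤ p) (hΓ : 0 < Γ) (hα : 1 ≤ Γ * α) (hδ : 0 ≤ δ)
    (hδ' : 512 * p ^ 3 * Γ * δ ≤ 1) (ht0 : 0 ≤ t) (ht1 : t ≤ 1) (h1 : |ax - α| ≤ 3 / 2 * δ)
    (h2 : |x2 - μ2| ≤ 3 / 2 * δ) (h3 : 8 * p * |μ2 - t * α| ≤ α) : 2 * p * |x2 - t * ax| ≤ ax := by
  obtain ⟨h0, h4, h5, h6, -⟩ := rel_small hp hΓ hα hδ hδ'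
  have h7 : |x2 - t * ax| ≤ 3 / 2 * δ + |μ2 - t * α| + 3 / 2 * δ := by
    have e1 : x2 - t * ax = (x2 - μ2) + (μ2 - t * α) + t * (α - ax) := by ring
    have e2 : |t * (α - ax)| ≤ 3 / 2 * δ := by
      rw [abs_mul, abs_of_nonneg ht0, abs_sub_comm]
      calc t * |ax - α| ≤ 1 * |ax - α| := mul_le_mul_of_nonneg_right ht1 (abs_nonneg _)
        _ ≤ 3 / 2 * δ := by rw [one_mul]; exact h1
    rw [e1]
    calc |(x2 - μ2) + (μ2 - t * α) + t * (α - ax)|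
        ≤ |x2 - μ2| + |μ2 - t * α| + |t * (α - ax)| := abs_add_three _ _ _
      _ ≤ 3 / 2 * δ + |μ2 - t * α| + 3 / 2 * δ := by linarith
  have h8 : 2 * p * |x2 - t * ax| ≤ 2 * p * (3 / 2 * δ + |μ2 - t * α| + 3 / 2 * δ) :=
    mul_le_mul_of_nonneg_left h7 (by linarith)
  have h9 : 2 * p * (3 / 2 * δ + |μ2 - t * α| + 3 / 2 * δ) =
      6 * (p * δ) + (8 * p * |μ2 - t * α|) / 4 := by ring
  have h10 := (abs_le.1 h1).1
  linarith

/-- First moments: `az x1 - ax z1 = az (x1 - μ1) - ax (z1 - μ1) + μ1 (az - ax)`. -/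
theorem rel3 {p Γ δ α ax az x1 z1 μ1 : ℝ} (hp : 1 ≤ p) (hΓ : 0 < Γ) (hα : 1 ≤ Γ * α) (hδ : 0 ≤ δ)
    (hδ' : 512 * p ^ 3 * Γ * δ ≤ 1) (h1 : |ax - α| ≤ 1 / 2 * δ) (h2 : |az - α| ≤ 3 / 2 * δ)
    (h3 : |x1 - μ1| ≤ 1 / 2 * δ) (h4 : |z1 - μ1| ≤ 3 / 2 * δ) (h5 : |μ1| ≤ 3 * p * α) :
    16 * p ^ 2 * |az * x1 - ax * z1| ≤ az * ax := by
  obtain ⟨h0, h6, h7, -, h8⟩ := rel_small hp hΓ hα hδ hδ'
  have hx1 := (abs_le.1 h1).1
  have hx2 := (abs_le.1 h1).2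
  have hz1 := (abs_le.1 h2).1
  have hz2 := (abs_le.1 h2).2
  obtain ⟨D, hD⟩ : ∃ D, D = p ^ 3 * δ := ⟨_, rfl⟩
  rw [← hD] at h6 h7 h8
  have hD0 : 0 ≤ D := hδ.trans h7
  have hax : 0.99 * α ≤ ax := by linarith
  have haz : 0.99 * α ≤ az := by linarith
  have hax' : ax ≤ 1.01 * α := by linarith
  have haz' : az ≤ 1.01 * α := by linarith
  have hax0 : 0 ≤ ax := by linarith
  have haz0 : 0 ≤ az := by linarith
  have e1 : |az * x1 - ax * z1| ≤ az * (1 / 2 * δ) + ax * (3 / 2 * δ) + 3 * p * α * (2 * δ) := by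
    have e2 : az * x1 - ax * z1 = az * (x1 - μ1) + (-(ax * (z1 - μ1))) + μ1 * (az - ax) := by ring
    rw [e2]
    refine (abs_add_three _ _ _).trans ?_
    rw [abs_neg, abs_mul, abs_mul, abs_mul, abs_of_nonneg haz0, abs_of_nonneg hax0]
    have e3 : |az - ax| ≤ 2 * δ := by
      rw [abs_le]
      constructor <;> linarith
    have e4 := mul_le_mul_of_nonneg_left h3 haz0
    have e5 := mul_le_mul_of_nonneg_left h4 hax0
    have e6 : |μ1| * |az - ax| ≤ 3 * p * α * (2 * δ) :=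
      mul_le_mul h5 e3 (abs_nonneg _) (by positivity)
    linarith
  have e7 : 16 * p ^ 2 * |az * x1 - ax * z1| ≤
      16 * p ^ 2 * (az * (1 / 2 * δ) + ax * (3 / 2 * δ) + 3 * p * α * (2 * δ)) :=
    mul_le_mul_of_nonneg_left e1 (by positivity)
  have e8 : 16 * p ^ 2 * (az * (1 / 2 * δ) + ax * (3 / 2 * δ) + 3 * p * α * (2 * δ)) =
      8 * (p ^ 2 * δ) * az + 24 * (p ^ 2 * δ) * ax + 96 * α * D := by
    rw [hD]
    ring
  have e9 : p ^ 2 * δ * az ≤ D * (1.01 * α) := mul_le_mul h8 haz' haz0 hD0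
  have e10 : p ^ 2 * δ * ax ≤ D * (1.01 * α) := mul_le_mul h8 hax' hax0 hD0
  have e11 : D * α ≤ α / 512 * α := mul_le_mul_of_nonneg_right (by linarith) h0.le
  have e12 : 0.99 * α * (0.99 * α) ≤ az * ax := mul_le_mul haz hax (by positivity) haz0
  nlinarith [sq_nonneg α]

end Pool.Agent.Lib.MP_634427_lc.Ad
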