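import Pool.Agent.Lib.MP_634427_lc.Maj.LtExistA
import Pool.Agent.Lib.MP_634427_lc.Ad.ExistA
import Pool.Agent.Lib.MP_634427_lc.Ad.Sound

/-!
# Existence of the lists, matrices and exponents of the adaptive version

There are `N` leaves (index `i`) with alive sets `al n i` of relative size at least `1 / Γ` and vectors
`a n i`, and a finite family of statistics `st n D b`.

Proof. For `n + 1 ≤ m + 2` and `i` take `T`, `e` of `iso_alive` (not empty by `hΓ`). Apply
`exist_lists_mean` to the disjoint union of `B`, of `Fin N` (the indicators of `al`), of `Fin N × Fin p`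
(`(∑ j, Psi_r) / (p * U)` for alive items, 0 otherwise), of `Fin N × Fin p × Fin p`
(`(∑ j, Psi_r * Psi_s) / (p * U ^ 2)` for alive items), all 0 for levels `> m + 2`. The sum of the
squares is `≤ Q + N * (1 + 9 * p ^ 2 + 81 * p ^ 4) ≤ Q + N * (200 * p ^ 4)` (Jensen), and this is
`≤ (Q + N * (200 * p ^ 4)) ^ 2` since it is at least 1; `δ = 1 / R`. The mean over the list is within
`δ + δ / 2` of the mean over all items. `rel2` and `rel3` give the second and the third check (divide by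
`P ^ 4 * p * U ^ 2` and by `P ^ 4 * M * p * U`).
-/

namespace Pool.Agent.Lib.MP_634427_lc.Ad

open Pool.Agent.Lib.MP_634427_lc Pool.Agent.Lib.MP_634427_lc.Maj Finset
open scoped BigOperators

section stat

variable {P m p : ℕ}

/-- The statistics of the items of a level for one leaf. -/
private noncomputable def adStat {n : ℕ} (al : Itm P m n → Bool) (a : Itm P m n → Fin p → ℤ)
    (U : ℤ) (T : Fin p → Fin p → ℤ) (e : Itm P m n → Fin p → ℕ) (E : Itm P m n) :
    Option (Fin p ⊕ (Fin p × Fin p)) → ℝ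
  | none => if al E = true then 1 else 0
  | some (.inl r) => if al E = true then
      ((∑ j, lpsi T (e E j) (a E) j r : ℤ) : ℝ) / (p * U) else 0
  | some (.inr q) => if al E = true then
      ((∑ j, lpsi T (e E j) (a E) j q.1 * lpsi T (e E j) (a E) j q.2 : ℤ) : ℝ) /
        (p * (U : ℝ) ^ 2) else 0

private theorem adStat_none {n : ℕ} (al : Itm P m n → Bool) (a : Itm P m n → Fin p → ℤ)
    (U : ℤ) (T : Fin p → Fin p → ℤ) (e : Itm P m n → Fin p → ℕ) (E : Itm P m n) :
    adStat al a U T e E none = if al E = true then 1 else 0 := rfl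

private theorem adStat_inl {n : ℕ} (al : Itm P m n → Bool) (a : Itm P m n → Fin p → ℤ)
    (U : ℤ) (T : Fin p → Fin p → ℤ) (e : Itm P m n → Fin p → ℕ) (E : Itm P m n) (r : Fin p) :
    adStat al a U T e E (some (.inl r)) = if al E = true then
      ((∑ j, lpsi T (e E j) (a E) j r : ℤ) : ℝ) / (p * U) else 0 := rfl

private theorem adStat_inr {n : ℕ} (al : Itm P m n → Bool) (a : Itm P m n → Fin p → ℤ)
    (U : ℤ) (T : Fin p → Fin p → ℤ) (e : Itm P m n → Fin p → ℕ) (E : Itm P m n)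
    (q : Fin p × Fin p) :
    adStat al a U T e E (some (.inr q)) = if al E = true then
      ((∑ j, lpsi T (e E j) (a E) j q.1 * lpsi T (e E j) (a E) j q.2 : ℤ) : ℝ) /
        (p * (U : ℝ) ^ 2) else 0 := rfl

/-- The statistics of all levels. -/
private noncomputable def adPhi {N : ℕ} {β : Type} (al : ∀ n, Fin N → Itm P m n → Bool)
    (a : ∀ n, Fin N → Itm P m n → Fin p → ℤ) (st : ∀ n, Itm P m n → β → ℝ) (U : ℤ)
    (T : ℕ → Fin N → Fin p → Fin p → ℤ) (e : ∀ n, Fin N → Itm P m (n + 1) → Fin p → ℕ) :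
    ∀ n, Itm P m n → β ⊕ (Fin N × Option (Fin p ⊕ (Fin p × Fin p))) → ℝ
  | 0 => fun _ _ => 0
  | n + 1 => fun E x => if n < m + 2 then Sum.elim (st (n + 1) E)
      (fun q => adStat (al (n + 1) q.1) (a (n + 1) q.1) U (T n q.1) (e n q.1) E q.2) x else 0

private theorem ad_jensen (hp : 0 < p) (x : Fin p → ℝ) :
    ((∑ j, x j) / p) ^ 2 ≤ (∑ j, x j ^ 2) / p := by
  have hp' : (0 : ℝ) < p := by exact_mod_cast hp
  have h1 := sq_sum_le_card_mul_sum_sq (s := (univ : Finset (Fin p))) (f := x)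
  rw [Finset.card_univ, Fintype.card_fin] at h1
  rw [div_pow, div_le_div_iff₀ (by positivity) hp']
  nlinarith

private theorem ad_bound (hp : 0 < p) (y : Fin p → Fin p → ℝ)
    (hy : ∀ j, ∑ r, y j r ^ 2 ≤ 9 * (p : ℝ) ^ 2) :
    ∑ r, ((∑ j, y j r) / p) ^ 2 + ∑ q : Fin p × Fin p, ((∑ j, y j q.1 * y j q.2) / p) ^ 2 ≤
      100 * (p : ℝ) ^ 4 := by
  have hp' : (0 : ℝ) < p := by exact_mod_cast hp
  have hp1 : (1 : ℝ) ≤ p := by exact_mod_cast hp
  have h1 : ∑ r, ((∑ j, y j r) / p) ^ 2 ≤ 9 * (p : ℝ) ^ 2 := by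
    calc ∑ r, ((∑ j, y j r) / p) ^ 2 ≤ ∑ r, (∑ j, y j r ^ 2) / p :=
          Finset.sum_le_sum fun r _ => ad_jensen hp fun j => y j r
      _ = (∑ j, ∑ r, y j r ^ 2) / p := by rw [← Finset.sum_div, Finset.sum_comm]
      _ ≤ (∑ _j : Fin p, 9 * (p : ℝ) ^ 2) / p :=
          div_le_div_of_nonneg_right (Finset.sum_le_sum fun j _ => hy j) hp'.le
      _ = 9 * (p : ℝ) ^ 2 := by
          rw [Finset.sum_const, Finset.card_univ, Fintype.card_fin, nsmul_eq_mul]
          field_simp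
  have h2 : ∑ q : Fin p × Fin p, ((∑ j, y j q.1 * y j q.2) / p) ^ 2 ≤
      (9 * (p : ℝ) ^ 2) ^ 2 := by
    calc ∑ q : Fin p × Fin p, ((∑ j, y j q.1 * y j q.2) / p) ^ 2 ≤
          ∑ q : Fin p × Fin p, (∑ j, (y j q.1 * y j q.2) ^ 2) / p :=
          Finset.sum_le_sum fun q _ => ad_jensen hp fun j => y j q.1 * y j q.2
      _ = (∑ j, (∑ r, y j r ^ 2) ^ 2) / p := by
          rw [← Finset.sum_div, Finset.sum_comm]
          congr 1
          refine Finset.sum_congr rfl fun j _ => ?_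
          rw [pow_two (∑ r, y j r ^ 2), Finset.sum_mul_sum, ← Finset.univ_product_univ,
            Finset.sum_product]
          refine Finset.sum_congr rfl fun r _ => Finset.sum_congr rfl fun s _ => ?_
          ring
      _ ≤ (∑ _j : Fin p, (9 * (p : ℝ) ^ 2) ^ 2) / p :=
          div_le_div_of_nonneg_right (Finset.sum_le_sum fun j _ =>
            pow_le_pow_left₀ (Finset.sum_nonneg fun r _ => sq_nonneg _) (hy j) 2) hp'.le
      _ = (9 * (p : ℝ) ^ 2) ^ 2 := by
          rw [Finset.sum_const, Finset.card_univ, Fintype.card_fin, nsmul_eq_mul]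
          field_simp
  have h3 : (p : ℝ) ^ 2 ≤ (p : ℝ) ^ 4 := pow_le_pow_right₀ hp1 (by norm_num)
  nlinarith

private theorem adStat_bound (hp : 0 < p) {n : ℕ} (al : Itm P m n → Bool)
    (a : Itm P m n → Fin p → ℤ) {U : ℤ}
    (hU : 0 < U) (T : Fin p → Fin p → ℤ) (e : Itm P m n → Fin p → ℕ) (E : Itm P m n)
    (h : al E = true → ∀ j, ∑ r, lpsi T (e E j) (a E) j r ^ 2 ≤ 9 * (p : ℤ) ^ 2 * U ^ 2) :
    ∑ b, adStat al a U T e E b ^ 2 ≤ 200 * (p : ℝ) ^ 4 := by
  have hp' : (0 : ℝ) < p := by exact_mod_cast hp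
  have hp1 : (1 : ℝ) ≤ (p : ℝ) ^ 4 := one_le_pow₀ (by exact_mod_cast hp)
  have hU' : (0 : ℝ) < U := by exact_mod_cast hU
  by_cases hal : al E = true
  · have h1 := ad_bound hp (fun j r => (lpsi T (e E j) (a E) j r : ℝ) / U) fun j => by
      have h2 : ((∑ r, lpsi T (e E j) (a E) j r ^ 2 : ℤ) : ℝ) ≤
          ((9 * (p : ℤ) ^ 2 * U ^ 2 : ℤ) : ℝ) := Int.cast_le.2 (h hal j)
      push_cast at h2
      simp only [div_pow]
      rw [← Finset.sum_div, div_le_iff₀ (by positivity)]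
      exact h2
    rw [Fintype.sum_option, Fintype.sum_sum_type]
    have h2 : adStat al a U T e E none ^ 2 = 1 := by
      rw [adStat_none, if_pos hal, one_pow]
    have h3 : ∑ r : Fin p, adStat al a U T e E (some (.inl r)) ^ 2 +
        ∑ q : Fin p × Fin p, adStat al a U T e E (some (.inr q)) ^ 2 ≤ 100 * (p : ℝ) ^ 4 := by
      refine le_trans (le_of_eq ?_) h1
      congr 1
      · refine Finset.sum_congr rfl fun r _ => ?_
        congr 1
        rw [adStat_inl, if_pos hal]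
        push_cast
        rw [← Finset.sum_div]
        field_simp
      · refine Finset.sum_congr rfl fun q _ => ?_
        congr 1
        rw [adStat_inr, if_pos hal]
        push_cast
        have h3 : ∀ j, (lpsi T (e E j) (a E) j q.1 : ℝ) / U *
            ((lpsi T (e E j) (a E) j q.2 : ℝ) / U) =
            (lpsi T (e E j) (a E) j q.1 : ℝ) * (lpsi T (e E j) (a E) j q.2 : ℝ) /
              (U : ℝ) ^ 2 := by
          intro j
          field_simp
        simp only [h3]
        rw [← Finset.sum_div]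
        field_simp
    rw [h2]
    linarith
  · have h0 : ∀ b, adStat al a U T e E b = 0 := by
      intro b
      rcases b with _ | b | b
      · rw [adStat_none, if_neg hal]
      · rw [adStat_inl, if_neg hal]
      · rw [adStat_inr, if_neg hal]
    simp only [h0]
    simp only [ne_eq, OfNat.ofNat_ne_zero, not_false_eq_true, zero_pow, Finset.sum_const_zero]
    positivity

private theorem ad_sumK {n : ℕ} [NeZero P] (al : Itm P m (n + 1) → Bool) (D : Itm P m n)
    (π : Par P m n) (g : Itm P m (n + 1) → ℝ) :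
    ∑ s : Seed P, ∑ x : ZMod P, (if al (kid D π s x) = true then g (kid D π s x) else 0) =
      ∑ q ∈ aliveK al D π, g (kid D π q.1 q.2) := by
  unfold aliveK
  rw [Finset.sum_filter]
  exact (Fintype.sum_prod_type (fun q : Seed P × ZMod P =>
    if al (kid D π q.1 q.2) = true then g (kid D π q.1 q.2) else 0)).symm

private theorem ad_sumY {n M : ℕ} (al : Itm P m n → Bool) (Y : Fin M → Itm P m n)
    (g : Itm P m n → ℝ) :
    ∑ l, (if al (Y l) = true then g (Y l) else 0) = ∑ l ∈ aliveY al Y, g (Y l) := by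
  unfold aliveY
  rw [Finset.sum_filter]

/-- Second check: the computation. -/
private theorem ad_c2 {p P4 N K ax α : ℝ} {S G : ℝ} {U : ℝ} {t A Γ δ : ℝ} (hp : 1 ≤ p)
    (hU : 0 < U) (hP : 0 < P4) (hN : 0 < N) (hΓ : 0 < Γ) (hα : 1 ≤ Γ * α) (hδ : 0 ≤ δ)
    (hδ' : 512 * p ^ 3 * Γ * δ ≤ 1) (ht0 : 0 ≤ t) (ht1 : t ≤ 1)
    (hax : ax = K / P4) (hαA : α = A / N)
    (h1 : |ax - α| ≤ δ / 2)
    (h2 : |S / (p * U ^ 2) / P4 - G / (p * U ^ 2) / N| ≤ δ / 2)
    (h3 : 8 * p * |G - t * (A * p * U ^ 2)| ≤ A * p * U ^ 2) :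
    |2 * p * S - t * (2 * p * (K * p * U ^ 2))| ≤ K * p * U ^ 2 := by
  have hp0 : 0 < p := by linarith
  have h4 : 8 * p * |G / (p * U ^ 2) / N - t * α| ≤ α := by
    have h5 : G / (p * U ^ 2) / N - t * α = (G - t * (A * p * U ^ 2)) / (p * U ^ 2 * N) := by
      rw [hαA]
      field_simp
    rw [h5, abs_div, abs_of_pos (show 0 < p * U ^ 2 * N by positivity), ← mul_div_assoc, hαA,
      div_le_div_iff₀ (by positivity) hN]
    nlinarith
  have h6 := rel2 hp hΓ hα hδ hδ' ht0 ht1 (h1.trans (by linarith)) (h2.trans (by linarith)) h4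
  have h7 : 2 * p * S - t * (2 * p * (K * p * U ^ 2)) =
      2 * p * (S / (p * U ^ 2) / P4 - t * ax) * (p * U ^ 2 * P4) := by
    rw [hax]
    field_simp
  have h8 : K * p * U ^ 2 = ax * (p * U ^ 2 * P4) := by
    rw [hax]
    field_simp
  rw [h7, h8, abs_mul, abs_mul, abs_of_pos (show 0 < p * U ^ 2 * P4 by positivity),
    abs_of_pos (show 0 < 2 * p by linarith)]
  exact mul_le_mul_of_nonneg_right h6 (by positivity)

/-- Third check: the computation. -/
private theorem ad_c3 {p P4 N K ax az α M L : ℝ} {S R G : ℝ} {U : ℝ} {A Γ δ : ℝ} (hp : 1 ≤ p)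
    (hU : 0 < U) (hP : 0 < P4) (hN : 0 < N) (hM : 0 < M) (hΓ : 0 < Γ) (hα : 1 ≤ Γ * α)
    (hδ : 0 ≤ δ) (hδ' : 512 * p ^ 3 * Γ * δ ≤ 1)
    (hax : ax = K / P4) (hαA : α = A / N) (haz : az = L / M)
    (h1 : |ax - α| ≤ 1 / 2 * δ) (h2 : |az - α| ≤ 3 / 2 * δ)
    (h3 : |S / (p * U) / P4 - G / (p * U) / N| ≤ 1 / 2 * δ)
    (h4 : |R / (p * U) / M - G / (p * U) / N| ≤ 3 / 2 * δ)
    (h5 : |G| ≤ A * (3 * p ^ 2 * U)) :
    16 * p ^ 2 * |L * S - K * R| ≤ L * K * p * U := by
  have hp0 : 0 < p := by linarith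
  have h6 : |G / (p * U) / N| ≤ 3 * p * α := by
    rw [div_div, abs_div, abs_of_pos (show 0 < p * U * N by positivity), hαA, mul_div_assoc',
      div_le_div_iff₀ (by positivity) hN]
    have h7 := mul_le_mul_of_nonneg_right h5 hN.le
    nlinarith
  have h7 := rel3 hp hΓ hα hδ hδ' h1 h2 h3 h4 h6
  have h8 : L * S - K * R =
      (az * (S / (p * U) / P4) - ax * (R / (p * U) / M)) * (M * p * U * P4) := by
    rw [hax, haz]
    field_simp
  have h9 : L * K * p * U = az * ax * (M * p * U * P4) := by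
    rw [hax, haz]
    field_simp
  rw [h8, h9, abs_mul, abs_of_pos (show 0 < M * p * U * P4 by positivity), ← mul_assoc]
  exact mul_le_mul_of_nonneg_right h7 (by positivity)

end stat

/-- Existence of the certificate of the adaptive version, in the language of items. -/
theorem ad_exist {P m p b c N : ℕ} [Fact P.Prime] (hp : 0 < p)
    (al : ∀ n, Fin N → Itm P m n → Bool) (a : ∀ n, Fin N → Itm P m n → Fin p → ℤ)
    (ha : ∀ n ≤ m + 2, ∀ i D k, |a n i D k| ≤ 2 ^ b) (hc : ∀ n ≤ m + 2, Fintype.card (Itm P m n) ≤ 2 ^ c)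
    (Γ : ℕ) (hΓ : ∀ n ≤ m + 2, ∀ i, Fintype.card (Itm P m n) ≤
      Γ * (univ.filter fun D => al n i D = true).card)
    {β : Type} (B : Finset β) (st : ∀ n, Itm P m n → β → ℝ) (Q : ℕ) (hQ : 1 ≤ Q)
    (hst : ∀ n ≤ m + 2, ∀ D, ∑ b ∈ B, st n D b ^ 2 ≤ Q)
    (R : ℕ) (hR0 : 0 < R) (hR : 512 * p ^ 3 * Γ ≤ R) (M : ℕ) (hM0 : 0 < M)
    (hM : 16 * (Q + N * (200 * p ^ 4)) ^ 2 * R ^ 2 ≤ M)
    (hP : 4 * M * (36 * (Q + N * (200 * p ^ 4)) ^ 2 * R ^ 2 + 1) ≤ P) :
    ∃ (Y : ∀ n, Fin M → Itm P m n) (π : ∀ n, Fin M → Par P m n)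
      (T : ℕ → Fin N → Fin p → Fin p → ℤ)
      (ec : ℕ → Fin N → Fin M → Seed P × ZMod P → Fin p → ℕ)
      (ey : ℕ → Fin N → Fin M → Fin p → ℕ),
      (∀ n < m + 2, ∀ i, (∀ r s, |T n i r s| ≤ 2 ^ (ltK p b c + ltL p b)) ∧
        (∀ l j, ey n i l j ≤ ltK p b c) ∧
        (∀ l ∈ aliveY (al (n + 1) i) (Y (n + 1)), ∀ j,
          ∑ r, lpsi (T n i) (ey n i l j) (a (n + 1) i (Y (n + 1) l)) j r ^ 2 ≤
            9 * (p : ℤ) ^ 2 * (2 ^ (ltK p b c + ltL p b)) ^ 2) ∧
        ∀ k, (∀ q j, ec n i k q j ≤ ltK p b c) ∧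
          (∀ q ∈ aliveK (al (n + 1) i) (Y n k) (π n k), ∀ j,
            ∑ r, lpsi (T n i) (ec n i k q j)
              (a (n + 1) i (kid (Y n k) (π n k) q.1 q.2)) j r ^ 2 ≤
                9 * (p : ℤ) ^ 2 * (2 ^ (ltK p b c + ltL p b)) ^ 2) ∧
          (∀ r r', |2 * (p : ℤ) * (∑ q ∈ aliveK (al (n + 1) i) (Y n k) (π n k), ∑ j,
              lpsi (T n i) (ec n i k q j) (a (n + 1) i (kid (Y n k) (π n k) q.1 q.2)) j r *
              lpsi (T n i) (ec n i k q j) (a (n + 1) i (kid (Y n k) (π n k) q.1 q.2)) j r') -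
            (if r = r' then 2 * (p : ℤ) * (((aliveK (al (n + 1) i) (Y n k) (π n k)).card : ℤ) *
              p * (2 ^ (ltK p b c + ltL p b)) ^ 2) else 0)| ≤
                ((aliveK (al (n + 1) i) (Y n k) (π n k)).card : ℤ) * p *
                  (2 ^ (ltK p b c + ltL p b)) ^ 2) ∧
          ∀ r, 16 * (p : ℤ) ^ 2 * |((aliveY (al (n + 1) i) (Y (n + 1))).card : ℤ) *
              (∑ q ∈ aliveK (al (n + 1) i) (Y n k) (π n k), ∑ j,
                lpsi (T n i) (ec n i k q j) (a (n + 1) i (kid (Y n k) (π n k) q.1 q.2)) j r) -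
            ((aliveK (al (n + 1) i) (Y n k) (π n k)).card : ℤ) *
              ∑ l ∈ aliveY (al (n + 1) i) (Y (n + 1)), ∑ j,
                lpsi (T n i) (ey n i l j) (a (n + 1) i (Y (n + 1) l)) j r| ≤
            ((aliveY (al (n + 1) i) (Y (n + 1))).card : ℤ) *
              (aliveK (al (n + 1) i) (Y n k) (π n k)).card * p * 2 ^ (ltK p b c + ltL p b)) ∧
      (∀ n < m + 2, ∀ i, |((aliveY (al (n + 1) i) (Y (n + 1))).card : ℝ) / M -
        ((univ.filter fun D => al (n + 1) i D = true).card : ℝ) /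
          Fintype.card (Itm P m (n + 1))| ≤ 3 / 2 / R) ∧
      (∀ n < m + 2, ∀ i k, |((aliveK (al (n + 1) i) (Y n k) (π n k)).card : ℝ) / (P : ℝ) ^ 4 -
        ((univ.filter fun D => al (n + 1) i D = true).card : ℝ) /
          Fintype.card (Itm P m (n + 1))| ≤ 1 / 2 / R) ∧
      (∀ n < m + 2, ∀ k, ∀ b ∈ B, |loc (st (n + 1)) (Y n k) (π n k) b -
        (∑ E : Itm P m (n + 1), st (n + 1) E b) / Fintype.card (Itm P m (n + 1))| ≤ 1 / 2 / R) ∧
      (∀ n < m + 2, ∀ b ∈ B, |(∑ l, st (n + 1) (Y (n + 1) l) b) / M -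
        (∑ E : Itm P m (n + 1), st (n + 1) E b) / Fintype.card (Itm P m (n + 1))| ≤ 3 / 2 / R) ∧
      ∀ k, ∃ y : Fin (m + 2) → ZMod P,
        ∑ i, y i • Y (m + 2) k i = ((0 : Fin m → ZMod P), (1 : ZMod P)) := by
  classical
  have hPp : (0 : ℝ) < P := by
    exact_mod_cast (Fact.out : P.Prime).pos
  have hP4 : (0 : ℝ) < (P : ℝ) ^ 4 := by positivity
  have hp' : (0 : ℝ) < p := by exact_mod_cast hp
  have hp1 : (1 : ℝ) ≤ p := by exact_mod_cast hp
  have hMp : (0 : ℝ) < M := by exact_mod_cast hM0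
  have hRp : (0 : ℝ) < R := by exact_mod_cast hR0
  set U : ℤ := 2 ^ (ltK p b c + ltL p b) with hUdef
  have hU : 0 < U := by positivity
  have hU' : (0 : ℝ) < U := by exact_mod_cast hU
  have hne : ∀ n ≤ m + 2, ∀ i, ∃ D, al n i D = true := by
    intro n hn i
    by_contra hcon
    push Not at hcon
    have h1 : (univ.filter fun D => al n i D = true) = ∅ :=
      Finset.filter_eq_empty_iff.2 fun D _ => hcon D
    have h2 := hΓ n hn i
    rw [h1, Finset.card_empty, Nat.mul_zero] at h2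
    have h3 : 0 < Fintype.card (Itm P m n) := Fintype.card_pos
    omega
  -- isotropic position on every level
  have hiso : ∀ n (i : Fin N), ∃ (e : Itm P m (n + 1) → Fin p → ℕ) (T : Fin p → Fin p → ℤ),
      (n < m + 2 → ∀ g, al (n + 1) i g = true → ∀ j,
        ∑ r, lpsi T (e g j) (a (n + 1) i g) j r ^ 2 ≤ 9 * (p : ℤ) ^ 2 * U ^ 2) ∧
      (n < m + 2 → (∀ g j, e g j ≤ ltK p b c) ∧ (∀ r s, |T r s| ≤ U) ∧
        ∀ r s, 8 * (p : ℤ) * |(∑ g ∈ univ.filter (fun g => al (n + 1) i g = true), ∑ j,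
            lpsi T (e g j) (a (n + 1) i g) j r * lpsi T (e g j) (a (n + 1) i g) j s) -
          (if r = s then ((univ.filter fun g => al (n + 1) i g = true).card : ℤ) * p *
            U ^ 2 else 0)| ≤
            ((univ.filter fun g => al (n + 1) i g = true).card : ℤ) * p * U ^ 2) := by
    intro n i
    by_cases hn : n < m + 2
    · obtain ⟨e, T, h1, h2, h3, h4⟩ := iso_alive hp (al (n + 1) i) (hne (n + 1) hn i)
        (a (n + 1) i) (ha (n + 1) hn i) (hc (n + 1) hn)
      exact ⟨e, T, fun _ => h3, fun _ => ⟨h1, h2, h4⟩⟩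
    · exact ⟨fun _ _ => 0, fun _ _ => 0, fun h => absurd h hn, fun h => absurd h hn⟩
  choose e T hb hiso using hiso
  set δ : ℝ := 1 / (R : ℝ) with hδ
  have hδ0 : 0 < δ := by positivity
  set W : ℝ := (Q : ℝ) + N * (200 * (p : ℝ) ^ 4) with hW
  have hQ' : (1 : ℝ) ≤ Q := by exact_mod_cast hQ
  have hW1 : 1 ≤ W := by
    have : (0 : ℝ) ≤ N * (200 * (p : ℝ) ^ 4) := by positivity
    rw [hW]
    linarith
  set Bs : Finset (β ⊕ (Fin N × Option (Fin p ⊕ (Fin p × Fin p)))) := B.disjSum univ with hBs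
  set Φ := adPhi al a st U T e with hΦ
  have hΦs : ∀ n, n < m + 2 → ∀ E b, Φ (n + 1) E (Sum.inl b) = st (n + 1) E b := by
    intro n hn E b
    rw [hΦ]
    exact if_pos hn
  have hΦr : ∀ n, n < m + 2 → ∀ E i o, Φ (n + 1) E (Sum.inr (i, o)) =
      adStat (al (n + 1) i) (a (n + 1) i) U (T n i) (e n i) E o := by
    intro n hn E i o
    rw [hΦ]
    exact if_pos hn
  have hφ : ∀ n D, ∑ b ∈ Bs, Φ n D b ^ 2 ≤ W ^ 2 := by
    intro n D
    cases n with
    | zero =>
      have h0 : ∀ b, Φ 0 D b = 0 := fun b => rfl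
      simp only [h0]
      simp only [ne_eq, OfNat.ofNat_ne_zero, not_false_eq_true, zero_pow, Finset.sum_const_zero]
      positivity
    | succ n =>
      by_cases hn : n < m + 2
      · rw [hBs, Finset.sum_disjSum]
        have h1 : ∑ x ∈ B, Φ (n + 1) D (Sum.inl x) ^ 2 ≤ Q := by
          refine le_trans (le_of_eq ?_) (hst (n + 1) hn D)
          exact Finset.sum_congr rfl fun x _ => by rw [hΦs n hn]
        have h2 : ∑ x : Fin N × Option (Fin p ⊕ (Fin p × Fin p)),
            Φ (n + 1) D (Sum.inr x) ^ 2 ≤ N * (200 * (p : ℝ) ^ 4) := by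
          rw [Fintype.sum_prod_type]
          calc ∑ i : Fin N, ∑ o, Φ (n + 1) D (Sum.inr (i, o)) ^ 2
              ≤ ∑ _i : Fin N, 200 * (p : ℝ) ^ 4 := by
                refine Finset.sum_le_sum fun i _ => ?_
                refine le_trans (le_of_eq ?_) (adStat_bound hp (al (n + 1) i) (a (n + 1) i) hU
                  (T n i) (e n i) D (hb n i hn D))
                exact Finset.sum_congr rfl fun o _ => by rw [hΦr n hn]
            _ = N * (200 * (p : ℝ) ^ 4) := by
                rw [Finset.sum_const, Finset.card_univ, Fintype.card_fin, nsmul_eq_mul]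
        calc _ ≤ W := by rw [hW]; exact add_le_add h1 h2
          _ ≤ W ^ 2 := by nlinarith
      · have h0 : ∀ b, Φ (n + 1) D b = 0 := fun b => by
          rw [hΦ]
          exact if_neg hn
        simp only [h0]
        simp only [ne_eq, OfNat.ofNat_ne_zero, not_false_eq_true, zero_pow,
          Finset.sum_const_zero]
        positivity
  have hM' : 16 * W ^ 2 / δ ^ 2 ≤ M := by
    have h1 : 16 * W ^ 2 / δ ^ 2 = 16 * W ^ 2 * (R : ℝ) ^ 2 := by
      rw [hδ]
      field_simp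
    rw [h1, hW]
    exact_mod_cast hM
  have hP' : 4 * M * (36 * W ^ 2 / δ ^ 2 + 1) ≤ P := by
    have h1 : 36 * W ^ 2 / δ ^ 2 = 36 * W ^ 2 * (R : ℝ) ^ 2 := by
      rw [hδ]
      field_simp
    rw [h1, hW]
    exact_mod_cast hP
  obtain ⟨Y, π, hY, hE, hy⟩ := exist_lists_mean (P := P) (m := m) Bs Φ W δ M hφ hδ0 hM0 hM' hP'
  have hE' : ∀ n < m + 2, ∀ k, ∀ x ∈ Bs, |loc (Φ (n + 1)) (Y n k) (π n k) x -
      (∑ E : Itm P m (n + 1), Φ (n + 1) E x) / Fintype.card (Itm P m (n + 1))| ≤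
        1 / 2 * δ := by
    intro n hn k x hx
    have h1 := hE n hn k x hx
    rw [Fintype.expect_eq_sum_div_card] at h1
    linarith
  have hZ' : ∀ n < m + 2, ∀ x ∈ Bs, |(∑ l, Φ (n + 1) (Y (n + 1) l) x) / M -
      (∑ E : Itm P m (n + 1), Φ (n + 1) E x) / Fintype.card (Itm P m (n + 1))| ≤
        3 / 2 * δ := by
    intro n hn x hx
    have h1 := hE' n hn ⟨0, hM0⟩ x hx
    have h2 := hY n hn ⟨0, hM0⟩ x hx
    rw [abs_le] at h1 h2 ⊢
    constructor
    · linarith [h1.1, h2.2]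
    · linarith [h1.2, h2.1]
  have hBr : ∀ x, Sum.inr x ∈ Bs := fun x => by
    rw [hBs, Finset.inr_mem_disjSum]
    exact Finset.mem_univ _
  -- the relative sizes
  have hN : ∀ n, (0 : ℝ) < Fintype.card (Itm P m n) := fun n => by
    exact_mod_cast Fintype.card_pos
  have hsumE : ∀ n, n < m + 2 → ∀ i (g : Itm P m (n + 1) → ℝ),
      (∑ E : Itm P m (n + 1), if al (n + 1) i E = true then g E else 0) =
        ∑ E ∈ univ.filter (fun D => al (n + 1) i D = true), g E := by
    intro n hn i g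
    rw [Finset.sum_filter]
  have hloc : ∀ n k (x : β ⊕ (Fin N × Option (Fin p ⊕ (Fin p × Fin p)))),
      loc (Φ (n + 1)) (Y n k) (π n k) x = (∑ s : Seed P, ∑ c : ZMod P,
        Φ (n + 1) (kid (Y n k) (π n k) s c) x) / (P : ℝ) ^ 4 := fun _ _ _ => rfl
  -- sizes
  have hK0 : ∀ n < m + 2, ∀ i k, |((aliveK (al (n + 1) i) (Y n k) (π n k)).card : ℝ) /
      (P : ℝ) ^ 4 - ((univ.filter fun D => al (n + 1) i D = true).card : ℝ) /
          Fintype.card (Itm P m (n + 1))| ≤ 1 / 2 * δ := by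
    intro n hn i k
    have h1 := hE' n hn k (Sum.inr (i, none)) (hBr _)
    rw [hloc] at h1
    simp only [hΦr n hn, adStat_none] at h1
    rw [ad_sumK _ _ _ (fun _ => (1 : ℝ)), hsumE n hn i (fun _ => (1 : ℝ))] at h1
    simpa using h1
  have hL0 : ∀ n < m + 2, ∀ i, |((aliveY (al (n + 1) i) (Y (n + 1))).card : ℝ) / M -
      ((univ.filter fun D => al (n + 1) i D = true).card : ℝ) /
          Fintype.card (Itm P m (n + 1))| ≤ 3 / 2 * δ := by
    intro n hn i
    have h1 := hZ' n hn (Sum.inr (i, none)) (hBr _)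
    simp only [hΦr n hn, adStat_none] at h1
    rw [ad_sumY _ _ (fun _ => (1 : ℝ)), hsumE n hn i (fun _ => (1 : ℝ))] at h1
    simpa using h1
  have hd2 : 1 / 2 * δ = 1 / 2 / (R : ℝ) := by rw [hδ]; ring
  have hd3 : 3 / 2 * δ = 3 / 2 / (R : ℝ) := by rw [hδ]; ring
  refine ⟨Y, π, T, fun n i k q j => e n i (kid (Y n k) (π n k) q.1 q.2) j,
    fun n i l j => e n i (Y (n + 1) l) j, fun n hn i => ?_, fun n hn i => ?_, fun n hn i k => ?_,
    fun n hn k b hbB => ?_, fun n hn b hbB => ?_, hy⟩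
  · obtain ⟨h1, h2, h3⟩ := hiso n i hn
    -- the constants for the leaf `i`
    have hΓn := hΓ (n + 1) hn i
    have hΓ1 : 0 < Γ := by
      rcases Nat.eq_zero_or_pos Γ with h0 | h0
      · rw [h0, Nat.zero_mul] at hΓn
        have : 0 < Fintype.card (Itm P m (n + 1)) := Fintype.card_pos
        omega
      · exact h0
    have hΓr : (0 : ℝ) < Γ := by exact_mod_cast hΓ1
    have hα : (1 : ℝ) ≤ Γ * (((univ.filter fun D => al (n + 1) i D = true).card : ℝ) /
          Fintype.card (Itm P m (n + 1))) := by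
      rw [← mul_div_assoc, le_div_iff₀ (hN _), one_mul]
      exact_mod_cast hΓn
    have hδ' : 512 * (p : ℝ) ^ 3 * Γ * δ ≤ 1 := by
      rw [hδ, mul_one_div, div_le_one hRp]
      exact_mod_cast hR
    refine ⟨h2, fun l j => h1 _ _, fun l hl j => ?_, fun k => ⟨fun q j => h1 _ _,
      fun q hq j => ?_, fun r r' => ?_, fun r => ?_⟩⟩
    · unfold aliveY at hl
      exact hb n i hn _ (Finset.mem_filter.1 hl).2 j
    · unfold aliveK at hq
      exact hb n i hn _ (Finset.mem_filter.1 hq).2 j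
    · -- second moments
      have h4 := hE' n hn k (Sum.inr (i, some (.inr (r, r')))) (hBr _)
      rw [hloc] at h4
      simp only [hΦr n hn, adStat_inr] at h4
      rw [ad_sumK _ _ _ (fun E => ((∑ j, lpsi (T n i) (e n i E j) (a (n + 1) i E) j r *
          lpsi (T n i) (e n i E j) (a (n + 1) i E) j r' : ℤ) : ℝ) / (p * (U : ℝ) ^ 2)),
        hsumE n hn i (fun E => ((∑ j, lpsi (T n i) (e n i E j) (a (n + 1) i E) j r *
          lpsi (T n i) (e n i E j) (a (n + 1) i E) j r' : ℤ) : ℝ) / (p * (U : ℝ) ^ 2)),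
        ← Finset.sum_div, ← Finset.sum_div, ← Int.cast_sum, ← Int.cast_sum] at h4
      have h5 := h3 r r'
      set S : ℤ := ∑ q ∈ aliveK (al (n + 1) i) (Y n k) (π n k), ∑ j,
        lpsi (T n i) (e n i (kid (Y n k) (π n k) q.1 q.2) j)
          (a (n + 1) i (kid (Y n k) (π n k) q.1 q.2)) j r *
        lpsi (T n i) (e n i (kid (Y n k) (π n k) q.1 q.2) j)
          (a (n + 1) i (kid (Y n k) (π n k) q.1 q.2)) j r' with hS
      set G : ℤ := ∑ g ∈ univ.filter (fun g => al (n + 1) i g = true), ∑ j,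
        lpsi (T n i) (e n i g j) (a (n + 1) i g) j r *
          lpsi (T n i) (e n i g j) (a (n + 1) i g) j r' with hG
      have h6 := ad_c2 (p := (p : ℝ)) (P4 := (P : ℝ) ^ 4)
        (N := (Fintype.card (Itm P m (n + 1)) : ℝ))
        (K := ((aliveK (al (n + 1) i) (Y n k) (π n k)).card : ℝ))
        (S := (S : ℝ)) (G := (G : ℝ)) (U := (U : ℝ)) (t := if r = r' then 1 else 0)
        (A := ((univ.filter fun D => al (n + 1) i D = true).card : ℝ)) (Γ := (Γ : ℝ)) (δ := δ)
        hp1 hU' hP4 (hN _) hΓr hα hδ0.le hδ' (by split_ifs <;> norm_num)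
        (by split_ifs <;> norm_num) rfl rfl ((hK0 n hn i k).trans (by linarith))
        (h4.trans (by linarith)) (by
          have h7 : (8 : ℝ) * p * |(G : ℝ) - (if r = r' then
              ((univ.filter fun g => al (n + 1) i g = true).card : ℝ) * p * (U : ℝ) ^ 2
                else 0)| ≤
              ((univ.filter fun g => al (n + 1) i g = true).card : ℝ) * p * (U : ℝ) ^ 2 := by
            exact_mod_cast h5
          have h8 : (if r = r' then (1 : ℝ) else 0) *
              (((univ.filter fun D => al (n + 1) i D = true).card : ℝ) * p * (U : ℝ) ^ 2) =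
              (if r = r' then
              ((univ.filter fun g => al (n + 1) i g = true).card : ℝ) * p * (U : ℝ) ^ 2
                else 0) := by
            split_ifs
            · rw [one_mul]
            · rw [zero_mul]
          rw [h8]
          exact h7)
      have h9 : (if r = r' then (1 : ℝ) else 0) *
          (2 * (p : ℝ) * (((aliveK (al (n + 1) i) (Y n k) (π n k)).card : ℝ) * p *
            (U : ℝ) ^ 2)) = (if r = r' then
          (2 * (p : ℝ) * (((aliveK (al (n + 1) i) (Y n k) (π n k)).card : ℝ) * p *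
            (U : ℝ) ^ 2)) else 0) := by
        split_ifs
        · rw [one_mul]
        · rw [zero_mul]
      rw [h9] at h6
      exact_mod_cast h6
    · -- closeness to the next list
      have h4 := hE' n hn k (Sum.inr (i, some (.inl r))) (hBr _)
      have h5 := hZ' n hn (Sum.inr (i, some (.inl r))) (hBr _)
      rw [hloc] at h4
      simp only [hΦr n hn, adStat_inl] at h4 h5
      rw [ad_sumK _ _ _ (fun E => ((∑ j, lpsi (T n i) (e n i E j) (a (n + 1) i E) j r : ℤ) : ℝ) /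
          (p * (U : ℝ))),
        hsumE n hn i (fun E => ((∑ j, lpsi (T n i) (e n i E j) (a (n + 1) i E) j r : ℤ) : ℝ) /
          (p * (U : ℝ))),
        ← Finset.sum_div, ← Finset.sum_div, ← Int.cast_sum, ← Int.cast_sum] at h4
      rw [ad_sumY _ _ (fun E => ((∑ j, lpsi (T n i) (e n i E j) (a (n + 1) i E) j r : ℤ) : ℝ) /
          (p * (U : ℝ))),
        hsumE n hn i (fun E => ((∑ j, lpsi (T n i) (e n i E j) (a (n + 1) i E) j r : ℤ) : ℝ) /
          (p * (U : ℝ))),
        ← Finset.sum_div, ← Finset.sum_div, ← Int.cast_sum, ← Int.cast_sum] at h5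
      have hGb : |∑ E ∈ univ.filter (fun D => al (n + 1) i D = true), ∑ j,
          lpsi (T n i) (e n i E j) (a (n + 1) i E) j r| ≤
          ((univ.filter fun D => al (n + 1) i D = true).card : ℤ) *
            (3 * (p : ℤ) ^ 2 * U) := by
        refine (Finset.abs_sum_le_sum_abs _ _).trans ?_
        rw [← nsmul_eq_mul]
        refine Finset.sum_le_card_nsmul _ _ _ fun E hE0 => ?_
        refine (Finset.abs_sum_le_sum_abs _ _).trans ?_
        have h7 : ∀ j, |lpsi (T n i) (e n i E j) (a (n + 1) i E) j r| ≤ 3 * p * U := by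
          intro j
          have h8 := hb n i hn E (Finset.mem_filter.1 hE0).2 j
          have h9 : lpsi (T n i) (e n i E j) (a (n + 1) i E) j r ^ 2 ≤ (3 * p * U) ^ 2 := by
            refine (Finset.single_le_sum (f := fun r =>
              lpsi (T n i) (e n i E j) (a (n + 1) i E) j r ^ 2) (fun r _ => sq_nonneg _)
              (Finset.mem_univ r)).trans (h8.trans (le_of_eq ?_))
            ring
          exact abs_le_of_sq_le_sq h9 (by positivity)
        calc ∑ j, |lpsi (T n i) (e n i E j) (a (n + 1) i E) j r|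
            ≤ ∑ _j : Fin p, 3 * (p : ℤ) * U := Finset.sum_le_sum fun j _ => h7 j
          _ = 3 * (p : ℤ) ^ 2 * U := by
              rw [Finset.sum_const, Finset.card_univ, Fintype.card_fin, nsmul_eq_mul]
              ring
      set S : ℤ := ∑ q ∈ aliveK (al (n + 1) i) (Y n k) (π n k), ∑ j,
        lpsi (T n i) (e n i (kid (Y n k) (π n k) q.1 q.2) j)
          (a (n + 1) i (kid (Y n k) (π n k) q.1 q.2)) j r with hS
      set Rr : ℤ := ∑ l ∈ aliveY (al (n + 1) i) (Y (n + 1)), ∑ j,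
        lpsi (T n i) (e n i (Y (n + 1) l) j) (a (n + 1) i (Y (n + 1) l)) j r with hRr
      set G : ℤ := ∑ E ∈ univ.filter (fun D => al (n + 1) i D = true), ∑ j,
          lpsi (T n i) (e n i E j) (a (n + 1) i E) j r with hG
      have h6 := ad_c3 (p := (p : ℝ)) (P4 := (P : ℝ) ^ 4)
        (N := (Fintype.card (Itm P m (n + 1)) : ℝ))
        (K := ((aliveK (al (n + 1) i) (Y n k) (π n k)).card : ℝ)) (M := (M : ℝ))
        (L := ((aliveY (al (n + 1) i) (Y (n + 1))).card : ℝ))
        (S := (S : ℝ)) (R := (Rr : ℝ)) (G := (G : ℝ)) (U := (U : ℝ))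
        (A := ((univ.filter fun D => al (n + 1) i D = true).card : ℝ)) (Γ := (Γ : ℝ)) (δ := δ)
        hp1 hU' hP4 (hN _) hMp hΓr hα hδ0.le hδ' rfl rfl rfl (hK0 n hn i k) (hL0 n hn i) h4 h5
        (by exact_mod_cast hGb)
      exact_mod_cast h6
  · rw [← hd3]
    exact hL0 n hn i
  · rw [← hd2]
    exact hK0 n hn i k
  · have hbs : Sum.inl b ∈ Bs := by
      rw [hBs, Finset.inl_mem_disjSum]
      exact hbB
    have h1 := hE' n hn k (Sum.inl b) hbs
    rw [hloc] at h1
    simp only [hΦs n hn] at h1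
    rw [← hd2]
    exact h1
  · have hbs : Sum.inl b ∈ Bs := by
      rw [hBs, Finset.inl_mem_disjSum]
      exact hbB
    have h1 := hZ' n hn (Sum.inl b) hbs
    simp only [hΦs n hn] at h1
    rw [← hd3]
    exact h1

end Pool.Agent.Lib.MP_634427_lc.Ad
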