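import Pool.Agent.Lib.MP_634427_lc.Ad.CompleteA
import Pool.Agent.Lib.MP_634427_lc.Ad.CompleteB
import Pool.Agent.Lib.MP_634427_lc.Ad.Count
import Pool.Agent.Lib.MP_634427_lc.Ad.Exist
import Pool.Agent.Lib.MP_634427_lc.Maj.BridgeC
import Pool.Agent.Lib.MP_634427_lc.Maj.SizeNode

/-!
# Completeness of the check of the adaptive version

As `checkW_complete` (Maj/LtChkComplete; its private lemmas on numbers, matrices and exponents as lists
can be copied). Choose the trees `(Ns n, Lv n)` of all levels (`htree`), the scripts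
`sc n i = (Lv n).getD i []` for `i : Fin N` (for `i ≥ (Lv n).length` the empty script, everything is
alive: `hnil`). Apply `ad_exist` with `al n i = alR rv x (P x) (m x) n (sc n i)`,
`a n i = aR rv x (P x) (m x) (p x) n (sc n i)`, `B = univ ×ˢ (range (Ls x) ×ˢ W)` (`W` = the finite set of
all words at which the question of some item of a level `≤ m x + 2` waits at an operation of some
script), `st n D b = stA wt x (P x) (m x) n (sc n b.1) b.2.1 b.2.2 D` for `n ≤ m x + 2`, `Q = N * Ls x + 1`.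
The certificate: level `n` is `((Ns (n + 1), leaves), nodes)`; the leaves are indexed by
`i < (Lv (n + 1)).length`, so that the list of their scripts is `Lv (n + 1)`. `kid_rare`, `list_rare`,
`rareK_of`, `rareL_of`, `length_famAK`, `length_famAL`, `c1K_iff`, `c1L_iff`, `c2K_iff`, `c3K_iff`.
-/

namespace Pool.Agent.Lib.MP_634427_lc.Ad

open Pool.Agent.Lib.MP_634427_lc Pool.Agent.Lib.MP_634427_lc.Maj Finset

/-- Bound for the size of a leaf. -/
def llen (tb p u M P : ℕ) : ℕ :=
  tb + p * (p * (2 * u + 4) + 1) + M * (p * (u + 1) + 1) +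
    M * (P ^ 4 * (p * (u + 1) + 1) + 1) + 3

/-- Bound for the size of a certificate. -/
def alen (tb N p u M P m : ℕ) : ℕ :=
  (m + 3) * (tb + N * (llen tb p u M P + 1) + M * (nlen P m + 1) + 3)

/-- If there is no witness and the parameters are large enough, a certificate passes the check. -/
theorem checkA_complete {rv : (Word × List Op) × Word → Option (List LT.Num)}
    {wt : (Word × (List Op × List Word)) × Word → Option Word}
    {cl : Word × (List TNode × List (List Op)) → Bool} {gap : (Word × (ℕ × ℕ)) × IL → Bool}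
    {m P k0 M p u A0 Bc Ls : Word → ℕ} (x : Word) [Fact (P x).Prime] (hp : 0 < p x)
    (hgap : ∀ D : IL, gap ((x, (P x, k0 x)), D) = true) (b c N Γ R tb : ℕ)
    (hu : u x = ltK (p x) b c + ltL (p x) b)
    (hv : ∀ n ≤ m x + 2, ∀ (D : Itm (P x) (m x) n) σ v,
      rv ((x, σ), quest x (P x) (itmL D)) = some v → ∀ j, |vecZ (p x) v j| ≤ 2 ^ b)
    (hc : ∀ n ≤ m x + 2, Fintype.card (Itm (P x) (m x) n) ≤ 2 ^ c)
    (hnil : ∀ n ≤ m x + 2, ∀ D : Itm (P x) (m x) n,
      (rv ((x, []), quest x (P x) (itmL D))).isSome)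
    (htree : ∀ n ≤ m x + 2, ∃ (Ns : List TNode) (Lv : List (List Op)),
      cl (x, (Ns, Lv)) = true ∧ sz Ns ≤ tb ∧ Lv.length ≤ N ∧ ∀ σ ∈ Lv, sz σ ≤ tb ∧
        σ.length ≤ Ls x ∧ Fintype.card (Itm (P x) (m x) n) ≤
          Γ * (univ.filter fun D => alR rv x (P x) (m x) n σ D = true).card ∧
        ∀ σ' T w, (σ' ++ [opR T]) <+: σ → w ∉ T →
          2 * Bc x * (univ.filter fun D : Itm (P x) (m x) n =>
            wt ((x, (σ', T)), quest x (P x) (itmL D)) = some w).card ≤
            (univ.filter fun D => alR rv x (P x) (m x) n σ D = true).card)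
    (hΓ : 1 ≤ Γ) (hA0 : 2 * Γ ≤ A0 x) (hR0 : 0 < R) (hR1 : 512 * p x ^ 3 * Γ ≤ R)
    (hR2 : 3 * Γ * (Bc x + 1) ≤ R) (hM0 : 0 < M x)
    (hM : 16 * ((N * Ls x + 1) + N * (200 * p x ^ 4)) ^ 2 * R ^ 2 ≤ M x)
    (hP : 4 * M x * (36 * ((N * Ls x + 1) + N * (200 * p x ^ 4)) ^ 2 * R ^ 2 + 1) ≤ P x) :
    ∃ Y : List ALev, sz Y ≤ alen tb N (p x) (u x) (M x) (P x) (m x) ∧
      checkA rv wt cl gap m P k0 M p u A0 Bc Ls (x, Y) = true := by
  -- the trees
  have htree' : ∀ n, ∃ (Ns : List TNode) (Lv : List (List Op)), Lv.length ≤ N ∧ sz Ns ≤ tb ∧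
      (n ≤ m x + 2 → cl (x, (Ns, Lv)) = true ∧ ∀ σ ∈ Lv, sz σ ≤ tb ∧
        σ.length ≤ Ls x ∧ Fintype.card (Itm (P x) (m x) n) ≤
          Γ * (univ.filter fun D => alR rv x (P x) (m x) n σ D = true).card ∧
        ∀ σ' T w, (σ' ++ [opR T]) <+: σ → w ∉ T →
          2 * Bc x * (univ.filter fun D : Itm (P x) (m x) n =>
            wt ((x, (σ', T)), quest x (P x) (itmL D)) = some w).card ≤
            (univ.filter fun D => alR rv x (P x) (m x) n σ D = true).card) := by
    intro n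
    by_cases hn : n ≤ m x + 2
    · obtain ⟨Ns, Lv, h1, h2, h3, h4⟩ := htree n hn
      exact ⟨Ns, Lv, h3, h2, fun _ => ⟨h1, h4⟩⟩
    · exact ⟨[], [], Nat.zero_le _, Nat.zero_le _, fun h => absurd h hn⟩
  choose Ns Lv hLvN hNs hLv using htree'
  obtain ⟨sc, hscd⟩ : ∃ sc : ℕ → Fin N → List Op, sc = fun n i => (Lv n).getD i.val [] :=
    ⟨_, rfl⟩
  have hsc : ∀ n i, sc n i ∈ Lv n ∨ sc n i = [] := by
    intro n i
    rw [hscd]
    by_cases h : i.val < (Lv n).length
    · left
      show (Lv n).getD i.val [] ∈ Lv n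
      rw [List.getD_eq_getElem _ _ h]
      exact List.getElem_mem h
    · right
      exact List.getD_eq_default _ _ (by omega)
  have hgood : ∀ n ≤ m x + 2, ∀ i, sz (sc n i) ≤ tb ∧ (sc n i).length ≤ Ls x ∧
      Fintype.card (Itm (P x) (m x) n) ≤
        Γ * (univ.filter fun D => alR rv x (P x) (m x) n (sc n i) D = true).card ∧
      ∀ σ' T w, (σ' ++ [opR T]) <+: sc n i → w ∉ T →
        2 * Bc x * (univ.filter fun D : Itm (P x) (m x) n =>
          wt ((x, (σ', T)), quest x (P x) (itmL D)) = some w).card ≤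
          (univ.filter fun D => alR rv x (P x) (m x) n (sc n i) D = true).card := by
    intro n hn i
    rcases hsc n i with h | h
    · exact (hLv n hn).2 _ h
    · rw [h]
      refine ⟨Nat.zero_le _, Nat.zero_le _, ?_, fun σ' T w h' => ?_⟩
      · have h1 : (univ.filter fun D => alR rv x (P x) (m x) n [] D = true) = univ :=
          Finset.filter_true_of_mem fun D _ => hnil n hn D
        rw [h1, Finset.card_univ]
        exact Nat.le_mul_of_pos_left _ hΓ
      · exact absurd (List.prefix_nil.1 h') (by simp)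
  -- the words
  obtain ⟨W, hW⟩ : ∃ W : Finset Word, ∀ n ≤ m x + 2, ∀ (i : Fin N) (E : Itm (P x) (m x) n)
      (t : ℕ) (w : Word), stP wt x (P x) (m x) n (sc n i) t w E → w ∈ W := by
    refine ⟨(range (m x + 3)).biUnion fun n => (univ : Finset (Fin N)).biUnion fun i =>
      (univ : Finset (Itm (P x) (m x) n)).biUnion fun E => (range (sc n i).length).image fun t =>
        (wt ((x, ((sc n i).take t, ((sc n i).getD t opY).2.1)), quest x (P x) (itmL E))).getD [],
      fun n hn i E t w h => ?_⟩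
    obtain ⟨h1, -, h3⟩ := h
    refine mem_biUnion.2 ⟨n, mem_range.2 (by omega), mem_biUnion.2 ⟨i, mem_univ _,
      mem_biUnion.2 ⟨E, mem_univ _, mem_image.2 ⟨t, mem_range.2 h1, ?_⟩⟩⟩⟩
    rw [h3]
    rfl
  have ha : ∀ n ≤ m x + 2, ∀ (i : Fin N) (D : Itm (P x) (m x) n) k,
      |aR rv x (P x) (m x) (p x) n (sc n i) D k| ≤ 2 ^ b := by
    intro n hn i D k
    unfold aR
    rcases hr : rv ((x, sc n i), quest x (P x) (itmL D)) with _ | v
    · rw [Option.getD_none, ca_vec0, abs_zero]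
      positivity
    · rw [Option.getD_some]
      exact hv n hn D _ v hr k
  have hst : ∀ n ≤ m x + 2, ∀ D : Itm (P x) (m x) n,
      ∑ b ∈ (univ : Finset (Fin N)) ×ˢ (range (Ls x) ×ˢ W),
        stA wt x (P x) (m x) n (sc n b.1) b.2.1 b.2.2 D ^ 2 ≤ ((N * Ls x + 1 : ℕ) : ℝ) := by
    intro n _ D
    refine (sum_stA_sq_le (sc n) W D).trans ?_
    exact_mod_cast Nat.le_succ _
  obtain ⟨Y, π, T, ec, ey, h1, h2, h3, h4, h5, h6⟩ := ad_exist (b := b) (c := c) hp
    (fun n i => alR rv x (P x) (m x) n (sc n i))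
    (fun n i => aR rv x (P x) (m x) (p x) n (sc n i)) ha hc Γ
    (fun n hn i => (hgood n hn i).2.2.1)
    ((univ : Finset (Fin N)) ×ˢ (range (Ls x) ×ˢ W))
    (fun n D b => stA wt x (P x) (m x) n (sc n b.1) b.2.1 b.2.2 D) (N * Ls x + 1)
    (Nat.succ_pos _) hst R hR0 hR1 (M x) hM0 hM hP
  rw [← hu] at h1
  have hKu : ltK (p x) b c ≤ u x := by omega
  have hbot : ∀ n k, ∃ y : Fin n → ZMod (P x), n = m x + 2 →
      ∑ i, y i • Y n k i = ((0 : Fin (m x) → ZMod (P x)), (1 : ZMod (P x))) := by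
    intro n k
    by_cases hn : n = m x + 2
    · subst hn
      obtain ⟨y, hy⟩ := h6 k
      exact ⟨y, fun _ => hy⟩
    · exact ⟨0, fun h => absurd h hn⟩
  choose y hy using hbot
  have hTL : ∀ n i, ∃ TL : List (List LT.Num), n < m x + 2 → matZ (p x) TL = T n i ∧
      sz TL ≤ p x * (p x * (2 * u x + 4) + 1) := by
    intro n i
    by_cases hn : n < m x + 2
    · obtain ⟨TL, h7, h8⟩ := ca_mat (T n i) (h1 n hn i).1
      exact ⟨TL, fun _ => ⟨h7, h8⟩⟩
    · exact ⟨[], fun h => absurd h hn⟩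
  choose TL hTL using hTL
  have hEY : ∀ n i, ∃ E : List (List ℕ), n < m x + 2 →
      (∀ l : Fin (M x), expZ (p x) (E.getD l.val []) = ey n i l) ∧
        sz E ≤ M x * (p x * (u x + 1) + 1) := by
    intro n i
    by_cases hn : n < m x + 2
    · obtain ⟨E, h7, h8⟩ := ca_ey (ey n i) fun l j => ((h1 n hn i).2.1 l j).trans hKu
      exact ⟨E, fun _ => ⟨h7, h8⟩⟩
    · exact ⟨[], fun h => absurd h hn⟩
  choose EY hEY using hEY
  have hEC : ∀ n i, ∃ E : List (List (List ℕ)), n < m x + 2 →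
      (∀ (k : Fin (M x)) s c, expK (P x) (p x) (E.getD k.val []) s c = ec n i k (s, c)) ∧
        sz E ≤ M x * (P x ^ 4 * (p x * (u x + 1) + 1) + 1) := by
    intro n i
    by_cases hn : n < m x + 2
    · obtain ⟨E, h7, h8⟩ := ca_ec (ec n i) fun k q j => (((h1 n hn i).2.2.2 k).1 q j).trans hKu
      exact ⟨E, fun _ => ⟨h7, h8⟩⟩
    · exact ⟨[], fun h => absurd h hn⟩
  choose EC hEC using hEC
  obtain ⟨nd, hnd⟩ : ∃ nd : ℕ → Fin (M x) → Node, ∀ n k, nd n k =
    ((itmL (Y n k), parL (π n k)), List.ofFn fun i => (y n k i).val) := ⟨_, fun _ _ => rfl⟩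
  obtain ⟨lf, hlf⟩ : ∃ lf : ℕ → Fin N → Leaf, ∀ n i, lf n i =
    ((sc (n + 1) i, TL n i), (EY n i, EC n i)) := ⟨_, fun _ _ => rfl⟩
  have hlfs : ∀ n < m x + 2, ∀ i, sz (lf n i) ≤ llen tb (p x) (u x) (M x) (P x) := by
    intro n hn i
    rw [hlf, sz_prod, sz_prod, sz_prod (EY n i, EC n i)]
    have h7 := (hgood (n + 1) (by omega) i).1
    have h8 := (hTL n i hn).2
    have h9 := (hEY n i hn).2
    have h10 := (hEC n i hn).2
    unfold llen
    show sz (sc (n + 1) i) + sz (TL n i) + 1 + (sz (EY n i) + sz (EC n i) + 1) + 1 ≤ _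
    omega
  have htr : ∀ n, ∃ tr : List TNode × List Leaf, (n < m x + 2 → tr = (Ns (n + 1),
      List.ofFn fun i : Fin (Lv (n + 1)).length =>
        lf n ⟨i.val, i.isLt.trans_le (hLvN (n + 1))⟩)) ∧
      sz tr ≤ tb + N * (llen tb (p x) (u x) (M x) (P x) + 1) + 1 := by
    intro n
    by_cases hn : n < m x + 2
    · refine ⟨_, fun _ => rfl, ?_⟩
      rw [sz_pair]
      have h7 := hNs (n + 1)
      have h8 := ca_szf (llen tb (p x) (u x) (M x) (P x)) (Lv (n + 1)).length
        (fun i : Fin (Lv (n + 1)).length => lf n ⟨i.val, i.isLt.trans_le (hLvN (n + 1))⟩)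
        fun i => hlfs n hn _
      have h9 := h8.trans (Nat.mul_le_mul_right _ (hLvN (n + 1)))
      exact Nat.add_le_add_right (Nat.add_le_add h7 h9) 1
    · refine ⟨([], []), fun h => absurd h hn, ?_⟩
      rw [sz_pair, sz_lnil, sz_lnil]
      omega
  choose tr htr1 htr2 using htr
  obtain ⟨Z, hZ⟩ : ∃ Z : List ALev, Z = List.ofFn fun n : Fin (m x + 3) =>
    ((tr n.val, List.ofFn fun k : Fin (M x) => nd n.val k) : ALev) := ⟨_, rfl⟩
  have hZ1 : ∀ n < m x + 3, Z.getD n anil =
      (tr n, List.ofFn fun k : Fin (M x) => nd n k) := by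
    intro n hn
    rw [hZ]
    exact ca_getD (fun n : Fin (m x + 3) =>
      ((tr n.val, List.ofFn fun k : Fin (M x) => nd n.val k) : ALev)) anil
      (⟨n, hn⟩ : Fin (m x + 3))
  refine ⟨Z, ?_, ?_⟩
  · have h7 : ∀ n : ℕ, n < m x + 3 → ∀ k, sz (nd n k) ≤ nlen (P x) (m x) := by
      intro n hn k
      rw [hnd]
      exact sz_node_le (Y n k) (π n k) (y n k) (by omega)
    rw [hZ]
    refine (ca_szf (tb + N * (llen tb (p x) (u x) (M x) (P x) + 1) +
      M x * (nlen (P x) (m x) + 1) + 2) (m x + 3) _ fun n => ?_).trans (le_of_eq rfl)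
    rw [sz_pair]
    have h8 := htr2 n.val
    have h9 := ca_szf _ (M x) (fun k => nd n.val k) (h7 n.val n.isLt)
    have h10 := Nat.add_le_add_right (Nat.add_le_add h8 h9) 1
    refine h10.trans (le_of_eq ?_)
    ring
  · have hdef : checkA rv wt cl gap m P k0 M p u A0 Bc Ls (x, Z) =
        (((List.range (m x + 3)).all fun n => decide ((Z.getD n anil).2.length = M x)) &&
        (((List.range (m x + 2)).all fun n =>
          levA rv wt cl gap x (P x) (m x) (k0 x) (M x) (p x) (u x) (A0 x) (Bc x)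
            (Ls x) n (Z.getD n anil) (Z.getD (n + 1) anil).2) &&
        (Z.getD (m x + 2) anil).2.all fun b =>
          botN (P x) (m x) (m x + 2) b.1.1 b.2)) := rfl
    rw [hdef, Bool.and_eq_true, Bool.and_eq_true]
    refine ⟨List.all_eq_true.2 fun n hn => ?_, List.all_eq_true.2 fun n hn => ?_, ?_⟩
    · refine decide_eq_true ?_
      rw [hZ1 n (List.mem_range.1 hn), List.length_ofFn]
    · have hn' : n < m x + 2 := List.mem_range.1 hn
      rw [hZ1 n (by omega), hZ1 (n + 1) (by omega), htr1 n hn']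
      unfold levA
      rw [Bool.and_eq_true, Bool.and_eq_true]
      refine ⟨⟨List.all_eq_true.2 fun b _ => hgap _, ?_⟩, List.all_eq_true.2 fun L hL => ?_⟩
      · show cl (x, (Ns (n + 1), (List.ofFn fun i : Fin (Lv (n + 1)).length =>
          lf n ⟨i.val, i.isLt.trans_le (hLvN (n + 1))⟩).map fun L => L.1.1)) = true
        have h7 : ((List.ofFn fun i : Fin (Lv (n + 1)).length =>
            lf n ⟨i.val, i.isLt.trans_le (hLvN (n + 1))⟩).map fun L => L.1.1) = Lv (n + 1) := by
          rw [List.map_ofFn]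
          refine Eq.trans (congrArg List.ofFn (funext fun i => ?_)) (ca_self (Lv (n + 1)) [])
          show (lf n ⟨i.val, i.isLt.trans_le (hLvN (n + 1))⟩).1.1 = _
          rw [hlf, hscd]
        rw [h7]
        exact (hLv (n + 1) (by omega)).1
      · obtain ⟨j, rfl⟩ := (List.mem_ofFn' _ _).1 hL
        obtain ⟨i, hi⟩ : ∃ i : Fin N, i = ⟨j.val, j.isLt.trans_le (hLvN (n + 1))⟩ := ⟨_, rfl⟩
        show leafA rv wt x (P x) (m x) (M x) (p x) (u x) (A0 x) (Bc x) (Ls x) n
          (List.ofFn fun k : Fin (M x) => nd n k) (qeL x (P x) (m x) (n + 1)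
            (List.ofFn fun k : Fin (M x) => nd (n + 1) k)
            (lf n ⟨j.val, j.isLt.trans_le (hLvN (n + 1))⟩).2.1)
          (lf n ⟨j.val, j.isLt.trans_le (hLvN (n + 1))⟩) = true
        rw [← hi, hlf]
        obtain ⟨-, hLs, hΓ', hrare⟩ := hgood (n + 1) (by omega) i
        obtain ⟨-, -, hc1, hkid⟩ := h1 n hn' i
        have hmem : ∀ t < (sc (n + 1) i).length, ∀ w ∈ W, (i, (t, w)) ∈
            (univ : Finset (Fin N)) ×ˢ (range (Ls x) ×ˢ W) := fun t ht w hw =>
          mem_product.2 ⟨mem_univ _, mem_product.2 ⟨mem_range.2 (ht.trans_le hLs), hw⟩⟩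
        have hl := list_rare (Y := Y (n + 1)) hM0 hR0 hR2 hΓ' hrare (h2 n hn' i)
          (fun E t w h => hW (n + 1) (by omega) i E t w h)
          (fun t ht w hw => h5 n hn' (i, (t, w)) (hmem t ht w hw))
        have hk : ∀ k, _ := fun k => kid_rare (D := Y n k) (π := π n k) hR0 hR2 hΓ' hrare
          (h3 n hn' i k) (fun E t w h => hW (n + 1) (by omega) i E t w h)
          (fun t ht w hw => h4 n hn' k (i, (t, w)) (hmem t ht w hw))
        refine leaf_ok (Y := Y n) (Y' := Y (n + 1)) (π := π n) (T := T n i) (ey := ey n i)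
          (ec := ec n i) List.length_ofFn List.length_ofFn (fun k => ?_) (fun k => ?_)
          (fun l => ?_) (hTL n i hn').1 (hEY n i hn').1 (hEC n i hn').1 hLs
          (hl.1.trans (Nat.mul_le_mul_right _ hA0)) hl.2 hc1
          (fun k => (hk k).1.trans (Nat.mul_le_mul_right _ hA0)) (fun k => (hk k).2)
          (fun k => (hkid k).2.1) (fun k => (hkid k).2.2.1) (fun k => (hkid k).2.2.2)
        · rw [ca_getD (fun k : Fin (M x) => nd n k), hnd]
          exact itmC_itmL _
        · rw [ca_getD (fun k : Fin (M x) => nd n k), hnd]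
          exact parC_parL _
        · rw [ca_getD (fun k : Fin (M x) => nd (n + 1) k), hnd]
          exact itmC_itmL _
    · rw [hZ1 (m x + 2) (by omega)]
      refine List.all_eq_true.2 fun a ha => ?_
      obtain ⟨k, rfl⟩ := (List.mem_ofFn' _ _).1 ha
      show botN (P x) (m x) (m x + 2) (nd (m x + 2) k).1.1 (nd (m x + 2) k).2 = true
      rw [hnd]
      exact botN_ofFn _ _ (hy (m x + 2) k rfl)

end Pool.Agent.Lib.MP_634427_lc.Ad
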