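import Pool.Agent.Lib.MP_634427_lc.Ad.CheckPTA
import Pool.Agent.Lib.MP_634427_lc.Maj.CheckPT

/-!
# The check of the adaptive version in polynomial time

As `PT.majCheckW` (Maj/LtPT). `PT.majC1`, `PT.majC2`, `PT.majC3`, `PT.majNorm`, `PT.majBot`.
-/

namespace Pool.Agent.Lib.MP_634427_lc.Ad

open Pool.Agent.Lib.MP_634427_lc Pool.Agent.Lib.MP_634427_lc.Maj

variable {γ : Type} [Enc γ]
  {rv : (Word × List Op) × Word → Option (List LT.Num)}
  {wt : (Word × (List Op × List Word)) × Word → Option Word}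
  {cl : Word × (List TNode × List (List Op)) → Bool} {gap : (Word × (ℕ × ℕ)) × IL → Bool}

theorem pt_kidA (hrv : PT rv) (hwt : PT wt) {x : γ → Word} {P p u A0 Bc : γ → ℕ}
    {σ : γ → List Op} {T : γ → List (List LT.Num)} {GZ G : γ → Fam} (hx : PT x) (hP : PT P)
    (hp : PT p) (hu : PT u) (hA : PT A0) (hB : PT Bc) (hσ : PT σ) (hT : PT T) (hZ : PT GZ)
    (hG : PT G) :
    PT fun c => kidA rv wt (x c) (P c) (p c) (u c) (A0 c) (Bc c) (σ c) (T c) (GZ c) (G c) := by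
  have hF := pt_famA hrv hx hσ hG
  have hN := PT.length hF
  exact PT.and (PT.and (PT.le (PT.pow hP 4) (PT.mul hA hN)) (pt_rareN hwt hx hB hσ hG hN))
    (PT.and (PT.majC1 hp hu hT hF) (PT.and (PT.majC2 hp hu hN hT hF)
      (PT.majC3 hp hu hN (PT.length hZ) hT hF hZ)))

theorem pt_leafA (hrv : PT rv) (hwt : PT wt) {x : γ → Word} {P m M p u A0 Bc Ls n : γ → ℕ}
    {X : γ → List Node} {H : γ → Fam} {L : γ → Leaf} (hx : PT x) (hP : PT P) (hm : PT m)
    (hM : PT M) (hp : PT p) (hu : PT u) (hA : PT A0) (hB : PT Bc) (hLs : PT Ls) (hn : PT n)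
    (hX : PT X) (hH : PT H) (hL : PT L) :
    PT fun c => leafA rv wt (x c) (P c) (m c) (M c) (p c) (u c) (A0 c) (Bc c) (Ls c) (n c) (X c)
      (H c) (L c) := by
  have hσ : PT fun c => (L c).1.1 := PT.fst' (PT.fst' hL)
  have hT : PT fun c => (L c).1.2 := PT.snd' (PT.fst' hL)
  have hE : PT fun c => (L c).2.2 := PT.snd' (PT.snd' hL)
  have hF := pt_famA hrv hx hσ hH
  have hN := PT.length hF
  have f : PT fun q : γ × ℕ => q.1 := PT.fst
  have hk : PT fun q : γ × ℕ => kidA rv wt (x q.1) (P q.1) (p q.1) (u q.1) (A0 q.1) (Bc q.1)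
      (L q.1).1.1 (L q.1).1.2 (famA rv (x q.1) (L q.1).1.1 (H q.1))
      (qeK (x q.1) (P q.1) (m q.1) (n q.1) ((X q.1).getD q.2 nnil) ((L q.1).2.2.getD q.2 [])) :=
    pt_kidA hrv hwt (hx.comp f) (hP.comp f) (hp.comp f) (hu.comp f) (hA.comp f) (hB.comp f)
      (hσ.comp f) (hT.comp f) (hF.comp f)
      (pt_qeK (hx.comp f) (hP.comp f) (hm.comp f) (hn.comp f)
        (PT.getLD PT.snd (hX.comp f) (PT.const nnil))
        (PT.getLD PT.snd (hE.comp f) (PT.const [])))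
  exact PT.and (PT.and (PT.and (PT.le (PT.length hσ) hLs) (PT.le hM (PT.mul hA hN)))
    (PT.and (pt_rareN hwt hx hB hσ hH hN) (PT.majC1 hp hu hT hF)))
    (PT.all (p := fun (c : γ) (k : ℕ) => kidA rv wt (x c) (P c) (p c) (u c) (A0 c) (Bc c)
      (L c).1.1 (L c).1.2 (famA rv (x c) (L c).1.1 (H c))
      (qeK (x c) (P c) (m c) (n c) ((X c).getD k nnil) ((L c).2.2.getD k [])))
      (PT.range (PT.length hX)) hk)

theorem pt_levA (hrv : PT rv) (hwt : PT wt) (hcl : PT cl) (hgap : PT gap) {x : γ → Word}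
    {P m k0 M p u A0 Bc Ls n : γ → ℕ} {a : γ → ALev} {Z : γ → List Node} (hx : PT x) (hP : PT P)
    (hm : PT m) (hk : PT k0) (hM : PT M) (hp : PT p) (hu : PT u) (hA : PT A0) (hB : PT Bc)
    (hLs : PT Ls) (hn : PT n) (ha : PT a) (hZ : PT Z) :
    PT fun c => levA rv wt cl gap (x c) (P c) (m c) (k0 c) (M c) (p c) (u c) (A0 c) (Bc c)
      (Ls c) (n c) (a c) (Z c) := by
  have h1 : PT fun c => (a c).2.all fun b => gap ((x c, (P c, k0 c)),
      normN (P c) (m c) (n c) b.1.1) :=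
    PT.all (p := fun (c : γ) (b : Node) => gap ((x c, (P c, k0 c)),
      normN (P c) (m c) (n c) b.1.1)) (PT.snd' ha)
      (hgap.comp (PT.pair (PT.pair (hx.comp PT.fst) (PT.pair (hP.comp PT.fst) (hk.comp PT.fst)))
        (PT.majNorm (hP.comp PT.fst) (hm.comp PT.fst) (hn.comp PT.fst)
          (PT.fst' (PT.fst' PT.snd)))))
  have h2 : PT fun c => cl (x c, ((a c).1.1, (a c).1.2.map fun L => L.1.1)) :=
    hcl.comp (PT.pair hx (PT.pair (PT.fst' (PT.fst' ha))
      (PT.map (f := fun (_ : γ) (L : Leaf) => L.1.1) (PT.snd' (PT.fst' ha))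
        (PT.fst' (PT.fst' PT.snd)))))
  have f : PT fun q : γ × Leaf => q.1 := PT.fst
  have h3 : PT fun q : γ × Leaf => leafA rv wt (x q.1) (P q.1) (m q.1) (M q.1) (p q.1) (u q.1)
      (A0 q.1) (Bc q.1) (Ls q.1) (n q.1) (a q.1).2
      (qeL (x q.1) (P q.1) (m q.1) (n q.1 + 1) (Z q.1) q.2.2.1) q.2 :=
    pt_leafA hrv hwt (hx.comp f) (hP.comp f) (hm.comp f) (hM.comp f) (hp.comp f) (hu.comp f)
      (hA.comp f) (hB.comp f) (hLs.comp f) (hn.comp f) (PT.snd' (ha.comp f))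
      (pt_qeL (hx.comp f) (hP.comp f) (hm.comp f) (PT.succ (hn.comp f)) (hZ.comp f)
        (PT.fst' (PT.snd' PT.snd))) PT.snd
  exact PT.and (PT.and h1 h2)
    (PT.all (p := fun (c : γ) (L : Leaf) => leafA rv wt (x c) (P c) (m c) (M c) (p c) (u c)
      (A0 c) (Bc c) (Ls c) (n c) (a c).2 (qeL (x c) (P c) (m c) (n c + 1) (Z c) L.2.1) L)
      (PT.snd' (PT.fst' ha)) h3)

/-- The check is a polynomial-time function. -/
theorem pt_checkA (hrv : PT rv) (hwt : PT wt) (hcl : PT cl) (hgap : PT gap)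
    {m P k0 M p u A0 Bc Ls : Word → ℕ} (hm : PT m) (hP : PT P) (hk : PT k0) (hM : PT M)
    (hp : PT p) (hu : PT u) (hA : PT A0) (hB : PT Bc) (hLs : PT Ls) :
    PT (checkA rv wt cl gap m P k0 M p u A0 Bc Ls) := by
  have hx : PT fun a : Word × List ALev => a.1 := PT.fst
  have hl : PT fun a : Word × List ALev => a.2 := PT.snd
  have hm' := hm.comp hx
  have hL : PT fun q : (Word × List ALev) × ℕ => q.1.2.getD q.2 anil :=
    PT.getLD PT.snd (hl.comp PT.fst) (PT.const anil)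
  have hL' : PT fun q : (Word × List ALev) × ℕ => q.1.2.getD (q.2 + 1) anil :=
    PT.getLD (PT.succ PT.snd) (hl.comp PT.fst) (PT.const anil)
  have h1 : PT fun a : Word × List ALev => (List.range (m a.1 + 3)).all fun n =>
      decide ((a.2.getD n anil).2.length = M a.1) :=
    PT.all (p := fun (a : Word × List ALev) (n : ℕ) =>
        decide ((a.2.getD n anil).2.length = M a.1))
      (PT.range (PT.succ (PT.succ (PT.succ hm'))))
      (PT.eqNat (PT.length (PT.snd' hL)) (hM.comp (hx.comp PT.fst)))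
  have hx1 : PT fun q : (Word × List ALev) × ℕ => q.1.1 := hx.comp PT.fst
  have h2 : PT fun a : Word × List ALev => (List.range (m a.1 + 2)).all fun n =>
      levA rv wt cl gap a.1 (P a.1) (m a.1) (k0 a.1) (M a.1) (p a.1) (u a.1) (A0 a.1) (Bc a.1)
        (Ls a.1) n (a.2.getD n anil) (a.2.getD (n + 1) anil).2 :=
    PT.all (p := fun (a : Word × List ALev) (n : ℕ) =>
      levA rv wt cl gap a.1 (P a.1) (m a.1) (k0 a.1) (M a.1) (p a.1) (u a.1) (A0 a.1) (Bc a.1)
        (Ls a.1) n (a.2.getD n anil) (a.2.getD (n + 1) anil).2)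
      (PT.range (PT.succ (PT.succ hm')))
      (pt_levA hrv hwt hcl hgap hx1 (hP.comp hx1) (hm.comp hx1) (hk.comp hx1) (hM.comp hx1)
        (hp.comp hx1) (hu.comp hx1) (hA.comp hx1) (hB.comp hx1) (hLs.comp hx1) PT.snd hL
        (PT.snd' hL'))
  have h3 : PT fun a : Word × List ALev => (a.2.getD (m a.1 + 2) anil).2.all fun b =>
      botN (P a.1) (m a.1) (m a.1 + 2) b.1.1 b.2 :=
    PT.all (p := fun (a : Word × List ALev) (b : Node) =>
        botN (P a.1) (m a.1) (m a.1 + 2) b.1.1 b.2)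
      (PT.snd' (PT.getLD (PT.succ (PT.succ hm')) hl (PT.const anil)))
      (PT.majBot (hP.comp (hx.comp PT.fst)) (hm.comp (hx.comp PT.fst))
        (PT.succ (PT.succ (hm.comp (hx.comp PT.fst)))) (PT.fst' (PT.fst' PT.snd))
        (PT.snd' PT.snd))
  exact PT.and h1 (PT.and h2 h3)

end Pool.Agent.Lib.MP_634427_lc.Ad
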