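import Pool.Agent.Lib.MP_634427_lc.Ad.Num
import Pool.Agent.Lib.MP_634427_lc.Maj.LtPT
import Pool.Agent.Lib.MP_634427_lc.KNoPT

/-!
# Families of questions in polynomial time

`PT.majFamK`, `PT.majFamL` with `vt = qv`; `PT.casesOption`.
-/

namespace Pool.Agent.Lib.MP_634427_lc.Ad

open Pool.Agent.Lib.MP_634427_lc Pool.Agent.Lib.MP_634427_lc.Maj

variable {γ : Type} [Enc γ]

theorem pt_qof {g : γ → List LT.Num × List ℕ} (hg : PT g) : PT fun c => qof (g c) :=
  PT.fst' (PT.getLD (PT.const 0) (PT.fst' hg) (PT.const ([], [])))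

private theorem pt_qv : PT qv :=
  PT.cons (PT.pair PT.snd (PT.const [])) (PT.const [])

theorem pt_qeK {x : γ → Word} {P m n : γ → ℕ} {a : γ → Node} {E : γ → List (List ℕ)}
    (hx : PT x) (hP : PT P) (hm : PT m) (hn : PT n) (ha : PT a) (hE : PT E) :
    PT fun c => qeK (x c) (P c) (m c) (n c) (a c) (E c) :=
  PT.majFamK pt_qv hx hP hm hn (PT.pair ha (PT.pair (PT.const []) hE))

theorem pt_qeL {x : γ → Word} {P m n : γ → ℕ} {Y : γ → List Node} {E : γ → List (List ℕ)}
    (hx : PT x) (hP : PT P) (hm : PT m) (hn : PT n) (hY : PT Y) (hE : PT E) :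
    PT fun c => qeL (x c) (P c) (m c) (n c) (Y c) (E c) :=
  PT.majFamL pt_qv hx hP hm hn (PT.map (f := fun c (i : ℕ) =>
      (((Y c).getD i nnil, ((E c).getD i [], [])) : WNode)) (PT.range (PT.length hY))
    (PT.pair (PT.getLD PT.snd (hY.comp PT.fst) (PT.const nnil))
      (PT.pair (PT.getLD PT.snd (hE.comp PT.fst) (PT.const [])) (PT.const []))))

theorem pt_famA {rv : (Word × List Op) × Word → Option (List LT.Num)} (hrv : PT rv)
    {x : γ → Word} {σ : γ → List Op} {G : γ → Fam} (hx : PT x) (hσ : PT σ) (hG : PT G) :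
    PT fun c => famA rv (x c) (σ c) (G c) := by
  have h1 : PT fun p : γ × (List LT.Num × List ℕ) =>
      match rv ((x p.1, σ p.1), qof p.2) with
        | some v => [(v, p.2.2)]
        | none => [] := by
    refine (PT.casesOption (o := fun p : γ × (List LT.Num × List ℕ) =>
        rv ((x p.1, σ p.1), qof p.2)) (f := fun _ => ([] : Fam))
      (g := fun p v => ([(v, p.2.2)] : Fam))
      (hrv.comp (PT.pair (PT.pair (hx.comp PT.fst) (hσ.comp PT.fst)) (pt_qof PT.snd)))
      (PT.const []) (PT.cons (PT.pair PT.snd (PT.snd' (PT.snd' PT.fst)))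
        (PT.const []))).of_eq fun p => ?_
    cases rv ((x p.1, σ p.1), qof p.2) <;> rfl
  exact PT.flatMap (f := fun c (g : List LT.Num × List ℕ) =>
      match rv ((x c, σ c), qof g) with
        | some v => [(v, g.2)]
        | none => []) hG h1

theorem pt_atz {wt : (Word × (List Op × List Word)) × Word → Option Word} (hwt : PT wt)
    {x z : γ → Word} {σ : γ → List Op} {T : γ → List Word} {g : γ → List LT.Num × List ℕ}
    (hx : PT x) (hσ : PT σ) (hT : PT T) (hz : PT z) (hg : PT g) :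
    PT fun c => atz wt (x c) (σ c) (T c) (z c) (g c) := by
  refine (PT.casesOption (o := fun c => wt ((x c, (σ c, T c)), qof (g c)))
      (f := fun _ => false) (g := fun c w => decide (w = z c))
    (hwt.comp (PT.pair (PT.pair hx (PT.pair hσ hT)) (pt_qof hg)))
    (PT.const false) (PT.eqWord PT.snd (hz.comp PT.fst))).of_eq fun c => ?_
  unfold atz
  cases wt ((x c, (σ c, T c)), qof (g c)) <;> simp

theorem pt_isR {o : γ → Op} (ho : PT o) : PT fun c => isR (o c) :=
  PT.and (PT.eqNat (PT.fst' ho) (PT.const 1)) (PT.eqWord (PT.snd' (PT.snd' ho)) (PT.const []))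

theorem pt_rareN {wt : (Word × (List Op × List Word)) × Word → Option Word} (hwt : PT wt)
    {x : γ → Word} {B N : γ → ℕ} {σ : γ → List Op} {G : γ → Fam}
    (hx : PT x) (hB : PT B) (hσ : PT σ) (hG : PT G) (hN : PT N) :
    PT fun c => rareN wt (x c) (B c) (σ c) (G c) (N c) := by
  have hop : PT fun q : γ × ℕ => (σ q.1).getD q.2 opY :=
    PT.getLD PT.snd (hσ.comp PT.fst) (PT.const opY)
  have htk : PT fun q : γ × ℕ => (σ q.1).take q.2 := PT.take PT.snd (hσ.comp PT.fst)
  have hT : PT fun q : γ × ℕ => ((σ q.1).getD q.2 opY).2.1 := PT.fst' (PT.snd' hop)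
  have h3 : PT fun p : (((γ × ℕ) × (List LT.Num × List ℕ)) × Word) =>
      decide (p.2 ∈ ((σ p.1.1.1).getD p.1.1.2 opY).2.1) ||
        decide (B p.1.1.1 * ((G p.1.1.1).filter (atz wt (x p.1.1.1) ((σ p.1.1.1).take p.1.1.2)
          ((σ p.1.1.1).getD p.1.1.2 opY).2.1 p.2)).length ≤ N p.1.1.1) := by
    have f1 : PT fun p : (((γ × ℕ) × (List LT.Num × List ℕ)) × Word) => p.1.1 :=
      PT.fst' PT.fst
    have f2 : PT fun p : (((γ × ℕ) × (List LT.Num × List ℕ)) × Word) => p.1.1.1 :=
      PT.fst' f1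
    refine PT.or (PT.memWord PT.snd (hT.comp f1)) (PT.le (PT.mul (hB.comp f2)
      (PT.length (PT.filter (p := fun (p : (((γ × ℕ) × (List LT.Num × List ℕ)) × Word)) g =>
        atz wt (x p.1.1.1) ((σ p.1.1.1).take p.1.1.2)
          ((σ p.1.1.1).getD p.1.1.2 opY).2.1 p.2 g) (hG.comp f2) ?_))) (hN.comp f2))
    exact pt_atz hwt (hx.comp (f2.comp PT.fst)) (htk.comp (f1.comp PT.fst))
      (hT.comp (f1.comp PT.fst)) (PT.snd' PT.fst) PT.snd
  have h2 : PT fun p : (γ × ℕ) × (List LT.Num × List ℕ) =>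
      match wt ((x p.1.1, ((σ p.1.1).take p.1.2, ((σ p.1.1).getD p.1.2 opY).2.1)), qof p.2) with
        | some z => decide (z ∈ ((σ p.1.1).getD p.1.2 opY).2.1) ||
            decide (B p.1.1 * ((G p.1.1).filter (atz wt (x p.1.1) ((σ p.1.1).take p.1.2)
              ((σ p.1.1).getD p.1.2 opY).2.1 z)).length ≤ N p.1.1)
        | none => true := by
    refine (PT.casesOption (o := fun p : (γ × ℕ) × (List LT.Num × List ℕ) =>
        wt ((x p.1.1, ((σ p.1.1).take p.1.2, ((σ p.1.1).getD p.1.2 opY).2.1)), qof p.2))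
      (f := fun _ => true)
      (g := fun p z => decide (z ∈ ((σ p.1.1).getD p.1.2 opY).2.1) ||
            decide (B p.1.1 * ((G p.1.1).filter (atz wt (x p.1.1) ((σ p.1.1).take p.1.2)
              ((σ p.1.1).getD p.1.2 opY).2.1 z)).length ≤ N p.1.1))
      (hwt.comp (PT.pair (PT.pair (hx.comp (PT.fst' PT.fst)) (PT.pair (htk.comp PT.fst)
        (hT.comp PT.fst))) (pt_qof PT.snd))) (PT.const true) h3).of_eq fun p => ?_
    cases wt ((x p.1.1, ((σ p.1.1).take p.1.2, ((σ p.1.1).getD p.1.2 opY).2.1)), qof p.2) <;>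
      rfl
  exact PT.all (p := fun c t => !(isR ((σ c).getD t opY)) || (G c).all fun g =>
      match wt ((x c, ((σ c).take t, ((σ c).getD t opY).2.1)), qof g) with
        | some z => decide (z ∈ ((σ c).getD t opY).2.1) ||
            decide (B c * ((G c).filter (atz wt (x c) ((σ c).take t)
              ((σ c).getD t opY).2.1 z)).length ≤ N c)
        | none => true) (PT.range (PT.length hσ))
    (PT.or (PT.not (pt_isR hop)) (PT.all (p := fun (q : γ × ℕ) g =>
      match wt ((x q.1, ((σ q.1).take q.2, ((σ q.1).getD q.2 opY).2.1)), qof g) with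
        | some z => decide (z ∈ ((σ q.1).getD q.2 opY).2.1) ||
            decide (B q.1 * ((G q.1).filter (atz wt (x q.1) ((σ q.1).take q.2)
              ((σ q.1).getD q.2 opY).2.1 z)).length ≤ N q.1)
        | none => true) (hG.comp PT.fst) h2))

end Pool.Agent.Lib.MP_634427_lc.Ad
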