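import Pool.Agent.Lib.MP_634427_lc.Ad.Count
import Pool.Agent.Lib.MP_634427_lc.Maj.BridgeC

/-!
# Soundness of the check of the adaptive version

As `checkW_sound` (Maj/LtChkSound), from `ad_sound`. For every `n < m + 2` choose the leaf
`L n` of level `n` of the certificate with a right script `σ n` (`hleaf`). `al (n + 1) = alR .. (σ n)`,
`al 0 = false`, `bd (n + 1) D = BdW wt x F (σ n) (quest ..)`, `a (n + 1) = aR .. (σ n)`. The bounds for the
error set: `rare_cardK`, `rare_cardL` with `N` = the number of the alive members (at least 1 for the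
list, since `M ≤ A0 * N`), `hB`.
-/

namespace Pool.Agent.Lib.MP_634427_lc.Ad

open Pool.Agent.Lib.MP_634427_lc Pool.Agent.Lib.MP_634427_lc.Maj Finset

private theorem csd_mem {α : Type} (l : List α) (d : α) {k : ℕ} (h : k < l.length) :
    l.getD k d ∈ l := by
  rw [List.getD_eq_getElem _ _ h]
  exact List.getElem_mem h

private theorem csd_le {q s B c N : ℕ} (h : q * s < B) (h1 : B * c ≤ s * N) : q * c ≤ N := by
  have hB : 0 < B := by omega
  refine Nat.le_of_mul_le_mul_left ?_ hB
  calc B * (q * c) = q * (B * c) := by ring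
    _ ≤ q * (s * N) := Nat.mul_le_mul_left _ h1
    _ = (q * s) * N := by ring
    _ ≤ B * N := Nat.mul_le_mul_right _ h.le

private theorem csd_lt {q s B c N : ℕ} (hN : 0 < N) (h : q * s < B) (h1 : B * c ≤ s * N) :
    q * c < N := by
  refine Nat.lt_of_mul_lt_mul_left (a := B) ?_
  calc B * (q * c) = q * (B * c) := by ring
    _ ≤ q * (s * N) := Nat.mul_le_mul_left _ h1
    _ = (q * s) * N := by ring
    _ < B * N := Nat.mul_lt_mul_of_pos_right h hN

/-- Aliveness at the leaf of the level. -/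
private def csdAl (rv : (Word × List Op) × Word → Option (List LT.Num)) (x : Word) (P m : ℕ)
    (σ : ℕ → List Op) : ∀ n, Itm P m n → Bool
  | 0 => fun _ => false
  | n + 1 => alR rv x P m (n + 1) (σ n)

/-- The error set of the leaf of the level. -/
private def csdBd (wt : (Word × (List Op × List Word)) × Word → Option Word) (x : Word)
    (F : Finset Word) (P m : ℕ) (σ : ℕ → List Op) : ∀ n, Itm P m n → Prop
  | 0 => fun _ => False
  | n + 1 => fun D => BdW wt x F (σ n) (quest x P (itmL D))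

/-- The vectors at the leaf of the level. -/
private def csdA (rv : (Word × List Op) × Word → Option (List LT.Num)) (x : Word) (P m p : ℕ)
    (σ : ℕ → List Op) : ∀ n, Itm P m n → Fin p → ℤ
  | 0 => fun _ _ => 0
  | n + 1 => aR rv x P m p (n + 1) (σ n)

/-- If a certificate passes the check then there is no witness. -/
theorem checkA_sound {rv : (Word × List Op) × Word → Option (List LT.Num)}
    {wt : (Word × (List Op × List Word)) × Word → Option Word}
    {cl : Word × (List TNode × List (List Op)) → Bool} {gap : (Word × (ℕ × ℕ)) × IL → Bool}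
    {m P k0 M p u A0 Bc Ls : Word → ℕ} (x : Word) (hprime : (P x).Prime)
    (A : Finset (Fin (m x) → Bool)) (w : Fin (p x) → ℤ) (hw : ∀ k, |w k| ≤ 1) (hp : 0 < p x)
    (F : Finset Word)
    (hleaf : ∀ Ns Lv, cl (x, (Ns, Lv)) = true → ∃ σ ∈ Lv, ∀ n ≤ m x + 2,
      ∀ D : Itm (P x) (m x) n, ∀ v, rv ((x, σ), quest x (P x) (itmL D)) = some v →
        (((∃ y ∈ A, Sat D y) → 0 < ∑ j, w j * vecZ (p x) v j) ∧
          ((¬ ∃ y ∈ A, Sat D y) → ∑ j, w j * vecZ (p x) v j < 0)) ∨
        BdW wt x F σ (quest x (P x) (itmL D)))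
    (hB : 144 * p x ^ 2 * (Ls x * F.card) < Bc x)
    (hgap : ∀ n, ∀ D : Itm (P x) (m x) n, gap ((x, (P x, k0 x)), itmL D) = true →
      (∃ y ∈ A, Sat D y) → k0 x < (A.filter fun y => Sat D y).card)
    (hM : 0 < M x) (hk : 288 * p x ^ 2 * A0 x * P x ≤ k0 x)
    (hP : 288 * p x ^ 2 * A0 x * (m x + 1) ^ 2 ≤ P x)
    (Y : List ALev) (h : checkA rv wt cl gap m P k0 M p u A0 Bc Ls (x, Y) = true) : A = ∅ := by
  classical
  have : Fact (P x).Prime := ⟨hprime⟩
  have : NeZero (P x) := ⟨hprime.ne_zero⟩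
  have hdef : checkA rv wt cl gap m P k0 M p u A0 Bc Ls (x, Y) =
      (((List.range (m x + 3)).all fun n => decide ((Y.getD n anil).2.length = M x)) &&
      (((List.range (m x + 2)).all fun n =>
        levA rv wt cl gap x (P x) (m x) (k0 x) (M x) (p x) (u x) (A0 x) (Bc x)
          (Ls x) n (Y.getD n anil) (Y.getD (n + 1) anil).2) &&
      (Y.getD (m x + 2) anil).2.all fun b =>
        botN (P x) (m x) (m x + 2) b.1.1 b.2)) := rfl
  rw [hdef, Bool.and_eq_true, Bool.and_eq_true, List.all_eq_true, List.all_eq_true,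
    List.all_eq_true] at h
  obtain ⟨hA, hL, hC⟩ := h
  have hlen : ∀ n < m x + 3, (Y.getD n anil).2.length = M x := by
    intro n hn
    exact of_decide_eq_true (hA n (List.mem_range.2 hn))
  have hnode : ∀ n < m x + 3, ∀ k : Fin (M x),
      (Y.getD n anil).2.getD k.val nnil ∈ (Y.getD n anil).2 := by
    intro n hn k
    exact csd_mem _ _ (by rw [hlen n hn]; exact k.isLt)
  have hlev : ∀ n, ∃ L : Leaf, n < m x + 2 →
      (∀ b ∈ (Y.getD n anil).2, gap ((x, (P x, k0 x)), normN (P x) (m x) n b.1.1) = true) ∧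
      (∀ n' ≤ m x + 2, ∀ D : Itm (P x) (m x) n', ∀ v,
        rv ((x, L.1.1), quest x (P x) (itmL D)) = some v →
        (((∃ y ∈ A, Sat D y) → 0 < ∑ j, w j * vecZ (p x) v j) ∧
          ((¬ ∃ y ∈ A, Sat D y) → ∑ j, w j * vecZ (p x) v j < 0)) ∨
        BdW wt x F L.1.1 (quest x (P x) (itmL D))) ∧
      leafA rv wt x (P x) (m x) (M x) (p x) (u x) (A0 x) (Bc x) (Ls x) n (Y.getD n anil).2
        (qeL x (P x) (m x) (n + 1) (Y.getD (n + 1) anil).2 L.2.1) L = true := by
    intro n
    by_cases hn : n < m x + 2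
    · have h1 := hL n (List.mem_range.2 hn)
      unfold levA at h1
      rw [Bool.and_eq_true, Bool.and_eq_true, List.all_eq_true, List.all_eq_true] at h1
      obtain ⟨⟨h2, h3⟩, h4⟩ := h1
      obtain ⟨σ, hσ, h5⟩ := hleaf _ _ h3
      obtain ⟨L, hL', rfl⟩ := List.mem_map.1 hσ
      exact ⟨L, fun _ => ⟨h2, h5, h4 L hL'⟩⟩
    · exact ⟨(([], []), ([], [])), fun h => absurd h hn⟩
  choose L hL' using hlev
  have hpc : ∀ n < m x + 2, (L n).1.1.length ≤ Ls x ∧
      M x ≤ A0 x * (famA rv x (L n).1.1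
        (qeL x (P x) (m x) (n + 1) (Y.getD (n + 1) anil).2 (L n).2.1)).length ∧
      rareN wt x (Bc x) (L n).1.1
        (qeL x (P x) (m x) (n + 1) (Y.getD (n + 1) anil).2 (L n).2.1)
        (famA rv x (L n).1.1
          (qeL x (P x) (m x) (n + 1) (Y.getD (n + 1) anil).2 (L n).2.1)).length = true ∧
      c1N (p x) (u x) (L n).1.2 (famA rv x (L n).1.1
        (qeL x (P x) (m x) (n + 1) (Y.getD (n + 1) anil).2 (L n).2.1)) = true ∧
      ∀ k : Fin (M x), kidA rv wt x (P x) (p x) (u x) (A0 x) (Bc x) (L n).1.1 (L n).1.2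
        (famA rv x (L n).1.1
          (qeL x (P x) (m x) (n + 1) (Y.getD (n + 1) anil).2 (L n).2.1))
        (qeK x (P x) (m x) n ((Y.getD n anil).2.getD k.val nnil)
          ((L n).2.2.getD k.val [])) = true := by
    intro n hn
    have h1 := (hL' n hn).2.2
    unfold leafA at h1
    rw [Bool.and_eq_true, Bool.and_eq_true, Bool.and_eq_true, Bool.and_eq_true,
      List.all_eq_true] at h1
    obtain ⟨⟨⟨h2, h3⟩, ⟨h4, h5⟩⟩, h6⟩ := h1
    refine ⟨of_decide_eq_true h2, of_decide_eq_true h3, h4, h5, fun k => ?_⟩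
    exact h6 k.val (List.mem_range.2 (by rw [hlen n (by omega)]; exact k.isLt))
  have hkd : ∀ n < m x + 2, ∀ k : Fin (M x),
      P x ^ 4 ≤ A0 x * (famA rv x (L n).1.1 (qeK x (P x) (m x) n
        ((Y.getD n anil).2.getD k.val nnil) ((L n).2.2.getD k.val []))).length ∧
      rareN wt x (Bc x) (L n).1.1 (qeK x (P x) (m x) n
        ((Y.getD n anil).2.getD k.val nnil) ((L n).2.2.getD k.val []))
        (famA rv x (L n).1.1 (qeK x (P x) (m x) n
          ((Y.getD n anil).2.getD k.val nnil) ((L n).2.2.getD k.val []))).length = true ∧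
      c1N (p x) (u x) (L n).1.2 (famA rv x (L n).1.1 (qeK x (P x) (m x) n
        ((Y.getD n anil).2.getD k.val nnil) ((L n).2.2.getD k.val []))) = true ∧
      c2N (p x) (u x) (famA rv x (L n).1.1 (qeK x (P x) (m x) n
        ((Y.getD n anil).2.getD k.val nnil) ((L n).2.2.getD k.val []))).length (L n).1.2
        (famA rv x (L n).1.1 (qeK x (P x) (m x) n
          ((Y.getD n anil).2.getD k.val nnil) ((L n).2.2.getD k.val []))) = true ∧
      c3N (p x) (u x) (famA rv x (L n).1.1 (qeK x (P x) (m x) n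
        ((Y.getD n anil).2.getD k.val nnil) ((L n).2.2.getD k.val []))).length
        (famA rv x (L n).1.1
          (qeL x (P x) (m x) (n + 1) (Y.getD (n + 1) anil).2 (L n).2.1)).length (L n).1.2
        (famA rv x (L n).1.1 (qeK x (P x) (m x) n
          ((Y.getD n anil).2.getD k.val nnil) ((L n).2.2.getD k.val [])))
        (famA rv x (L n).1.1
          (qeL x (P x) (m x) (n + 1) (Y.getD (n + 1) anil).2 (L n).2.1)) = true := by
    intro n hn k
    have h1 := (hpc n hn).2.2.2.2 k
    unfold kidA at h1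
    rw [Bool.and_eq_true, Bool.and_eq_true, Bool.and_eq_true, Bool.and_eq_true] at h1
    obtain ⟨⟨h2, h3⟩, h4, h5, h6⟩ := h1
    exact ⟨of_decide_eq_true h2, h3, h4, h5, h6⟩
  have hBs : ∀ n < m x + 2, 144 * p x ^ 2 * ((L n).1.1.length * F.card) < Bc x := by
    intro n hn
    refine lt_of_le_of_lt ?_ hB
    exact Nat.mul_le_mul_left _ (Nat.mul_le_mul_right _ (hpc n hn).1)
  have hYl : ∀ n < m x + 2, (Y.getD (n + 1) anil).2.length = M x := fun n hn =>
    hlen (n + 1) (by omega)
  refine ad_sound hp A (csdAl rv x (P x) (m x) fun n => (L n).1.1)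
    (csdBd wt x F (P x) (m x) fun n => (L n).1.1)
    (csdA rv x (P x) (m x) (p x) fun n => (L n).1.1) w hw ?_ ?_ (M x) (k0 x) (A0 x) (2 ^ u x)
    (by positivity) hM hk hP
    (fun n k => itmC (P x) (m x) n ((Y.getD n anil).2.getD k.val nnil).1.1)
    (fun n k => parC (P x) (m x) n ((Y.getD n anil).2.getD k.val nnil).1.2)
    (fun n => matZ (p x) (L n).1.2)
    (fun n k q => expK (P x) (p x) ((L n).2.2.getD k.val []) q.1 q.2)
    (fun n l => expZ (p x) ((L n).2.1.getD l.val []))
    ?_ ?_ ?_ ?_ ?_ ?_ ?_ ?_ ?_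
  · intro n hn D hal hbd hs
    rcases n with _ | n
    · exact absurd hal (by simp [csdAl])
    · obtain ⟨v, hv⟩ := Option.isSome_iff_exists.1
        (show (rv ((x, (L n).1.1), quest x (P x) (itmL D))).isSome = true from hal)
      have h1 := (hL' n (by omega)).2.1 (n + 1) hn D v hv
      have h2 := (h1.resolve_right hbd).1 hs
      have h3 : csdA rv x (P x) (m x) (p x) (fun n => (L n).1.1) (n + 1) D = vecZ (p x) v := by
        show vecZ (p x) ((rv ((x, (L n).1.1), quest x (P x) (itmL D))).getD []) = vecZ (p x) v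
        rw [hv, Option.getD_some]
      rw [h3]
      exact h2
  · intro n hn D hal hbd hs
    rcases n with _ | n
    · exact absurd hal (by simp [csdAl])
    · obtain ⟨v, hv⟩ := Option.isSome_iff_exists.1
        (show (rv ((x, (L n).1.1), quest x (P x) (itmL D))).isSome = true from hal)
      have h1 := (hL' n (by omega)).2.1 (n + 1) hn D v hv
      have h2 := (h1.resolve_right hbd).2 hs
      have h3 : csdA rv x (P x) (m x) (p x) (fun n => (L n).1.1) (n + 1) D = vecZ (p x) v := by
        show vecZ (p x) ((rv ((x, (L n).1.1), quest x (P x) (itmL D))).getD []) = vecZ (p x) v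
        rw [hv, Option.getD_some]
      rw [h3]
      exact h2
  · intro n hn k hs
    have h1 := (hL' n hn).1 _ (hnode n (by omega) k)
    rw [normN_eq] at h1
    exact hgap n _ h1 hs
  · intro n hn k
    have h1 := (hkd n hn k).1
    rw [length_famAK] at h1
    exact h1
  · intro n hn k
    have h1 := rare_cardK (F := F) (hkd n hn k).2.1
    rw [length_famAK] at h1
    refine csd_le (hBs n hn) (le_trans (Nat.mul_le_mul_left _ (Finset.card_le_card ?_)) h1)
    intro q hq
    rw [Finset.mem_filter] at hq ⊢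
    exact ⟨Finset.mem_univ _, hq.2⟩
  · intro n hn
    have h1 := rare_cardL (F := F) (hYl n hn) (hpc n hn).2.2.1
    have h2 := (hpc n hn).2.1
    rw [length_famAL (hYl n hn)] at h1 h2
    refine csd_lt ?_ (hBs n hn)
      (le_trans (Nat.mul_le_mul_left _ (Finset.card_le_card ?_)) h1)
    · refine Nat.pos_of_ne_zero fun h0 => ?_
      have h3 : M x ≤ A0 x * 0 := by
        rw [← h0]
        exact h2
      omega
    · intro l hl
      rw [Finset.mem_filter] at hl ⊢
      exact ⟨Finset.mem_univ _, hl.2⟩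
  · intro n hn k
    exact c1K_iff.1 (hkd n hn k).2.2.1
  · intro n hn
    exact (c1L_iff (hYl n hn)).1 (hpc n hn).2.2.2.1
  · intro n hn k
    exact c2K_iff.1 (hkd n hn k).2.2.2.1
  · intro n hn k
    exact (c3K_iff (hYl n hn)).1 (hkd n hn k).2.2.2.2
  · intro k
    have h1 := hC _ (hnode (m x + 2) (by omega) k)
    exact ⟨_, (botN_iff _ _).1 h1⟩

end Pool.Agent.Lib.MP_634427_lc.Ad
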