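import Pool.Agent.Lib.MP_634427_lc.Ad.Bridge

/-!
# Adaptive version: the statistics of the rare test

`transfer`: with `a / n ≥ 1 / Γ`: `cx / nx ≤ c / n + 3 / (2 R) ≤ a / (2 B n) + 3 / (2 R)` and
`ax / nx ≥ a / n - 3 / (2 R)`, and `B * 3 / (2 R) + 3 / (2 R) ≤ 1 / (2 Γ)`.
-/

namespace Pool.Agent.Lib.MP_634427_lc.Ad

open Pool.Agent.Lib.MP_634427_lc Pool.Agent.Lib.MP_634427_lc.Maj Finset

/-- From all items to a sample. -/
theorem transfer {B Γ R cx ax c a n nx : ℕ} (hn : 0 < n) (hnx : 0 < nx) (hR0 : 0 < R)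
    (hΓ : n ≤ Γ * a) (hR : 3 * Γ * (B + 1) ≤ R) (hB : 2 * B * c ≤ a)
    (h1 : |(cx : ℝ) / nx - (c : ℝ) / n| ≤ 3 / 2 / R)
    (h2 : |(ax : ℝ) / nx - (a : ℝ) / n| ≤ 3 / 2 / R) : B * cx ≤ ax := by
  have hΓ0 : 0 < Γ := by
    rcases Nat.eq_zero_or_pos Γ with h | h
    · rw [h, zero_mul] at hΓ
      omega
    · exact h
  have hn' : (0 : ℝ) < n := Nat.cast_pos.2 hn
  have hnx' : (0 : ℝ) < nx := Nat.cast_pos.2 hnx
  have hR' : (0 : ℝ) < R := Nat.cast_pos.2 hR0
  have hΓ' : (0 : ℝ) < Γ := Nat.cast_pos.2 hΓ0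
  have e1 : (n : ℝ) ≤ Γ * a := by exact_mod_cast hΓ
  have e2 : (3 : ℝ) * Γ * (B + 1) ≤ R := by exact_mod_cast hR
  have e3 : (2 : ℝ) * B * c ≤ a := by exact_mod_cast hB
  have g1 : (cx : ℝ) / nx ≤ c / n + 3 / 2 / R := by
    have := (abs_le.1 h1).2
    linarith
  have g2 : (a : ℝ) / n - 3 / 2 / R ≤ ax / nx := by
    have := (abs_le.1 h2).1
    linarith
  have g3 : 1 / (Γ : ℝ) ≤ a / n := by
    rw [div_le_div_iff₀ hΓ' hn', one_mul]
    linarith
  have g4 : ((B : ℝ) + 1) * (3 / 2 / R) ≤ 1 / Γ / 2 := by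
    rw [div_div, div_div, mul_div_assoc', div_le_div_iff₀ (by positivity) (by positivity)]
    nlinarith
  have g5 : (B : ℝ) * (c / n) ≤ a / n / 2 := by
    rw [div_div, mul_div_assoc', div_le_div_iff₀ hn' (by positivity)]
    nlinarith
  have g6 : (B : ℝ) * (cx / nx) ≤ B * (c / n + 3 / 2 / R) :=
    mul_le_mul_of_nonneg_left g1 (Nat.cast_nonneg _)
  have g7 : (B : ℝ) * (cx / nx) ≤ ax / nx := by
    have : (B : ℝ) * (c / n + 3 / 2 / R) = B * (c / n) + (B + 1) * (3 / 2 / R) - 3 / 2 / R := by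
      ring
    linarith
  rw [mul_div_assoc', div_le_div_iff_of_pos_right hnx'] at g7
  exact_mod_cast g7

theorem transfer_alive {Γ R ax a n nx : ℕ} (hn : 0 < n) (hnx : 0 < nx) (hR0 : 0 < R)
    (hΓ : n ≤ Γ * a) (hR : 3 * Γ ≤ R)
    (h2 : |(ax : ℝ) / nx - (a : ℝ) / n| ≤ 3 / 2 / R) : nx ≤ 2 * Γ * ax := by
  have hΓ0 : 0 < Γ := by
    rcases Nat.eq_zero_or_pos Γ with h | h
    · rw [h, zero_mul] at hΓ
      omega
    · exact h
  have hn' : (0 : ℝ) < n := Nat.cast_pos.2 hn
  have hnx' : (0 : ℝ) < nx := Nat.cast_pos.2 hnx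
  have hR' : (0 : ℝ) < R := Nat.cast_pos.2 hR0
  have hΓ' : (0 : ℝ) < Γ := Nat.cast_pos.2 hΓ0
  have e1 : (n : ℝ) ≤ Γ * a := by exact_mod_cast hΓ
  have e2 : (3 : ℝ) * Γ ≤ R := by exact_mod_cast hR
  have g2 : (a : ℝ) / n - 3 / 2 / R ≤ ax / nx := by
    have := (abs_le.1 h2).1
    linarith
  have g3 : 1 / (Γ : ℝ) ≤ a / n := by
    rw [div_le_div_iff₀ hΓ' hn', one_mul]
    linarith
  have g4 : (3 : ℝ) / 2 / R ≤ 1 / Γ / 2 := by
    rw [div_div, div_div, div_le_div_iff₀ (by positivity) (by positivity)]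
    nlinarith
  have g5 : 1 / (Γ : ℝ) / 2 ≤ ax / nx := by linarith
  rw [div_div, div_le_div_iff₀ (by positivity) hnx', one_mul] at g5
  have g6 : (nx : ℝ) ≤ 2 * Γ * ax := by linarith
  exact_mod_cast g6

variable {wt : (Word × (List Op × List Word)) × Word → Option Word} {x : Word}
  {P m n M : ℕ} [NeZero P] {rv : (Word × List Op) × Word → Option (List LT.Num)}

/-- The statistic: the question of the item waits at `z` at the operation `t` of the script. -/
def stP (wt : (Word × (List Op × List Word)) × Word → Option Word) (x : Word) (P m n : ℕ)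
    (σ : List Op) (t : ℕ) (z : Word) (D : Itm P m n) : Prop :=
  t < σ.length ∧ isR (σ.getD t opY) = true ∧
    wt ((x, (σ.take t, (σ.getD t opY).2.1)), quest x P (itmL D)) = some z

open Classical in
/-- The statistic as a number. -/
noncomputable def stA (wt : (Word × (List Op × List Word)) × Word → Option Word) (x : Word)
    (P m n : ℕ) (σ : List Op) (t : ℕ) (z : Word) (D : Itm P m n) : ℝ :=
  if stP wt x P m n σ t z D then 1 else 0

/-- The sum of the squares of the statistics. -/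
theorem sum_stA_sq_le {N Ls : ℕ} (sc : Fin N → List Op) (W : Finset Word) (D : Itm P m n) :
    ∑ b ∈ (univ : Finset (Fin N)) ×ˢ (range Ls ×ˢ W),
      stA wt x P m n (sc b.1) b.2.1 b.2.2 D ^ 2 ≤ ((N * Ls : ℕ) : ℝ) := by
  classical
  have h1 : ∀ (σ : List Op) (t : ℕ), ∑ w ∈ W, stA wt x P m n σ t w D ^ 2 ≤ 1 := by
    intro σ t
    by_cases h : ∃ w ∈ W, stP wt x P m n σ t w D
    · obtain ⟨w, hw, h2⟩ := h
      rw [Finset.sum_eq_single w]
      · unfold stA
        rw [if_pos h2, one_pow]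
      · intro v _ hv
        unfold stA
        rw [if_neg fun h3 => hv (Option.some_injective _ (h3.2.2.symm.trans h2.2.2))]
        norm_num
      · intro h3
        exact absurd hw h3
    · refine le_of_eq_of_le (Finset.sum_eq_zero fun w hw => ?_) zero_le_one
      unfold stA
      rw [if_neg fun h3 => h ⟨w, hw, h3⟩]
      norm_num
  rw [Finset.sum_product]
  have h2 : ∀ i : Fin N, ∑ y ∈ range Ls ×ˢ W, stA wt x P m n (sc i) y.1 y.2 D ^ 2 ≤ Ls := by
    intro i
    rw [Finset.sum_product]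
    refine (Finset.sum_le_card_nsmul _ _ 1 fun t _ => h1 (sc i) t).trans ?_
    rw [Finset.card_range, nsmul_eq_mul, mul_one]
  refine (Finset.sum_le_card_nsmul _ _ _ fun i _ => h2 i).trans ?_
  rw [Finset.card_univ, Fintype.card_fin, nsmul_eq_mul, Nat.cast_mul]

private theorem coma_prefix {σ σ' : List Op} {o : Op} (h : (σ' ++ [o]) <+: σ) :
    σ'.length < σ.length ∧ σ.take σ'.length = σ' ∧ σ.getD σ'.length opY = o := by
  obtain ⟨τ, rfl⟩ := h
  refine ⟨?_, ?_, ?_⟩
  · rw [List.length_append, List.length_append, List.length_singleton]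
    omega
  · rw [List.append_assoc, List.take_left']
    rfl
  · rw [List.append_assoc, List.getD_append_right _ _ _ _ le_rfl, Nat.sub_self]
    rfl

private theorem coma_stP {σ σ' : List Op} {T : List Word} (h : (σ' ++ [opR T]) <+: σ) {w : Word}
    {D : Itm P m n} : stP wt x P m n σ σ'.length w D ↔
      wt ((x, (σ', T)), quest x P (itmL D)) = some w := by
  obtain ⟨h1, h2, h3⟩ := coma_prefix h
  unfold stP
  rw [h2, h3]
  constructor
  · intro h4
    exact h4.2.2
  · intro h4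
    exact ⟨h1, isR_iff.2 rfl, h4⟩

private theorem coma_sum {ι : Type} [Fintype ι] {σ σ' : List Op} {T : List Word}
    (h : (σ' ++ [opR T]) <+: σ) (w : Word) (f : ι → Itm P m n) :
    ∑ i, stA wt x P m n σ σ'.length w (f i) =
      ((univ.filter fun i => wt ((x, (σ', T)), quest x P (itmL (f i))) = some w).card : ℝ) := by
  classical
  rw [Finset.card_filter, Nat.cast_sum]
  refine Finset.sum_congr rfl fun i _ => ?_
  unfold stA
  by_cases h1 : wt ((x, (σ', T)), quest x P (itmL (f i))) = some w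
  · rw [if_pos ((coma_stP h).2 h1), if_pos h1, Nat.cast_one]
  · rw [if_neg fun h2 => h1 ((coma_stP h).1 h2), if_neg h1, Nat.cast_zero]

/-- The rare test for a sample of items. -/
private theorem coma_main {ι : Type} [Fintype ι] {σ : List Op} {Γ R B nx : ℕ}
    {f : ι → Itm P m n} (hnx : 0 < nx) (hR0 : 0 < R) (hR : 3 * Γ * (B + 1) ≤ R)
    (hΓ : Fintype.card (Itm P m n) ≤
      Γ * (univ.filter fun D => alR rv x P m n σ D = true).card)
    (hrare : ∀ σ' T w, (σ' ++ [opR T]) <+: σ → w ∉ T →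
      2 * B * (univ.filter fun D : Itm P m n =>
        wt ((x, (σ', T)), quest x P (itmL D)) = some w).card ≤
        (univ.filter fun D => alR rv x P m n σ D = true).card)
    (hal : |((univ.filter fun i => alR rv x P m n σ (f i) = true).card : ℝ) / nx -
      ((univ.filter fun D => alR rv x P m n σ D = true).card : ℝ) /
        Fintype.card (Itm P m n)| ≤ 3 / 2 / R)
    {W : Finset Word} (hW : ∀ (E : Itm P m n) t w, stP wt x P m n σ t w E → w ∈ W)
    (hst : ∀ t < σ.length, ∀ w ∈ W, |(∑ i, stA wt x P m n σ t w (f i)) / nx -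
        (∑ E : Itm P m n, stA wt x P m n σ t w E) / Fintype.card (Itm P m n)| ≤ 3 / 2 / R) :
    nx ≤ 2 * Γ * (univ.filter fun i => alR rv x P m n σ (f i) = true).card ∧
    ∀ σ' T w, (σ' ++ [opR T]) <+: σ → w ∉ T →
      B * (univ.filter fun i => wt ((x, (σ', T)), quest x P
        (itmL (f i))) = some w).card ≤
          (univ.filter fun i => alR rv x P m n σ (f i) = true).card := by
  classical
  have hn : 0 < Fintype.card (Itm P m n) := Fintype.card_pos
  have hR3 : 3 * Γ ≤ R := (Nat.le_mul_of_pos_right _ (Nat.succ_pos B)).trans hR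
  refine ⟨transfer_alive hn hnx hR0 hΓ hR3 hal, fun σ' T w hσ hw => ?_⟩
  by_cases hwW : w ∈ W
  · have h1 := hst σ'.length (coma_prefix hσ).1 w hwW
    rw [coma_sum hσ w f, coma_sum hσ w (fun E : Itm P m n => E)] at h1
    exact transfer hn hnx hR0 hΓ hR (hrare σ' T w hσ hw) h1 hal
  · have h1 : (univ.filter fun i => wt ((x, (σ', T)), quest x P
        (itmL (f i))) = some w) = ∅ := by
      rw [Finset.filter_eq_empty_iff]
      intro i _ h2
      exact hwW (hW (f i) σ'.length w ((coma_stP hσ).2 h2))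
    rw [h1, Finset.card_empty, mul_zero]
    exact Nat.zero_le _

/-- The rare test for the children of an item. `W` contains all words at which some question waits. -/
theorem kid_rare {σ : List Op} {Γ R B : ℕ} {D : Itm P m n} {π : Par P m n} (hR0 : 0 < R)
    (hR : 3 * Γ * (B + 1) ≤ R)
    (hΓ : Fintype.card (Itm P m (n + 1)) ≤
      Γ * (univ.filter fun D => alR rv x P m (n + 1) σ D = true).card)
    (hrare : ∀ σ' T w, (σ' ++ [opR T]) <+: σ → w ∉ T →
      2 * B * (univ.filter fun D : Itm P m (n + 1) =>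
        wt ((x, (σ', T)), quest x P (itmL D)) = some w).card ≤
        (univ.filter fun D => alR rv x P m (n + 1) σ D = true).card)
    (hal : |((aliveK (alR rv x P m (n + 1) σ) D π).card : ℝ) / (P : ℝ) ^ 4 -
      ((univ.filter fun D => alR rv x P m (n + 1) σ D = true).card : ℝ) /
        Fintype.card (Itm P m (n + 1))| ≤ 1 / 2 / R)
    {W : Finset Word} (hW : ∀ (E : Itm P m (n + 1)) t w, stP wt x P m (n + 1) σ t w E → w ∈ W)
    (hst : ∀ t < σ.length, ∀ w ∈ W,
      |(∑ s : Seed P, ∑ c : ZMod P, stA wt x P m (n + 1) σ t w (kid D π s c)) / (P : ℝ) ^ 4 -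
        (∑ E : Itm P m (n + 1), stA wt x P m (n + 1) σ t w E) /
          Fintype.card (Itm P m (n + 1))| ≤ 1 / 2 / R) :
    P ^ 4 ≤ 2 * Γ * (aliveK (alR rv x P m (n + 1) σ) D π).card ∧
    ∀ σ' T w, (σ' ++ [opR T]) <+: σ → w ∉ T →
      B * ((univ : Finset (Seed P × ZMod P)).filter fun q => wt ((x, (σ', T)), quest x P
        (itmL (kid D π q.1 q.2))) = some w).card ≤
          (aliveK (alR rv x P m (n + 1) σ) D π).card := by
  have hP : 0 < P := Nat.pos_of_ne_zero (NeZero.ne P)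
  have hRr : (0 : ℝ) < R := Nat.cast_pos.2 hR0
  have hle : (1 : ℝ) / 2 / R ≤ 3 / 2 / R := by
    rw [div_le_div_iff_of_pos_right hRr]
    norm_num
  have hc : ((P ^ 4 : ℕ) : ℝ) = (P : ℝ) ^ 4 := Nat.cast_pow P 4
  exact coma_main (nx := P ^ 4) (ι := Seed P × ZMod P) (f := fun q => kid D π q.1 q.2)
    (pow_pos hP 4) hR0 hR hΓ hrare (by
      rw [hc]
      exact hal.trans hle) hW (fun t ht w hw => by
      rw [hc, Fintype.sum_prod_type]
      exact (hst t ht w hw).trans hle)

/-- The rare test for the items of a list. -/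
theorem list_rare {σ : List Op} {Γ R B : ℕ} {Y : Fin M → Itm P m n} (hM : 0 < M) (hR0 : 0 < R)
    (hR : 3 * Γ * (B + 1) ≤ R)
    (hΓ : Fintype.card (Itm P m n) ≤
      Γ * (univ.filter fun D => alR rv x P m n σ D = true).card)
    (hrare : ∀ σ' T w, (σ' ++ [opR T]) <+: σ → w ∉ T →
      2 * B * (univ.filter fun D : Itm P m n =>
        wt ((x, (σ', T)), quest x P (itmL D)) = some w).card ≤
        (univ.filter fun D => alR rv x P m n σ D = true).card)
    (hal : |((aliveY (alR rv x P m n σ) Y).card : ℝ) / M -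
      ((univ.filter fun D => alR rv x P m n σ D = true).card : ℝ) /
        Fintype.card (Itm P m n)| ≤ 3 / 2 / R)
    {W : Finset Word} (hW : ∀ (E : Itm P m n) t w, stP wt x P m n σ t w E → w ∈ W)
    (hst : ∀ t < σ.length, ∀ w ∈ W, |(∑ l, stA wt x P m n σ t w (Y l)) / M -
        (∑ E : Itm P m n, stA wt x P m n σ t w E) / Fintype.card (Itm P m n)| ≤ 3 / 2 / R) :
    M ≤ 2 * Γ * (aliveY (alR rv x P m n σ) Y).card ∧
    ∀ σ' T w, (σ' ++ [opR T]) <+: σ → w ∉ T →
      B * ((univ : Finset (Fin M)).filter fun l => wt ((x, (σ', T)), quest x P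
        (itmL (Y l))) = some w).card ≤ (aliveY (alR rv x P m n σ) Y).card := by
  exact coma_main (nx := M) (ι := Fin M) (f := Y) hM hR0 hR hΓ hrare hal hW hst

end Pool.Agent.Lib.MP_634427_lc.Ad
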