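import Pool.Agent.Lib.MP_634427_lc.Ad.Main
import Pool.Agent.Lib.MP_634427_lc.Maj.LtFinal
import Pool.Agent.Lib.MP_634427_lc.LT.WTuring
import Pool.Agent.Lib.MP_634427_lc.HybridUse

/-!
# P = NP if and only if a sparse set is hard for NP under weighted Turing reductions
-/

namespace Pool.Agent.Lib.MP_634427_lc.Ad

open Pool.Agent.Lib.MP_634427_lc Pool.Agent.Lib.MP_634427_lc.Maj

theorem neg_nil {A : Set Word} (hA : InP A) (k : ℕ) : NegReducible k A {([] : Word)} := by
  obtain ⟨f, hf, hfA⟩ := hA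
  refine ⟨fun _ => true, fun _ => [], fun p => f p.1, 0, PT.const _, PT.const _,
    hf.comp PT.fst, fun x => ⟨[], ?_, rfl, ?_, hfA x⟩⟩
  · have h : ∀ n, answers {([] : Word)} (fun _ => true) (fun _ => []) n = [] := by
      intro n
      induction n with
      | zero => rfl
      | succ n ih =>
        show (if (true : Bool) = true then answers {([] : Word)} (fun _ => true)
          (fun _ => []) n else _) = []
        rw [if_pos rfl, ih]
    exact (h _).symm
  · exact Nat.zero_le _

/-- All equivalences for weighted Turing reductions. -/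
theorem collapse_weighted :
    ((∃ S : Set Word, Sparse S ∧ ∀ A : Set Word, InNP A → WeightedReducible A S) ↔
      ∀ L : Set Word, InNP L ↔ InP L) ∧
    ((∃ S : Set Word, Sparse S ∧ ∀ A : Set Word, InNP A → ∃ k, NegReducible k A S) ↔
      ∀ L : Set Word, InNP L ↔ InP L) ∧
    ((∃ S : Set Word, Sparse S ∧ ∀ A : Set Word, InNP A → DisjReducible A S) ↔
      ∀ L : Set Word, InNP L ↔ InP L) ∧
    ((∃ S : Set Word, Sparse S ∧ ∀ A : Set Word, InNP A → MajReducible A S) ↔
      ∀ L : Set Word, InNP L ↔ InP L) ∧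
    ((∃ B : Set Word, ThresholdGates B ∧ ∀ A : Set Word, InNP A → ManyOneReducible A B) ↔
      ∀ L : Set Word, InNP L ↔ InP L) := by
  have key : (∃ S : Set Word, Sparse S ∧ ∀ A : Set Word, InNP A → WeightedReducible A S) →
      ∀ L : Set Word, InNP L ↔ InP L := by
    rintro ⟨S, hS, hard⟩ L
    exact ⟨inP_of_weighted S hS hard L, inP_imp_inNP L⟩
  refine ⟨⟨key, fun h => ?_⟩, ⟨?_, fun h => ?_⟩, collapse_votes.1, collapse_votes.2.1,
    collapse_votes.2.2.2⟩
  · exact ⟨_, sparse_nil, fun A hA =>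
      weighted_of_wvote (wvote_of_disj sparse_nil (disj_nil ((h A).1 hA)))⟩
  · rintro ⟨S, hS, hard⟩
    refine key ⟨S, hS, fun A hA => ?_⟩
    obtain ⟨k, hk⟩ := hard A hA
    exact weighted_of_hybrid (hybrid_of_neg hk)
  · exact ⟨_, sparse_nil, fun A hA => ⟨0, neg_nil ((h A).1 hA) 0⟩⟩

end Pool.Agent.Lib.MP_634427_lc.Ad
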