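import Pool.Agent.Lib.MP_634427_lc.Ad.RightB

/-!
# For every oracle one leaf of a closed tree is right

Induction on the number `j` of blocks left. Let `(σ, (T, j))` be the key of a node that is right for
`S`. If `j = 0` the leaf `σ ++ [opY]` is right (`opY_right`). Otherwise let `i` be the largest number
`≤ r = chain.length` such that the first `i` words of the chain are in `S`. They are different, short,
and `< P0` short words are in `S`, so `i < P0`. Kind 2: the leaf `σ ++ [opH T_i]`. Kind 0: `i < r`, the
next word of the chain is not in `S`, `opN_right`. Kind 1: `i = r`, `opR_right`; the second alternative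
is the new error set. Then the block: if for some `t < q` some word of `Fs t` is in `S`, take the least
such `t` and such a word `w`: child `.. ++ (fops Fs t ++ [opJ w])` (`fops_right`, `opJ_right`).
Otherwise the child `.. ++ fops Fs q` (`fops_right`, `free_of_long`). The error set only grows when the
script gets longer.
-/

namespace Pool.Agent.Lib.MP_634427_lc.Ad

open Pool.Agent.Lib.MP_634427_lc Pool.Agent.Lib.MP_634427_lc.KNo

variable {next : Word → List Bool → Option Word} {S : Set Word} {ℓ q k : ℕ}

/-- The error set grows with the script. -/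
theorem Err.mono {σ τ : List Op} (h : σ <+: τ) {r : Word} (he : Err next ℓ q S σ r) :
    Err next ℓ q S τ r := by
  obtain ⟨σ', T, z, h1, h2⟩ := he
  exact ⟨σ', T, z, h1.trans h, h2⟩

private lemma right_run_split {σ τ : List Op} {r : Word} {e' : Item}
    (h : run next ℓ q (σ ++ τ) r = some e') : ∃ e, run next ℓ q σ r = some e ∧
      τ.foldl (fun x o => x.bind (opr next ℓ q o)) (some e) = some e' := by
  rw [run_append] at h
  rcases hr : run next ℓ q σ r with _ | e
  · rw [hr] at h
    exfalso
    have h1 : ∀ l : List Op, l.foldl (fun x o => x.bind (opr next ℓ q o)) none = none := by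
      intro l
      induction l with
      | nil => rfl
      | cons a l ih => rw [List.foldl_cons, Option.bind_none, ih]
    rw [h1] at h
    cases h
  · rw [hr] at h
    exact ⟨e, rfl, h⟩

private lemma right_run_snoc {σ : List Op} {o : Op} {r : Word} {e' : Item}
    (h : run next ℓ q (σ ++ [o]) r = some e') : ∃ e, run next ℓ q σ r = some e ∧
      opr next ℓ q o e = some e' := by
  obtain ⟨e, h1, h2⟩ := right_run_split h
  exact ⟨e, h1, h2⟩

/-- The key of a node is right. -/
private def RtN (next : Word → List Bool → Option Word) (S : Set Word) (ℓ q k : ℕ) (σ : List Op)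
    (j : ℕ) : Prop :=
  ∀ r, Fit next S ℓ q k r → ∀ e, run next ℓ q σ r = some e →
    (Good next S e ∧ free next e = false ∧ k ≤ j + turns next e) ∨ Err next ℓ q S σ r

/-- The beginning of a block is right. -/
private def RtB (next : Word → List Bool → Option Word) (S : Set Word) (ℓ q k : ℕ) (σ : List Op)
    (j : ℕ) : Prop :=
  ∀ r, Fit next S ℓ q k r → ∀ e, run next ℓ q σ r = some e →
    (Good next S e ∧ k ≤ j + turns next e) ∨ Err next ℓ q S σ r

private lemma right_block {σ : List Op} {j : ℕ} (hB : RtB next S ℓ q k σ j) {K : List Key}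
    {T : List Word} {Fs : List (List Word)} (h : blockOK q K σ T j Fs = true) :
    ∃ τ, ((τ, (T, j)) : Key) ∈ K ∧ RtN next S ℓ q k τ j := by
  classical
  unfold blockOK at h
  rw [Bool.and_eq_true, decide_eq_true_eq, List.all_eq_true] at h
  obtain ⟨h1, h2⟩ := h
  by_cases hex : ∃ t, t < q ∧ ∃ w ∈ Fs.getD t [], w ∈ S
  · set t := Nat.find hex with ht
    obtain ⟨htq, w, hw, hwS⟩ := Nat.find_spec hex
    have hmin : ∀ i < t, ∀ w ∈ Fs.getD i [], w ∉ S := by
      intro i hi w hw hwS
      exact Nat.find_min hex hi ⟨by omega, w, hw, hwS⟩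
    have h3 := h2 t (List.mem_range.2 htq)
    rw [List.all_eq_true] at h3
    have h4 := h3 w hw
    rw [decide_eq_true_eq] at h4
    refine ⟨_, h4, ?_⟩
    intro r hr e' he'
    obtain ⟨e0, a1, a2⟩ := right_run_split he'
    rcases hB r hr e0 a1 with ⟨b1, b2⟩ | b
    · left
      rw [List.foldl_append, List.foldl_cons, List.foldl_nil] at a2
      obtain ⟨e1, a3, a4⟩ := Option.bind_eq_some_iff.1 a2
      obtain ⟨c1, c2, -⟩ := fops_right hmin b1 a3
      obtain ⟨d1, d2, d3⟩ := opJ_right hwS c1 a4
      exact ⟨d1, d3, by omega⟩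
    · exact Or.inr (b.mono (List.prefix_append _ _))
  · refine ⟨_, h1, ?_⟩
    intro r hr e' he'
    obtain ⟨e0, a1, a2⟩ := right_run_split he'
    rcases hB r hr e0 a1 with ⟨b1, b2⟩ | b
    · left
      obtain ⟨c1, c2, c3⟩ := fops_right (fun i hi w hw hwS => hex ⟨i, hi, w, hw, hwS⟩) b1 a2
      exact ⟨c1, free_of_long hr (run_fst he') c1 c3, by omega⟩
    · exact Or.inr (b.mono (List.prefix_append _ _))

private lemma right_chain (S : Set Word) (c : List Word) : ∃ i, i ≤ c.length ∧
    (∀ w ∈ c.take i, w ∈ S) ∧ (i < c.length → c.getD i [] ∉ S) := by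
  induction c with
  | nil => exact ⟨0, le_rfl, by simp, by simp⟩
  | cons a c ih =>
    by_cases ha : a ∈ S
    · obtain ⟨i, h1, h2, h3⟩ := ih
      refine ⟨i + 1, by simpa using h1, ?_, ?_⟩
      · intro w hw
        rw [List.take_succ_cons, List.mem_cons] at hw
        rcases hw with rfl | hw
        · exact ha
        · exact h2 w hw
      · intro h
        rw [List.getD_cons_succ]
        exact h3 (by simpa using h)
    · exact ⟨0, Nat.zero_le _, by simp, fun _ => by simpa using ha⟩

private lemma right_main {F : Finset Word} (hF : ∀ w ∈ S, w.length ≤ ℓ → w ∈ F) {P0 : ℕ}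
    (hP : F.card < P0) {Ns : List TNode} {Lv : List (List Op)}
    (h : allOK ℓ q P0 Ns Lv = true) (j : ℕ) : ∀ (σ : List Op) (T : List Word),
      ((σ, (T, j)) : Key) ∈ Ns.map (fun N => N.1) → (∀ w ∈ T, w ∈ S) → RtN next S ℓ q k σ j →
    ∃ σ ∈ Lv, ∀ r, Fit next S ℓ q k r → ∀ e, run next ℓ q σ r = some e →
      (Good next S e ∧ next e.1 e.2 = none) ∨ Err next ℓ q S σ r := by
  classical
  induction j with
  | zero =>
    intro σ T hK hT hR
    obtain ⟨N, hN, hN1⟩ := List.mem_map.1 hK
    have h1 : nodeOK ℓ q P0 (Ns.map fun N => N.1) Lv N = true := (List.all_eq_true.1 h) N hN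
    unfold nodeOK at h1
    rw [hN1] at h1
    simp only [beq_self_eq_true, cond_true, decide_eq_true_eq] at h1
    refine ⟨_, h1, ?_⟩
    intro r hr e' he'
    obtain ⟨e, a1, a2⟩ := right_run_snoc he'
    rcases hR r hr e a1 with ⟨b1, b2, b3⟩ | b
    · exact Or.inl (opY_right hr (run_fst a1) b1 (by omega) b2 a2)
    · exact Or.inr (b.mono (List.prefix_append _ _))
  | succ j ih =>
    intro σ T hK hT hR
    obtain ⟨N, hN, hN1⟩ := List.mem_map.1 hK
    have h1 : nodeOK ℓ q P0 (Ns.map fun N => N.1) Lv N = true := (List.all_eq_true.1 h) N hN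
    unfold nodeOK at h1
    rw [hN1] at h1
    have e0 : ((j + 1 : ℕ) == 0) = false := rfl
    simp only [e0, cond_false] at h1
    rw [Bool.and_eq_true, Bool.and_eq_true, decide_eq_true_eq] at h1
    obtain ⟨hnd, hall, hbr⟩ := h1
    rw [List.all_eq_true] at hall hbr
    obtain ⟨i, hi1, hi2, hi3⟩ := right_chain S N.2.1
    have hiP : i < P0 := by
      have a1 : (N.2.1.take i).toFinset ⊆ F := by
        intro w hw
        rw [List.mem_toFinset] at hw
        refine hF w (hi2 w hw) ?_
        have a2 := hall w (List.mem_of_mem_take hw)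
        rw [Bool.and_eq_true] at a2
        simpa using a2.2
      have a3 := Finset.card_le_card a1
      rw [List.toFinset_card_of_nodup (hnd.sublist (List.take_sublist _ _)), List.length_take,
        min_eq_left hi1] at a3
      omega
    have hb := hbr i (List.mem_range.2 (by omega))
    rw [Bool.or_eq_true, decide_eq_true_eq] at hb
    rcases hb with hb | hb
    · omega
    have hTi : ∀ w ∈ N.2.1.take i ++ T, w ∈ S := by
      intro w hw
      rcases List.mem_append.1 hw with hw | hw
      · exact hi2 w hw
      · exact hT w hw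
    unfold branchOK at hb
    rw [hN1] at hb
    simp only [Nat.add_sub_cancel] at hb
    cases hc2 : ((N.2.2.getD i (2, [])).1 == 2)
    · rw [hc2, cond_false] at hb
      cases hc0 : ((N.2.2.getD i (2, [])).1 == 0)
      · rw [hc0, cond_false, Bool.and_eq_true] at hb
        obtain ⟨-, hb⟩ := hb
        have hB : RtB next S ℓ q k (σ ++ [opR (N.2.1.take i ++ T)]) j := by
          intro r hr e' he'
          obtain ⟨e, a1, a2⟩ := right_run_snoc he'
          rcases hR r hr e a1 with ⟨b1, b2, b3⟩ | b
          · rcases opR_right hr hTi (run_fst a1) b1 b2 a2 with ⟨c1, c2⟩ | ⟨z, c1, c2, c3, c4⟩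
            · exact Or.inl ⟨c1, by omega⟩
            · refine Or.inr ⟨σ, N.2.1.take i ++ T, z, List.prefix_rfl, c1, c2, c3, ?_⟩
              unfold waits
              rw [a1]
              exact decide_eq_true c4
          · exact Or.inr (b.mono (List.prefix_append _ _))
        obtain ⟨τ, d1, d2⟩ := right_block hB hb
        exact ih τ _ d1 hTi d2
      · rw [hc0, cond_true, Bool.and_eq_true, decide_eq_true_eq] at hb
        obtain ⟨hlt, hb⟩ := hb
        have hB : RtB next S ℓ q k
            (σ ++ [opN (N.2.1.take i ++ T) (N.2.1.getD i [])]) j := by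
          intro r hr e' he'
          obtain ⟨e, a1, a2⟩ := right_run_snoc he'
          rcases hR r hr e a1 with ⟨b1, b2, b3⟩ | b
          · obtain ⟨c1, c2⟩ := opN_right hTi (hi3 hlt) b1 b2 a2
            exact Or.inl ⟨c1, by omega⟩
          · exact Or.inr (b.mono (List.prefix_append _ _))
        obtain ⟨τ, d1, d2⟩ := right_block hB hb
        exact ih τ _ d1 hTi d2
    · rw [hc2, cond_true, decide_eq_true_eq] at hb
      refine ⟨_, hb, ?_⟩
      intro r hr e' he'
      obtain ⟨e, a1, a2⟩ := right_run_snoc he'
      rcases hR r hr e a1 with ⟨b1, b2, b3⟩ | b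
      · exact Or.inl (opH_right hTi b1 a2)
      · exact Or.inr (b.mono (List.prefix_append _ _))

/-- One leaf is right for the oracle `S`. -/
theorem exists_leaf {F : Finset Word} (hF : ∀ w ∈ S, w.length ≤ ℓ → w ∈ F) {P0 : ℕ}
    (hP : F.card < P0) {Ns : List TNode} {Lv : List (List Op)}
    (h : closed ℓ q P0 k Ns Lv = true) :
    ∃ σ ∈ Lv, ∀ r, Fit next S ℓ q k r → ∀ e, run next ℓ q σ r = some e →
      (Good next S e ∧ next e.1 e.2 = none) ∨ Err next ℓ q S σ r := by
  unfold closed at h
  rw [Bool.and_eq_true, decide_eq_true_eq] at h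
  obtain ⟨h1, h2⟩ := h
  refine right_main hF hP h2 k [] [] h1 (by simp) ?_
  intro r hr e he
  cases he
  left
  refine ⟨?_, ?_, ?_⟩
  · exact Good.nil r
  · rfl
  · omega

end Pool.Agent.Lib.MP_634427_lc.Ad
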