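import Pool.Agent.Lib.MP_634427_lc.Ad.Use
import Pool.Agent.Lib.MP_634427_lc.Ad.Right
import Pool.Agent.Lib.MP_634427_lc.Maj.SizeN
import Pool.Agent.Lib.MP_634427_lc.LT.VecPT
import Pool.Agent.Lib.MP_634427_lc.LT.Weighted

/-!
# Adaptive version: the data of a reduction

As in `projCands_of_weighted` (LT/Weighted) and `exists_vec` (Maj/LtVec). `nx (r, l) = nxt stop query`,
`q z = qlen z ^ c + c`, `V (z, (r, l)) = LT.wvec _ k _ (out (r, l.take (q z)))`, so that the entries are
bounded for all `l`.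
-/

namespace Pool.Agent.Lib.MP_634427_lc.Ad

open Pool.Agent.Lib.MP_634427_lc Pool.Agent.Lib.MP_634427_lc.KNo Pool.Agent.Lib.MP_634427_lc.Maj

private lemma vc_abs (L : List LT.Num) (i : ℕ) : |LT.nval (L.getD i ([], []))| ≤ 2 ^ sz L := by
  rw [List.getD_eq_getElem?_getD]
  rcases h : L[i]? with _ | a
  · simp [LT.nval]
  · have h1 := sz_mem_le (List.mem_of_getElem? h)
    have h2 := LT.wid_le_sz a
    refine (LT.abs_nval_lt a).le.trans ?_
    exact pow_le_pow_right₀ (by norm_num) (by omega)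

private lemma vc_qlen {γ : Type} [Enc γ] {z : γ → ℕ} (hz : PT z) : PT fun a => qlen (z a) :=
  PT.add (PT.add (PT.add (PT.mul (PT.const 4) (PT.pow hz 3)) (PT.mul (PT.const 2) (PT.pow hz 2)))
    (PT.mul (PT.const 10) hz)) (PT.const 5)

/-- The data of a reduction. -/
theorem exists_data {A S : Set Word} (hS : Sparse S) (h : WeightedReducible A S) :
    ∃ (nx : Word × List Bool → Option Word) (V : ℕ × (Word × List Bool) → List LT.Num)
      (p q ℓ P0 b : ℕ → ℕ) (k : ℕ), PT nx ∧ PT V ∧ PT p ∧ PT q ∧ PT ℓ ∧ PT P0 ∧ PT b ∧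
      (∀ z, 0 < p z) ∧ (∀ z, {w ∈ S | w.length ≤ ℓ z}.ncard < P0 z) ∧
      (∀ z r tr s, r.length ≤ qlen z → tr.length ≤ (k * (q z + 2) + 2) * (q z + 1) →
        nx (r, tr) = some s → s.length ≤ ℓ z) ∧
      (∀ z r, r.length ≤ qlen z → Fit (nxF nx) S (ℓ z) (q z) k r) ∧
      (∀ z r tr, r.length ≤ qlen z → ∀ i,
        |LT.nval ((V (z, (r, tr))).getD i ([], []))| ≤ 2 ^ b z) ∧
      ∀ z, ∃ w : Fin (p z) → ℤ, (∀ j, |w j| ≤ 1) ∧ ∀ r tr, r.length ≤ qlen z →
        Good (nxF nx) S (r, tr) → nx (r, tr) = none →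
        (r ∈ A → 0 < ∑ j, w j * vecZ (p z) (V (z, (r, tr))) j) ∧
        (r ∉ A → ∑ j, w j * vecZ (p z) (V (z, (r, tr))) j < 0) := by
  classical
  obtain ⟨k, stop, query, out, d, c, hstop, hquery, hout, hdm, hSd, hred⟩ := h
  obtain ⟨cs, hcs⟩ := hS
  let nx : Word × List Bool → Option Word := fun e =>
    nxt (fun l => stop (e.1, l)) (fun l => query (e.1, l)) e.2
  have hnx : PT nx := PT.cond hstop (PT.const none) (PT.some hquery)
  let q : ℕ → ℕ := fun z => qlen z ^ c + c
  have hq : PT q := PT.add (PT.pow (vc_qlen PT.id) c) (PT.const c)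
  let M : ℕ → ℕ := fun z => (k * (q z + 2) + 2) * (q z + 1)
  have hM : PT M := PT.mul (PT.add (PT.mul (PT.const k) (PT.add hq (PT.const 2))) (PT.const 2))
    (PT.succ hq)
  have hqM : ∀ z, q z ≤ M z := by
    intro z
    have h1 : 1 * (q z + 1) ≤ (k * (q z + 2) + 2) * (q z + 1) :=
      Nat.mul_le_mul_right _ (by omega)
    show q z ≤ (k * (q z + 2) + 2) * (q z + 1)
    omega
  -- sizes
  obtain ⟨kn, hkn⟩ := hnx.size_le
  obtain ⟨ko, hko⟩ := hout.size_le
  let ℓ : ℕ → ℕ := fun z => (2 * qlen z + 2 * M z + 1 + 2) ^ (kn + ko) + qlen z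
  have hℓ : PT ℓ := PT.add (PT.pow (PT.add (PT.succ (PT.add (PT.mul (PT.const 2)
    (vc_qlen PT.id)) (PT.mul (PT.const 2) hM))) (PT.const 2)) (kn + ko)) (vc_qlen PT.id)
  have hqℓ : ∀ z, qlen z ≤ ℓ z := fun z => Nat.le_add_left _ _
  have hℓn : ∀ z r tr, r.length ≤ qlen z → tr.length ≤ M z → sz (nx (r, tr)) ≤ ℓ z := by
    intro z r tr hr htr
    have h3 := hkn (r, tr)
    rw [sz_pair] at h3
    have h4 := sz_word_le r
    have h5 := sz_word_le tr
    have h8 : (sz r + sz tr + 1 + 2) ^ kn ≤ (2 * qlen z + 2 * M z + 1 + 2) ^ (kn + ko) :=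
      (Nat.pow_le_pow_left (by omega) kn).trans (Nat.pow_le_pow_right (by omega) (by omega))
    exact h3.trans (h8.trans (Nat.le_add_right _ _))
  have hℓo : ∀ z r tr, r.length ≤ qlen z → tr.length ≤ M z → sz (out (r, tr)) ≤ ℓ z := by
    intro z r tr hr htr
    have h3 := hko (r, tr)
    rw [sz_pair] at h3
    have h4 := sz_word_le r
    have h5 := sz_word_le tr
    have h8 : (sz r + sz tr + 1 + 2) ^ ko ≤ (2 * qlen z + 2 * M z + 1 + 2) ^ (kn + ko) :=
      (Nat.pow_le_pow_left (by omega) ko).trans (Nat.pow_le_pow_right (by omega) (by omega))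
    exact h3.trans (h8.trans (Nat.le_add_right _ _))
  have hshort : ∀ z r tr s, r.length ≤ qlen z → tr.length ≤ M z → nx (r, tr) = some s →
      s.length ≤ ℓ z := by
    intro z r tr s hr htr hs
    have h3 := hℓn z r tr hr htr
    rw [hs, sz_some] at h3
    have h7 := length_le_sz s
    omega
  let P0 : ℕ → ℕ := fun z => ℓ z ^ cs + cs + 1
  have hP0 : PT P0 := PT.succ (PT.add (PT.pow hℓ cs) (PT.const cs))
  let Q : ℕ → ℕ := fun z => ℓ z ^ c + c
  have hQ : PT Q := PT.add (PT.pow hℓ c) (PT.const c)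
  -- the bundles inside `S`
  let Fs : ℕ → Finset Word := fun z => (finite_words S (ℓ z)).toFinset
  let T : ℕ → Finset (List Word) := fun z =>
    (listsOf (Fs z) (d (ℓ z))).filter fun κ => sz κ ≤ ℓ z
  have hTcard : ∀ z, (T z).card ≤ Q z := by
    intro z
    refine (Finset.card_filter_le _ _).trans ((card_listsOf_le _ _).trans ?_)
    have h1 := hSd (ℓ z)
    rw [Set.ncard_eq_toFinset_card _ (finite_words S (ℓ z))] at h1
    exact h1
  have hTcd : ∀ z, ∀ κ ∈ T z, (LT.cd κ).length ≤ 2 * ℓ z + 1 := by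
    intro z κ hκ
    have h1 := (Finset.mem_filter.1 hκ).2
    rw [LT.length_cd]
    omega
  let pr : ℕ → ℕ := fun z => LT.nextPrime (2 * (ℓ z * (Q z * (2 * ℓ z + 1))))
  have hpr : PT pr := PT.nextPrime (PT.mul (PT.const 2) (PT.mul hℓ (PT.mul hQ
    (PT.succ (PT.mul (PT.const 2) hℓ)))))
  have hprp : ∀ z, (pr z).Prime := fun z => LT.nextPrime_prime _
  have hprbig : ∀ z, 2 * (ℓ z * (Q z * (2 * ℓ z + 1))) < pr z := fun z => LT.lt_nextPrime _
  -- the vectors
  let V : ℕ × (Word × List Bool) → List LT.Num := fun a =>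
    LT.wvec (ℓ a.1) k (pr a.1) (out (a.2.1, a.2.2.take (q a.1)))
  have hV : PT V := PT.wvec (hℓ.comp PT.fst) k (hpr.comp PT.fst) (fun a => (hprp a.1).pos)
    (hout.comp (PT.pair (PT.fst' PT.snd) (PT.take (hq.comp PT.fst) (PT.snd' PT.snd))))
  obtain ⟨kb, hkb⟩ := hV.size_le
  let b : ℕ → ℕ := fun z => (z + (2 * qlen z + 2 * q z + 1) + 1 + 2) ^ kb
  have hb : PT b := PT.pow (PT.add (PT.succ (PT.add PT.id (PT.succ (PT.add (PT.mul (PT.const 2)
    (vc_qlen PT.id)) (PT.mul (PT.const 2) hq))))) (PT.const 2)) kb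
  -- the properties of the reduction
  have hrun : ∀ z r, r.length ≤ qlen z → ∀ tr, Good (nxF nx) S (r, tr) →
      tr.length ≤ q z ∧ turns (nxF nx) (r, tr) ≤ k ∧
        (nx (r, tr) = none → (∀ e ∈ out (r, tr),
          (e.2.length ≤ k ∧ ∀ w ∈ e.2, onlyZeros w = true) ∨
            (e.2.length ≤ d (ℓ z) ∧ e.1.2 = [true])) ∧
          (r ∈ A ↔ 0 < votes S (out (r, tr)))) := by
    intro z r hr tr htr
    obtain ⟨l, hl, hstopl, hcount, hdl, hcor⟩ := hred r
    have hn : ∀ l, nxF nx r l = nxt (fun l => stop (r, l)) (fun l => query (r, l)) l :=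
      fun _ => rfl
    have htr' := good_eq_answers (S := S) (stop := fun l => stop (r, l))
      (query := fun l => query (r, l)) hn tr htr
    have hqr : r.length ^ c + c ≤ q z :=
      Nat.add_le_add_right (Nat.pow_le_pow_left hr c) c
    have hpre : tr <+: l := by
      rw [hl, htr']
      rcases le_total tr.length (r.length ^ c + c) with h | h
      · exact answers_prefix_le h
      · rw [answers_stable (by rw [← hl]; exact hstopl) _ h]
    refine ⟨?_, ?_, ?_⟩
    · refine hpre.length_le.trans ?_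
      rw [hl]
      exact (length_answers_le _).trans hqr
    · refine (turns_mono r hpre).trans ?_
      have h1 : Good (nxF nx) S (r, l) := by
        rw [hl]
        exact good_answers (stop := fun l => stop (r, l))
          (query := fun l => query (r, l)) hn _
      rw [turns_eq_noBlocks (stop := fun l => stop (r, l))
        (query := fun l => query (r, l)) hn h1]
      exact hcount
    · intro hnone
      have hst : stop (r, tr) = true := nxt_eq_none.1 hnone
      have hlen : tr.length ≤ r.length ^ c + c := by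
        refine hpre.length_le.trans ?_
        rw [hl]; exact length_answers_le _
      have heq : l = tr := by
        rw [hl]
        have h2 := answers_stable (S := S) (stop := fun l => stop (r, l))
          (query := fun l => query (r, l)) (n := tr.length) (by rw [← htr']; exact hst)
          _ hlen
        rw [h2, ← htr']
      rw [heq] at hdl hcor
      refine ⟨fun e he => ?_, hcor⟩
      rcases hdl e he with h | ⟨h1, h2⟩
      · exact Or.inl h
      · exact Or.inr ⟨h1.trans (hdm (hr.trans (hqℓ z))), h2⟩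
  refine ⟨nx, V, fun z => LT.wdim (ℓ z) k (pr z), q, ℓ, P0, b, k, hnx, hV, PT.wdim hℓ k hpr, hq,
    hℓ, hP0, hb, fun z => Nat.succ_pos _, fun z => Nat.lt_succ_of_le (hcs (ℓ z)), hshort, ?_, ?_,
    ?_⟩
  · intro z r hr
    refine ⟨fun tr h => (hrun z r hr tr h).1, fun tr h => (hrun z r hr tr h).2.1, ?_⟩
    intro tr s h hs
    exact hshort z r tr s hr ((hrun z r hr tr h).1.trans (hqM z)) hs
  · intro z r tr hr i
    have h0 : V (z, (r, tr)) = V (z, (r, tr.take (q z))) := by
      show LT.wvec (ℓ z) k (pr z) (out (r, tr.take (q z))) =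
        LT.wvec (ℓ z) k (pr z) (out (r, (tr.take (q z)).take (q z)))
      rw [List.take_take, min_self]
    rw [h0]
    refine (vc_abs _ i).trans (pow_le_pow_right₀ (by norm_num) ?_)
    refine (hkb (z, (r, tr.take (q z)))).trans (Nat.pow_le_pow_left ?_ kb)
    have h1 := sz_word_le r
    have h2 := sz_word_le (tr.take (q z))
    have h3 : (tr.take (q z)).length ≤ q z := List.length_take_le _ _
    rw [sz_pair, sz_pair, sz_nat]
    omega
  · intro z
    refine ⟨fun i => (LT.wfun S (T z) (ℓ z) k (pr z)).getD i.val 0,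
      fun i => LT.abs_wfun_le _ _ _ _ _ _, ?_⟩
    intro r tr hr hg hnone
    obtain ⟨h1, _, h3⟩ := hrun z r hr tr hg
    obtain ⟨h4, h5⟩ := h3 hnone
    have hV0 : V (z, (r, tr)) = LT.wvec (ℓ z) k (pr z) (out (r, tr)) := by
      show LT.wvec (ℓ z) k (pr z) (out (r, tr.take (q z))) = _
      rw [List.take_of_length_le h1]
    have hszv := hℓo z r tr hr (h1.trans (hqM z))
    have hout' : ∀ e ∈ out (r, tr), e.2 ∈ LT.keysT (ℓ z) k ∨
        (e.1.2 = [true] ∧ (e.2 ∈ T z ↔ ∀ w ∈ e.2, w ∈ S) ∧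
          (LT.cd e.2).length ≤ 2 * ℓ z + 1) := by
      intro e he
      have h6 := sz_mem_le he
      rw [sz_prod] at h6
      have h7 : ∀ w ∈ e.2, w.length ≤ ℓ z := by
        intro w hw
        have h7 := sz_mem_le hw
        have h8 := length_le_sz w
        omega
      rcases h4 e he with ⟨h8, h9⟩ | ⟨h8, h9⟩
      · exact Or.inl (LT.mem_keysT.2 ⟨h8, fun w hw => ⟨h9 w hw, h7 w hw⟩⟩)
      · right
        refine ⟨h9, ⟨fun h w hw => ?_, fun h => ?_⟩, ?_⟩
        · have := of_mem_listsOf _ _ _ (Finset.mem_filter.1 h).1 w hw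
          simp only [Fs, Set.Finite.mem_toFinset] at this
          exact this.1
        · refine Finset.mem_filter.2 ⟨mem_listsOf _ _ _ h8 fun w hw => ?_, by omega⟩
          simp only [Fs, Set.Finite.mem_toFinset]
          exact ⟨h w hw, h7 w hw⟩
        · rw [LT.length_cd]
          omega
    have hbig : 2 * ((out (r, tr)).length * ((T z).card * (2 * ℓ z + 1))) < pr z := by
      refine lt_of_le_of_lt ?_ (hprbig z)
      exact Nat.mul_le_mul_left _ (Nat.mul_le_mul ((length_le_sz _).trans hszv)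
        (Nat.mul_le_mul_right _ (hTcard z)))
    have hsum : ∑ i : Fin (LT.wdim (ℓ z) k (pr z)),
        (LT.wfun S (T z) (ℓ z) k (pr z)).getD i.val 0 *
          vecZ (LT.wdim (ℓ z) k (pr z)) (V (z, (r, tr))) i =
        ∑ i ∈ Finset.range (LT.wdim (ℓ z) k (pr z)),
          (LT.wfun S (T z) (ℓ z) k (pr z)).getD i 0 *
            LT.nval ((LT.wvec (ℓ z) k (pr z) (out (r, tr))).getD i ([], [])) := by
      rw [hV0]
      exact (Finset.sum_range fun i => (LT.wfun S (T z) (ℓ z) k (pr z)).getD i 0 *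
        LT.nval ((LT.wvec (ℓ z) k (pr z) (out (r, tr))).getD i ([], []))).symm
    constructor
    · intro hA
      have h6 := LT.pairing_sign (lam := 2 * ℓ z + 1) (hprp z) (hTcd z) hout' hbig true
        (by simpa using h5.1 hA)
      rw [hsum]
      simp only [sgn, if_true, one_mul] at h6
      exact h6
    · intro hA
      have h6 := LT.pairing_sign (lam := 2 * ℓ z + 1) (hprp z) (hTcd z) hout' hbig false
        (by simpa using fun h => hA (h5.2 h))
      rw [hsum]
      simp only [sgn, Bool.false_eq_true, if_false] at h6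
      linarith

end Pool.Agent.Lib.MP_634427_lc.Ad
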