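import Pool.Agent.Lib.MP_634427_lc.Ad.CheckComplete
import Pool.Agent.Lib.MP_634427_lc.Ad.CheckPT
import Pool.Agent.Lib.MP_634427_lc.Ad.CheckSound
import Pool.Agent.Lib.MP_634427_lc.Ad.Vec
import Pool.Agent.Lib.MP_634427_lc.Maj.Gap
import Pool.Agent.Lib.MP_634427_lc.Maj.Quest

/-!
# NP = coNP and P = NP from hard sparse sets for weighted Turing reductions
-/

namespace Pool.Agent.Lib.MP_634427_lc.Ad

open Pool.Agent.Lib.MP_634427_lc Pool.Agent.Lib.MP_634427_lc.KNo Pool.Agent.Lib.MP_634427_lc.Maj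

/-- The loss of mass is positive. -/
theorem one_le_Gam (B q ℓ j : ℕ) : 1 ≤ Gam B q ℓ j := by
  induction j with
  | zero => exact le_rfl
  | succ j ih =>
    have h1 : 0 < thB q ℓ * Gam B q ℓ j := Nat.mul_pos (Nat.succ_pos _) ih
    exact Nat.mul_pos (Nat.succ_pos _) h1

/-- The number of items. -/
theorem card_itm_le {P m n z : ℕ} [NeZero P] (hP : P < 2 ^ z) (hn : n ≤ m + 2) (hm : m + 2 ≤ z) :
    Fintype.card (Itm P m n) ≤ 2 ^ cW z := by
  have h1 : Fintype.card (Itm P m n) = (P ^ m * P) ^ n := by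
    rw [Fintype.card_fun, Fintype.card_fin, Fintype.card_prod, Fintype.card_fun, Fintype.card_fin,
      ZMod.card]
  rw [h1, ← pow_succ, ← pow_mul]
  refine (Nat.pow_le_pow_left hP.le _).trans ?_
  rw [← pow_mul]
  refine Nat.pow_le_pow_right (by norm_num) ?_
  unfold cW
  refine Nat.mul_le_mul_left _ ?_
  rw [pow_two]
  exact Nat.mul_le_mul (by omega) (by omega)

/-- If a sparse set is hard for NP under weighted Turing reductions, then NP = coNP. -/
theorem coNP_of_weighted (S : Set Word) (hS : Sparse S)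
    (hard : ∀ A : Set Word, InNP A → WeightedReducible A S) (L : Set Word) (hL : InNP L) :
    InNP Lᶜ := by
  classical
  obtain ⟨Rel, m, hRel, hm, hLR⟩ := Small.exists_rel hL
  obtain ⟨A, hA, hAq⟩ := exists_quest hRel hm
  obtain ⟨nx, V, p, q, ℓ, P0, b, k, hnx, hV, hp, hq, hℓ, hP0, hb, hp0, hcens, hlen, hfit, hbd,
    hsg⟩ := exists_data hS (hard A hA)
  obtain ⟨gap, hgap, hgs, hgc⟩ := exists_gap (projCands_of_weighted S hS hard) hRel hm
  obtain ⟨E, hE1, hE⟩ := exists_EA hp hq hℓ hP0 k
  let z : Word → ℕ := fun x => E * (x.length + m x + 2)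
  have hz : PT z := PT.mul (PT.const E) (PT.succ (PT.succ (PT.add (PT.length PT.id) hm)))
  have hzE : ∀ x, x.length + m x + 2 ≤ z x := fun x => Nat.le_mul_of_pos_left _ hE1
  have hzE' : ∀ x, E ≤ z x := fun x => Nat.le_mul_of_pos_right _ (by omega)
  have hp' : PT fun x => p (z x) := hp.comp hz
  have hq' : PT fun x => q (z x) := hq.comp hz
  have hℓ' : PT fun x => ℓ (z x) := hℓ.comp hz
  have hP0' : PT fun x => P0 (z x) := hP0.comp hz
  have hb' : PT fun x => b (z x) := hb.comp hz
  let a : Word → Pm := fun x => ⟨p (z x), q (z x), ℓ (z x), P0 (z x), k⟩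
  let P : Word → ℕ := fun x => (a x).P (z x)
  let M : Word → ℕ := fun x => (a x).M
  let k0 : Word → ℕ := fun x => (a x).k0 (z x)
  let u : Word → ℕ := fun x => uW (p (z x)) (b (z x)) (z x)
  let A0 : Word → ℕ := fun x => (a x).A0
  let Bc : Word → ℕ := fun x => (a x).Bc
  let Ls : Word → ℕ := fun x => (a x).Ls
  have hprime : ∀ x, (P x).Prime := fun x => (a x).prime_P (z x)
  have hPT : PT P := pt_P hp' hq' hℓ' hP0' hz k
  have hMT : PT M := pt_M hp' hq' hℓ' hP0' k
  have hkT : PT k0 := pt_k0 hp' hq' hℓ' hP0' hz k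
  have huT : PT u := PT_uW hp' hb' hz
  have hAT : PT A0 := pt_A0 hp' hq' hℓ' hP0' k
  have hBT : PT Bc := pt_Bc hp' hq' hP0' k
  have hLT : PT Ls := pt_Ls hq' k
  have hqlen : ∀ x, ∀ n ≤ m x + 2, ∀ D : Itm (P x) (m x) n,
      (quest x (P x) (itmL D)).length ≤ qlen (z x) := by
    intro x n hn D
    have : NeZero (P x) := ⟨(hprime x).ne_zero⟩
    have h1 := hzE x
    exact length_quest_le D (hE _ (hzE' x)) hn (by omega) (by omega)
  let W : Word → ℕ := fun x => alen (a x).tb (a x).N (p (z x)) (u x) (M x) (P x) (m x)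
  have hW : PT W := by
    have h1 : PT fun x => m x + 3 := PT.add hm (PT.const 3)
    have h2 : PT fun x => (a x).tb := pt_tb hq' hℓ' hP0' k
    have h3 : PT fun x => (a x).N := pt_N hq' hℓ' hP0' k
    have h4 : PT fun x => nlen (P x) (m x) :=
      PT.mul (PT.mul (PT.const 8) (PT.pow h1 2)) (PT.pow (PT.add hPT (PT.const 1)) 4)
    have h5 : PT fun x => p (z x) * (u x + 1) + 1 :=
      PT.add (PT.mul hp' (PT.add huT (PT.const 1))) (PT.const 1)
    have h6 : PT fun x => p (z x) * (p (z x) * (2 * u x + 4) + 1) :=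
      PT.mul hp' (PT.add (PT.mul hp' (PT.add (PT.mul (PT.const 2) huT) (PT.const 4)))
        (PT.const 1))
    have h7 : PT fun x => llen (a x).tb (p (z x)) (u x) (M x) (P x) :=
      PT.add (PT.add (PT.add (PT.add h2 h6) (PT.mul hMT h5)) (PT.mul hMT
        (PT.add (PT.mul (PT.pow hPT 4) h5) (PT.const 1)))) (PT.const 3)
    exact PT.mul h1 (PT.add (PT.add (PT.add h2 (PT.mul h3 (PT.add h7 (PT.const 1))))
      (PT.mul hMT (PT.add h4 (PT.const 1)))) (PT.const 3))
  obtain ⟨e, he⟩ := hW.size_le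
  have hdI : Small.HasDec IL := Small.hasDec_list (Small.hasDec_list Small.hasDec_nat)
  have hdL : Small.HasDec (List ℕ) := Small.hasDec_list Small.hasDec_nat
  have hdN : Small.HasDec Node := Small.hasDec_prod (Small.hasDec_prod hdI
    (Small.hasDec_prod (Small.hasDec_prod hdL hdL) hdI)) hdL
  have hdw : Small.HasDec Word := Small.hasDec_list Small.hasDec_bool
  have hdW : Small.HasDec (List Word) := Small.hasDec_list hdw
  have hdO : Small.HasDec (List Op) := Small.hasDec_list (Small.hasDec_prod Small.hasDec_nat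
    (Small.hasDec_prod hdW hdw))
  have hdB : Small.HasDec (List Branch) := Small.hasDec_list (Small.hasDec_prod
    Small.hasDec_nat (Small.hasDec_list hdW))
  have hdT : Small.HasDec TNode := Small.hasDec_prod (Small.hasDec_prod hdO
    (Small.hasDec_prod hdW Small.hasDec_nat)) (Small.hasDec_prod hdW hdB)
  have hdF : Small.HasDec Leaf := Small.hasDec_prod (Small.hasDec_prod hdO
    (Small.hasDec_list (Small.hasDec_list (Small.hasDec_prod hdw hdw))))
    (Small.hasDec_prod hdI (Small.hasDec_list hdI))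
  have hdec : Small.HasDec (List ALev) := Small.hasDec_list (Small.hasDec_prod
    (Small.hasDec_prod (Small.hasDec_list hdT) (Small.hasDec_list hdF)) (Small.hasDec_list hdN))
  refine Small.inNP_of_cert hdec (checkA (rvF nx V ℓ q z) (wtF nx ℓ q z) (clF ℓ q P0 k z) gap
    m P k0 M (fun x => p (z x)) u A0 Bc Ls) (pt_checkA (pt_rvF hnx hV hℓ hq hz)
      (pt_wtF hnx hℓ hq hz) (pt_clF hℓ hq hP0 hz) hgap hm hPT hkT hMT hp' huT hAT hBT hLT)
    Lᶜ ?_ e ?_
  · intro x Y h
    have : NeZero (P x) := ⟨(hprime x).ne_zero⟩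
    rw [Set.mem_compl_iff, hLR]
    obtain ⟨w, hw1, hw2⟩ := hsg (z x)
    let F : Finset Word := (finite_words S (ℓ (z x))).toFinset
    have hFc : F.card < P0 (z x) := by
      have h1 := hcens (z x)
      rwa [Set.ncard_eq_toFinset_card _ (finite_words S (ℓ (z x)))] at h1
    have hF : ∀ w ∈ S, w.length ≤ ℓ (z x) → w ∈ F := by
      intro w h1 h2
      rw [Set.Finite.mem_toFinset]
      exact ⟨h1, h2⟩
    have hT := checkA_sound x (hprime x) (TW Rel m x) w hw1 (hp0 (z x)) F ?_ ?_
      (fun n D => hgs x (P x) (k0 x) n D) (a x).M_pos le_rfl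
      ((a x).hP' (by have := hzE x; omega)) Y h
    · rintro ⟨w, h1, h2⟩
      have h3 : (fun j : Fin (m x) => w.getD j.val false) ∈ TW Rel m x := by
        have h4 : List.ofFn (fun j : Fin (m x) => w.getD j.val false) = w := by
          refine List.ext_getElem (by simp [h1]) fun i h5 h6 => ?_
          simp [List.getD_eq_getElem?_getD, h6]
        simp only [TW, Finset.mem_filter, Finset.mem_univ, true_and, h4]
        exact h2
      rw [hT] at h3
      exact absurd h3 (Finset.notMem_empty _)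
    · intro Ns Lv hcl
      obtain ⟨σ, hσ, hr⟩ := exists_leaf hF hFc hcl
      refine ⟨σ, hσ, fun n hn D v hv => ?_⟩
      have hql := hqlen x n hn D
      unfold rvF at hv
      split at hv
      · rename_i e' he'
        cases hv
        rcases hr _ (hfit (z x) _ hql) e' he' with ⟨h1, h2⟩ | ⟨σ', T, y, h1, h2, h3, h4, h5⟩
        · left
          have h6 : e'.1 = quest x (P x) (itmL D) := run_fst he'
          obtain ⟨r, tr⟩ := e'
          simp only at h6
          subst h6
          obtain ⟨h7, h8⟩ := hw2 _ tr hql h1 h2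
          exact ⟨fun hD => h7 ((hAq x (P x) n D).2 hD),
            fun hD => h8 fun h => hD ((hAq x (P x) n D).1 h)⟩
        · right
          exact ⟨σ', T, y, h1, hF y h2 h4, h3, waits_iff.1 h5⟩
      · exact absurd hv (by simp)
    · show 144 * p (z x) ^ 2 * ((a x).Ls * F.card) < 144 * p (z x) ^ 2 * ((a x).Ls * P0 (z x)) + 1
      exact Nat.lt_succ_of_le (Nat.mul_le_mul_left _ (Nat.mul_le_mul_left _ hFc.le))
  · intro x hx
    have : Fact (P x).Prime := ⟨hprime x⟩
    have : NeZero (P x) := ⟨(hprime x).ne_zero⟩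
    rw [Set.mem_compl_iff, hLR] at hx
    have hT : TW Rel m x = ∅ := by
      refine Finset.eq_empty_of_forall_notMem fun w hw => hx ⟨List.ofFn w, by simp, ?_⟩
      simpa [TW] using hw
    have hz1 := hzE x
    have hvv : ∀ n ≤ m x + 2, ∀ (D : Itm (P x) (m x) n) σ v,
        rvF nx V ℓ q z ((x, σ), quest x (P x) (itmL D)) = some v →
          ∀ j, |vecZ (p (z x)) v j| ≤ 2 ^ b (z x) := by
      intro n hn D σ v hv j
      unfold rvF at hv
      split at hv
      · rename_i e' he'
        cases hv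
        have h6 : e'.1 = quest x (P x) (itmL D) := run_fst he'
        obtain ⟨r, tr⟩ := e'
        simp only at h6
        subst h6
        exact hbd (z x) _ tr (hqlen x n hn D) j.val
      · exact absurd hv (by simp)
    obtain ⟨Y, h1, h2⟩ := checkA_complete (rv := rvF nx V ℓ q z) (wt := wtF nx ℓ q z)
      (cl := clF ℓ q P0 k z) (gap := gap) (m := m) (P := P) (k0 := k0) (M := M)
      (p := fun x => p (z x)) (u := u) (A0 := A0) (Bc := Bc) (Ls := Ls) x (hp0 (z x))
      (fun D => hgc x (P x) (k0 x) D hT) (b (z x)) (cW (z x)) (a x).N (a x).Gm (a x).R (a x).tb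
      rfl hvv (fun n hn => card_itm_le (hE _ (hzE' x)) hn (by omega)) (fun n hn D => rvF_nil x _)
      (fun n hn => tree_use x (2 * (a x).Bc) (a x) rfl rfl rfl rfl
        fun D tr s => hlen (z x) _ tr s (hqlen x n hn D))
      (one_le_Gam _ _ _ _) le_rfl (a x).R_pos (a x).hR1 (a x).hR2 (a x).M_pos (a x).hM
      ((a x).hP (z x))
    have h3 := he x
    rw [sz_nat] at h3
    exact ⟨Y, h1.trans h3, h2⟩

/-- If a sparse set is hard for NP under weighted Turing reductions, then P = NP. -/
theorem inP_of_weighted (S : Set Word) (hS : Sparse S)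
    (hard : ∀ A : Set Word, InNP A → WeightedReducible A S) (L : Set Word) (hL : InNP L) :
    InP L :=
  Small.inP_of_coNP (projCands_of_weighted S hS hard) (coNP_of_weighted S hS hard) L hL

end Pool.Agent.Lib.MP_634427_lc.Ad
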