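import Pool.Agent.Lib.MP_634427_lc.Ad.Ops

/-!
# The pending query after a script
-/

namespace Pool.Agent.Lib.MP_634427_lc.Ad

open Pool.Agent.Lib.MP_634427_lc Pool.Agent.Lib.MP_634427_lc.KNo

section ops

variable (next : Word → List Bool → Option Word) (ℓ q : ℕ)

/-- The pending query after the script and positive answers to the queries in `T`. -/
def waitW (σ : List Op) (T : List Word) (r : Word) : Option Word :=
  match run next ℓ q σ r with
  | some e => qry next (adv next q T e)
  | none => none

end ops

/-- Is the operation of the form `opR T`? -/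
def isR (o : Op) : Bool := decide (o.1 = 1) && decide (o.2.2 = [])

theorem isR_iff {o : Op} : isR o = true ↔ o = opR o.2.1 := by
  unfold isR opR
  rw [Bool.and_eq_true, decide_eq_true_eq, decide_eq_true_eq]
  constructor
  · rintro ⟨h1, h2⟩
    exact Prod.ext h1 (Prod.ext rfl h2)
  · intro h
    exact ⟨congrArg Prod.fst h, congrArg (fun x : Op => x.2.2) h⟩

theorem waits_iff {next : Word → List Bool → Option Word} {ℓ q : ℕ} {σ : List Op} {T : List Word}
    {z r : Word} : waits next ℓ q σ T z r = true ↔ waitW next ℓ q σ T r = some z := by
  unfold waits waitW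
  cases run next ℓ q σ r with
  | none => simp
  | some e => simp

end Pool.Agent.Lib.MP_634427_lc.Ad
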