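import Pool.Agent.Lib.MP_634427_lc.Maj.LtNum
import Pool.Agent.Lib.MP_634427_lc.Ad.OpsW

/-!
# Adaptive version: the certificate and its check, on lists

`rv ((x, σ), r)` is the list of the integers attached to the question `r` by the script `σ` (`none`:
dead), `wt ((x, (σ, T)), r)` the pending query after the script `σ` and positive answers to the queries
in `T`, `cl (x, (Ns, Lv))` tests that the tree is closed.
-/

namespace Pool.Agent.Lib.MP_634427_lc.Ad

open Pool.Agent.Lib.MP_634427_lc Pool.Agent.Lib.MP_634427_lc.Maj

/-- A leaf of the tree of a level: the script and the matrix; the exponents of the items of the next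
list; the exponents of the children, for each node. -/
abbrev Leaf : Type := (List Op × List (List LT.Num)) × (List (List ℕ) × List (List (List ℕ)))

/-- Level `n` of the certificate: the nodes of the tree for the questions of level `n + 1` and its
leaves; the list of the items. -/
abbrev ALev : Type := (List TNode × List Leaf) × List Node

/-- The default level. -/
def anil : ALev := (([], []), [])

/-- The default item. -/
def nnil : Node := (([], (([], []), [])), [])

/-- The question as a list of numbers. -/
def qv (a : Word × Word) : List LT.Num := [(a.2, [])]

/-- The question of an entry. -/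
def qof (g : List LT.Num × List ℕ) : Word := (g.1.getD 0 ([], [])).1

/-- The questions about the children of a node, with exponents. -/
def qeK (x : Word) (P m n : ℕ) (a : Node) (E : List (List ℕ)) : Fam :=
  famK qv x P m n (a, ([], E))

/-- The questions about the items of a list of nodes of level `n`, with exponents. -/
def qeL (x : Word) (P m n : ℕ) (Y : List Node) (E : List (List ℕ)) : Fam :=
  famL qv x P m n ((List.range Y.length).map fun i => (Y.getD i nnil, (E.getD i [], [])))

/-- The alive members of a family of questions, with their vectors. -/
def famA (rv : (Word × List Op) × Word → Option (List LT.Num)) (x : Word) (σ : List Op)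
    (G : Fam) : Fam :=
  G.flatMap fun g => match rv ((x, σ), qof g) with
    | some v => [(v, g.2)]
    | none => []

/-- Does the question of an entry wait at `z`? -/
def atz (wt : (Word × (List Op × List Word)) × Word → Option Word) (x : Word) (σ : List Op)
    (T : List Word) (z : Word) (g : List LT.Num × List ℕ) : Bool :=
  decide (wt ((x, (σ, T)), qof g) = some z)

/-- At the operations `opR` of the script, no query outside the list of the operation is pending for
more than `N / B` members of the family. -/
def rareN (wt : (Word × (List Op × List Word)) × Word → Option Word) (x : Word) (B : ℕ)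
    (σ : List Op) (G : Fam) (N : ℕ) : Bool :=
  (List.range σ.length).all fun t => !(isR (σ.getD t opY)) || G.all fun g =>
    match wt ((x, (σ.take t, (σ.getD t opY).2.1)), qof g) with
      | some z => decide (z ∈ (σ.getD t opY).2.1) ||
          decide (B * (G.filter (atz wt x (σ.take t) (σ.getD t opY).2.1 z)).length ≤ N)
      | none => true

/-- The tests for the questions `G` about the children of a node; `GZ` is the alive family of the
list of the next level. -/
def kidA (rv : (Word × List Op) × Word → Option (List LT.Num))
    (wt : (Word × (List Op × List Word)) × Word → Option Word) (x : Word)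
    (P p u A0 Bc : ℕ) (σ : List Op) (T : List (List LT.Num)) (GZ G : Fam) : Bool :=
  (decide (P ^ 4 ≤ A0 * (famA rv x σ G).length) && rareN wt x Bc σ G (famA rv x σ G).length) &&
    (c1N p u T (famA rv x σ G) && (c2N p u (famA rv x σ G).length T (famA rv x σ G) &&
      c3N p u (famA rv x σ G).length GZ.length T (famA rv x σ G) GZ))

/-- The tests for a leaf at level `n`; `X` is the list of the items of level `n`, `H` the questions
about the items of the list of level `n + 1`. -/
def leafA (rv : (Word × List Op) × Word → Option (List LT.Num))
    (wt : (Word × (List Op × List Word)) × Word → Option Word) (x : Word)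
    (P m M p u A0 Bc Ls n : ℕ) (X : List Node) (H : Fam) (L : Leaf) : Bool :=
  ((decide (L.1.1.length ≤ Ls) && decide (M ≤ A0 * (famA rv x L.1.1 H).length)) &&
    (rareN wt x Bc L.1.1 H (famA rv x L.1.1 H).length && c1N p u L.1.2 (famA rv x L.1.1 H))) &&
  (List.range X.length).all fun k => kidA rv wt x P p u A0 Bc L.1.1 L.1.2 (famA rv x L.1.1 H)
    (qeK x P m n (X.getD k nnil) (L.2.2.getD k []))

/-- The tests for level `n`; `Z` is the list of the items of level `n + 1`. -/
def levA (rv : (Word × List Op) × Word → Option (List LT.Num))
    (wt : (Word × (List Op × List Word)) × Word → Option Word)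
    (cl : Word × (List TNode × List (List Op)) → Bool) (gap : (Word × (ℕ × ℕ)) × IL → Bool)
    (x : Word) (P m k0 M p u A0 Bc Ls n : ℕ) (a : ALev) (Z : List Node) : Bool :=
  ((a.2.all fun b => gap ((x, (P, k0)), normN P m n b.1.1)) &&
    cl (x, (a.1.1, a.1.2.map fun L => L.1.1))) &&
  a.1.2.all fun L => leafA rv wt x P m M p u A0 Bc Ls n a.2 (qeL x P m (n + 1) Z L.2.1) L

/-- The check of a certificate. -/
def checkA (rv : (Word × List Op) × Word → Option (List LT.Num))
    (wt : (Word × (List Op × List Word)) × Word → Option Word)
    (cl : Word × (List TNode × List (List Op)) → Bool) (gap : (Word × (ℕ × ℕ)) × IL → Bool)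
    (m P k0 M p u A0 Bc Ls : Word → ℕ) (a : Word × List ALev) : Bool :=
  ((List.range (m a.1 + 3)).all fun n => decide ((a.2.getD n anil).2.length = M a.1)) &&
  (((List.range (m a.1 + 2)).all fun n =>
      levA rv wt cl gap a.1 (P a.1) (m a.1) (k0 a.1) (M a.1) (p a.1) (u a.1) (A0 a.1) (Bc a.1)
        (Ls a.1) n (a.2.getD n anil) (a.2.getD (n + 1) anil).2) &&
    (a.2.getD (m a.1 + 2) anil).2.all fun b =>
      botN (P a.1) (m a.1) (m a.1 + 2) b.1.1 b.2)

end Pool.Agent.Lib.MP_634427_lc.Ad
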