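import Pool.Agent.Lib.MP_634427_lc.TurnDefs

/-!
# Scripts for adaptive reductions with few blocks of negative answers

A script is a list of operations; it is a fixed partial function of the test. A flat list of nodes
and a list of scripts (the leaves) describe a tree of scripts; `closed` checks, without knowing the
oracle, that for every oracle one leaf is right.
-/

namespace Pool.Agent.Lib.MP_634427_lc.Ad

open Pool.Agent.Lib.MP_634427_lc Pool.Agent.Lib.MP_634427_lc.KNo

/-- An operation: a tag, a list of words, a word. -/
abbrev Op : Type := ℕ × (List Word × Word)

/-- Positive answers to the queries in `T`, then a negative answer to the pending query `s`. -/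
def opN (T : List Word) (s : Word) : Op := (0, (T, s))

/-- Positive answers to the queries in `T`, then a negative answer to any pending query. -/
def opR (T : List Word) : Op := (1, (T, []))

/-- Positive answers to the queries in `T`; the procedure has stopped. -/
def opH (T : List Word) : Op := (2, (T, []))

/-- A free negative answer if the pending query is in `W`; dead if a negative answer is free and the
pending query is not in `W`. -/
def opF (W : List Word) : Op := (3, (W, []))

/-- A positive answer to the query `s`, where a negative answer would be free. -/
def opJ (s : Word) : Op := (4, ([], s))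

/-- Positive answers only. -/
def opY : Op := (5, ([], []))

section ops

variable (next : Word → List Bool → Option Word) (ℓ q : ℕ)

/-- Is the pending query of `e` in `W`? -/
def pendIn (W : List Word) (e : Item) : Bool :=
  match qry next e with
  | some s => decide (s ∈ W)
  | none => false

/-- The effect of an operation. -/
def opr (o : Op) (e : Item) : Option Item :=
  if o.1 = 0 then
    (if qry next (adv next q o.2.1 e) = some o.2.2 then some (no (adv next q o.2.1 e)) else none)
  else if o.1 = 1 then
    (if (qry next (adv next q o.2.1 e)).isSome then some (no (adv next q o.2.1 e)) else none)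
  else if o.1 = 2 then
    (if (qry next (adv next q o.2.1 e)).isNone then some (adv next q o.2.1 e) else none)
  else if o.1 = 3 then
    (bif freeL next ℓ e then (bif pendIn next o.2.1 e then some (no e) else none) else some e)
  else if o.1 = 4 then
    (bif freeL next ℓ e && decide (qry next e = some o.2.2) then some (yesA e) else none)
  else some (yes next q e)

/-- The item after a script (`none`: dead). -/
def run (σ : List Op) (r : Word) : Option Item :=
  σ.foldl (fun x o => x.bind (opr next ℓ q o)) (some (r, []))

/-- Is the test alive after the script? -/
def alive (σ : List Op) (r : Word) : Bool := (run next ℓ q σ r).isSome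

/-- Is `z` the pending query after the script and positive answers to the queries in `T`? -/
def waits (σ : List Op) (T : List Word) (z r : Word) : Bool :=
  match run next ℓ q σ r with
  | some e => decide (qry next (adv next q T e) = some z)
  | none => false

/-- The error set of a script: an operation `opR` gave a wrong negative answer. -/
def Err (S : Set Word) (σ : List Op) (r : Word) : Prop :=
  ∃ (σ' : List Op) (T : List Word) (z : Word), (σ' ++ [opR T]) <+: σ ∧ z ∈ S ∧ z ∉ T ∧
    z.length ≤ ℓ ∧ waits next ℓ q σ' T z r = true

end ops

/-! ### The tree -/

/-- A script, the words with positive answers, the number of blocks left. -/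
abbrev Key : Type := List Op × (List Word × ℕ)

/-- The kind of a branch (0 = `opN`, 1 = `opR`, 2 = `opH`) and the lists of tally words. -/
abbrev Branch : Type := ℕ × List (List Word)

/-- A node: key, chain of words, branches. -/
abbrev TNode : Type := Key × (List Word × List Branch)

/-- The first `t` operations of a block. -/
def fops (Fs : List (List Word)) (t : ℕ) : List Op :=
  (List.range t).map fun i => opF (Fs.getD i [])

/-- The possible ends of a block are in the tree. -/
def blockOK (q : ℕ) (K : List Key) (σ : List Op) (T : List Word) (j : ℕ)
    (Fs : List (List Word)) : Bool :=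
  decide ((σ ++ fops Fs q, (T, j)) ∈ K) &&
    (List.range q).all fun t => (Fs.getD t []).all fun w =>
      decide ((σ ++ (fops Fs t ++ [opJ w]), (T, j)) ∈ K)

/-- The `i`-th branch of a node. -/
def branchOK (q : ℕ) (K : List Key) (Lv : List (List Op)) (N : TNode) (i : ℕ) : Bool :=
  bif (N.2.2.getD i (2, [])).1 == 2 then
    decide (N.1.1 ++ [opH (N.2.1.take i ++ N.1.2.1)] ∈ Lv)
  else bif (N.2.2.getD i (2, [])).1 == 0 then
    decide (i < N.2.1.length) &&
      blockOK q K (N.1.1 ++ [opN (N.2.1.take i ++ N.1.2.1) (N.2.1.getD i [])])
        (N.2.1.take i ++ N.1.2.1) (N.1.2.2 - 1) (N.2.2.getD i (2, [])).2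
  else
    decide (i = N.2.1.length) &&
      blockOK q K (N.1.1 ++ [opR (N.2.1.take i ++ N.1.2.1)])
        (N.2.1.take i ++ N.1.2.1) (N.1.2.2 - 1) (N.2.2.getD i (2, [])).2

/-- The test of a node. -/
def nodeOK (ℓ q P0 : ℕ) (K : List Key) (Lv : List (List Op)) (N : TNode) : Bool :=
  bif N.1.2.2 == 0 then decide (N.1.1 ++ [opY] ∈ Lv)
  else decide ((N.2.1).Nodup) &&
    ((N.2.1.all fun w => !decide (w ∈ N.1.2.1) && decide (w.length ≤ ℓ)) &&
      (List.range (N.2.1.length + 1)).all fun i => decide (P0 ≤ i) || branchOK q K Lv N i)

/-- All nodes are good. -/
def allOK (ℓ q P0 : ℕ) (Ns : List TNode) (Lv : List (List Op)) : Bool :=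
  Ns.all (nodeOK ℓ q P0 (Ns.map fun N => N.1) Lv)

/-- The tree is closed. -/
def closed (ℓ q P0 k : ℕ) (Ns : List TNode) (Lv : List (List Op)) : Bool :=
  decide ((([], ([], k)) : Key) ∈ Ns.map fun N => N.1) && allOK ℓ q P0 Ns Lv

end Pool.Agent.Lib.MP_634427_lc.Ad
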