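import Pool.Agent.Lib.MP_634427_lc.Ad.OpsW
import Pool.Agent.Lib.MP_634427_lc.CoverPT

/-!
# Scripts and the test of a tree in polynomial time

`run` is a `PT.foldl`; every operation adds at most `2 * q + 2` to the size (`sz_iter_le`). Membership
in a list of keys: `PT.any` and `PT.eqDec` (the encoding of a key is injective).
-/

namespace Pool.Agent.Lib.MP_634427_lc.Ad

open Pool.Agent.Lib.MP_634427_lc Pool.Agent.Lib.MP_634427_lc.KNo

variable {γ δ : Type} [Enc γ] [Enc δ]

private theorem ipt_nat : Function.Injective (enc : ℕ → BT) := by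
  intro a b h
  have h1 := congrArg BT.size h
  have h2 := sz_nat a
  have h3 := sz_nat b
  unfold sz at h2 h3
  omega

private theorem ipt_prod {α β : Type} [Enc α] [Enc β] (ha : Function.Injective (enc : α → BT))
    (hb : Function.Injective (enc : β → BT)) : Function.Injective (enc : α × β → BT) := by
  intro x y h
  have h1 : BT.node (enc x.1) (enc x.2) = BT.node (enc y.1) (enc y.2) := h
  rw [BT.node.injEq] at h1
  exact Prod.ext (ha h1.1) (hb h1.2)

private theorem ipt_op : Function.Injective (enc : Op → BT) :=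
  ipt_prod ipt_nat (ipt_prod (enc_list_injective enc_word_injective) enc_word_injective)

private theorem ipt_ops : Function.Injective (enc : List Op → BT) := enc_list_injective ipt_op

private theorem ipt_key : Function.Injective (enc : Key → BT) :=
  ipt_prod ipt_ops (ipt_prod (enc_list_injective enc_word_injective) ipt_nat)

private theorem mem_pt {α : Type} [Enc α] (hinj : Function.Injective (enc : α → BT))
    {a : δ → α} {L : δ → List α} (ha : PT a) (hL : PT L) (hd : ∀ d, Decidable (a d ∈ L d)) :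
    PT fun d => @decide (a d ∈ L d) (hd d) := by
  classical
  refine (PT.any (p := fun d b => decide (a d = b)) hL
    (PT.eqDec hinj (ha.comp PT.fst) PT.snd)).of_eq fun d => ?_
  rw [Bool.eq_iff_iff, List.any_eq_true, decide_eq_true_iff]
  simp

private theorem eqSome_pt {o : δ → Option Word} {s : δ → Word} (ho : PT o) (hs : PT s) :
    PT fun d => decide (o d = some (s d)) :=
  (PT.casesOption (f := fun _ => false) (g := fun d t => decide (t = s d)) ho (PT.const false)
    (PT.eqWord PT.snd (hs.comp PT.fst))).of_eq fun d => by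
      cases o d with
      | none => simp
      | some t => simp

private theorem pendIn_pt {next : γ → Word → List Bool → Option Word}
    (hn : PT fun p : γ × Word × List Bool => next p.1 p.2.1 p.2.2) {cx : δ → γ}
    {W : δ → List Word} {e : δ → Item} (hcx : PT cx) (hW : PT W) (he : PT e) :
    PT fun d => pendIn (next (cx d)) (W d) (e d) :=
  (PT.casesOption (f := fun _ => false) (g := fun d s => decide (s ∈ W d)) (pt_qry hn hcx he)
    (PT.const false) (PT.memWord PT.snd (hW.comp PT.fst))).of_eq fun d => by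
      unfold pendIn
      cases qry (next (cx d)) (e d) <;> rfl

theorem pt_opr {next : γ → Word → List Bool → Option Word}
    (hn : PT fun p : γ × Word × List Bool => next p.1 p.2.1 p.2.2) {ℓ q : γ → ℕ} (hℓ : PT ℓ)
    (hq : PT q) {cx : δ → γ} {o : δ → Op} {e : δ → Item} (hcx : PT cx) (ho : PT o) (he : PT e) :
    PT fun d => opr (next (cx d)) (ℓ (cx d)) (q (cx d)) (o d) (e d) := by
  have hT : PT fun d => (o d).2.1 := PT.fst' (PT.snd' ho)
  have hw : PT fun d => (o d).2.2 := PT.snd' (PT.snd' ho)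
  have ht : PT fun d => (o d).1 := PT.fst' ho
  have hadv : PT fun d => adv (next (cx d)) (q (cx d)) (o d).2.1 (e d) := pt_adv hn hq hcx hT he
  have hqa : PT fun d => qry (next (cx d)) (adv (next (cx d)) (q (cx d)) (o d).2.1 (e d)) :=
    pt_qry hn hcx hadv
  have hfree : PT fun d => freeL (next (cx d)) (ℓ (cx d)) (e d) :=
    pt_freeL hn hcx (hℓ.comp hcx) he
  have hS : PT fun d => decide ((qry (next (cx d))
      (adv (next (cx d)) (q (cx d)) (o d).2.1 (e d))).isSome = true) :=
    (PT.isSome hqa).of_eq fun d => Bool.decide_eq_true.symm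
  have hN : PT fun d => decide ((qry (next (cx d))
      (adv (next (cx d)) (q (cx d)) (o d).2.1 (e d))).isNone = true) :=
    (isNone hqa).of_eq fun d => Bool.decide_eq_true.symm
  have hQ : PT fun d => decide (qry (next (cx d))
      (adv (next (cx d)) (q (cx d)) (o d).2.1 (e d)) = some (o d).2.2) := eqSome_pt hqa hw
  have hP : PT fun d => pendIn (next (cx d)) (o d).2.1 (e d) := pendIn_pt hn hcx hT he
  have hE : PT fun d => decide (qry (next (cx d)) (e d) = some (o d).2.2) :=
    eqSome_pt (pt_qry hn hcx he) hw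
  have hX : PT fun d => some (no (adv (next (cx d)) (q (cx d)) (o d).2.1 (e d))) :=
    PT.some (pt_no hadv)
  have b0 := PT.ite (p := fun d => qry (next (cx d))
      (adv (next (cx d)) (q (cx d)) (o d).2.1 (e d)) = some (o d).2.2) hQ hX
      (PT.const (none : Option Item))
  have b1 := PT.ite (p := fun d => (qry (next (cx d))
      (adv (next (cx d)) (q (cx d)) (o d).2.1 (e d))).isSome = true) hS hX
      (PT.const (none : Option Item))
  have b2 := PT.ite (p := fun d => (qry (next (cx d))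
      (adv (next (cx d)) (q (cx d)) (o d).2.1 (e d))).isNone = true) hN (PT.some hadv)
      (PT.const (none : Option Item))
  have b3 := PT.cond hfree (PT.cond hP (PT.some (pt_no he)) (PT.const (none : Option Item)))
    (PT.some he)
  have b4 := PT.cond (PT.and hfree hE) (PT.some (pt_yesA he)) (PT.const (none : Option Item))
  have b5 := PT.some (pt_yes hn hq hcx he)
  exact PT.ite (p := fun d => (o d).1 = 0) (PT.eqNat ht (PT.const 0)) b0
    (PT.ite (p := fun d => (o d).1 = 1) (PT.eqNat ht (PT.const 1)) b1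
    (PT.ite (p := fun d => (o d).1 = 2) (PT.eqNat ht (PT.const 2)) b2
    (PT.ite (p := fun d => (o d).1 = 3) (PT.eqNat ht (PT.const 3)) b3
    (PT.ite (p := fun d => (o d).1 = 4) (PT.eqNat ht (PT.const 4)) b4 b5))))

private theorem sz_opr_le (nx : Word → List Bool → Option Word) (ℓ q : ℕ) (o : Op) (e : Item) :
    sz (opr nx ℓ q o e) ≤ sz e + 1 + (2 * q + 2) := by
  have hadv : sz (adv nx q o.2.1 e) ≤ sz e + 2 * q := sz_iter_le _ _ _ _
  have hyes : sz (yes nx q e) ≤ sz e + 2 * q := sz_iter_le _ _ _ _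
  have hno : ∀ e' : Item, sz (no e') ≤ sz e' + 1 := by
    intro e'
    unfold no
    rw [sz_pair, sz_append, sz_prod e', sz_cons, sz_lnil, sz_false]
    omega
  have hyA : sz (yesA e) ≤ sz e + 2 := by
    unfold yesA
    rw [sz_pair, sz_append, sz_prod e, sz_cons, sz_lnil, sz_true]
    omega
  have hN : sz (none : Option Item) ≤ sz e + 1 + (2 * q + 2) := by
    rw [sz_none]
    omega
  have h0 : sz (some (no (adv nx q o.2.1 e))) ≤ sz e + 1 + (2 * q + 2) := by
    rw [sz_some]
    have h1 := hno (adv nx q o.2.1 e)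
    omega
  have h2 : sz (some (adv nx q o.2.1 e)) ≤ sz e + 1 + (2 * q + 2) := by
    rw [sz_some]
    omega
  have h3 : sz (some (no e)) ≤ sz e + 1 + (2 * q + 2) := by
    rw [sz_some]
    have h1 := hno e
    omega
  have h4 : sz (some e) ≤ sz e + 1 + (2 * q + 2) := by
    rw [sz_some]
    omega
  have h5 : sz (some (yesA e)) ≤ sz e + 1 + (2 * q + 2) := by
    rw [sz_some]
    omega
  have h6 : sz (some (yes nx q e)) ≤ sz e + 1 + (2 * q + 2) := by
    rw [sz_some]
    omega
  clear hadv hyes hno hyA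
  unfold opr
  by_cases t0 : o.1 = 0
  · rw [if_pos t0]
    split
    · exact h0
    · exact hN
  rw [if_neg t0]
  by_cases t1 : o.1 = 1
  · rw [if_pos t1]
    split
    · exact h0
    · exact hN
  rw [if_neg t1]
  by_cases t2 : o.1 = 2
  · rw [if_pos t2]
    split
    · exact h2
    · exact hN
  rw [if_neg t2]
  by_cases t3 : o.1 = 3
  · rw [if_pos t3]
    cases freeL nx ℓ e
    · exact h4
    · cases pendIn nx o.2.1 e
      · exact hN
      · exact h3
  rw [if_neg t3]
  by_cases t4 : o.1 = 4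
  · rw [if_pos t4]
    cases (freeL nx ℓ e && decide (qry nx e = some o.2.2))
    · exact hN
    · exact h5
  rw [if_neg t4]
  exact h6

private theorem sz_run_le (nx : Word → List Bool → Option Word) (ℓ q : ℕ) (σ : List Op)
    (x : Option Item) : sz (σ.foldl (fun x o => x.bind (opr nx ℓ q o)) x) ≤
      sz x + σ.length * (2 * q + 2) := by
  induction σ generalizing x with
  | nil => simp
  | cons o σ ih =>
    rw [List.foldl_cons, List.length_cons, Nat.succ_mul]
    refine (ih _).trans ?_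
    have h : sz (x.bind (opr nx ℓ q o)) ≤ sz x + (2 * q + 2) := by
      cases x with
      | none => simp
      | some e =>
        have := sz_opr_le nx ℓ q o e
        rw [sz_some]
        exact this
    omega

theorem pt_run {next : γ → Word → List Bool → Option Word}
    (hn : PT fun p : γ × Word × List Bool => next p.1 p.2.1 p.2.2) {ℓ q : γ → ℕ} (hℓ : PT ℓ)
    (hq : PT q) {cx : δ → γ} {σ : δ → List Op} {r : δ → Word} (hcx : PT cx) (hσ : PT σ)
    (hr : PT r) : PT fun d => run (next (cx d)) (ℓ (cx d)) (q (cx d)) (σ d) (r d) := by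
  refine PT.foldl (f := fun d (x : Option Item) (o : Op) =>
    x.bind (opr (next (cx d)) (ℓ (cx d)) (q (cx d)) o)) hσ (PT.some (PT.pair hr (PT.const []))) ?_ ?_
  · refine (PT.casesOption (o := fun p : δ × Option Item × Op => p.2.1) (f := fun _ => none)
      (g := fun p e => opr (next (cx p.1)) (ℓ (cx p.1)) (q (cx p.1)) p.2.2 e) (PT.fst' PT.snd)
      (PT.const none) (pt_opr hn hℓ hq (hcx.comp (PT.fst' PT.fst))
        (PT.snd' (PT.snd' PT.fst)) PT.snd)).of_eq ?_
    rintro ⟨d, x, o⟩
    cases x <;> rfl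
  · obtain ⟨k1, hk1⟩ := hr.size_le
    obtain ⟨k2, hk2⟩ := hσ.size_le
    obtain ⟨k3, hk3⟩ := (hq.comp hcx).size_le
    obtain ⟨c, hc⟩ := PB.add (F := fun n => (n + 2) ^ k1 + 2)
      (G := fun n => (n + 2) ^ k2 * (2 * (n + 2) ^ k3 + 2))
      (PB.add ⟨k1, fun n => le_rfl⟩ (PB.const 2))
      (PB.mul ⟨k2, fun n => le_rfl⟩ (PB.add (PB.mul (PB.const 2) ⟨k3, fun n => le_rfl⟩)
        (PB.const 2)))
    refine ⟨c, fun d l' hl' => ?_⟩
    refine (sz_run_le _ _ _ _ _).trans (le_trans ?_ (hc (sz d)))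
    have h1 := hk1 d
    have h2 := hk2 d
    have h3 := hk3 d
    rw [sz_nat] at h3
    have h4 := hl'.length_le
    have h5 := length_le_sz (σ d)
    rw [sz_some, sz_pair, sz_lnil]
    refine Nat.add_le_add ?_ (Nat.mul_le_mul (h4.trans (h5.trans h2)) ?_)
    · omega
    · have h6 : 2 * q (cx d) ≤ 2 * (sz d + 2) ^ k3 := Nat.mul_le_mul_left 2 h3
      omega

theorem pt_waitW {next : γ → Word → List Bool → Option Word}
    (hn : PT fun p : γ × Word × List Bool => next p.1 p.2.1 p.2.2) {ℓ q : γ → ℕ} (hℓ : PT ℓ)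
    (hq : PT q) {cx : δ → γ} {σ : δ → List Op} {T : δ → List Word} {r : δ → Word} (hcx : PT cx)
    (hσ : PT σ) (hT : PT T) (hr : PT r) :
    PT fun d => waitW (next (cx d)) (ℓ (cx d)) (q (cx d)) (σ d) (T d) (r d) :=
  (PT.casesOption (f := fun _ => none)
    (g := fun d e => qry (next (cx d)) (adv (next (cx d)) (q (cx d)) (T d) e))
    (pt_run hn hℓ hq hcx hσ hr) (PT.const none)
    (pt_qry hn (hcx.comp PT.fst) (pt_adv hn hq (hcx.comp PT.fst) (hT.comp PT.fst) PT.snd))).of_eq
    fun d => by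
      unfold waitW
      cases run (next (cx d)) (ℓ (cx d)) (q (cx d)) (σ d) (r d) <;> rfl

private theorem pt_fops {Fs : δ → List (List Word)} {t : δ → ℕ} (hF : PT Fs) (ht : PT t) :
    PT fun d => fops (Fs d) (t d) :=
  PT.map (f := fun d (i : ℕ) => opF ((Fs d).getD i [])) (PT.range ht)
    (PT.pair (PT.const 3) (PT.pair (PT.getLD PT.snd (hF.comp PT.fst) (PT.const []))
      (PT.const [])))

private theorem pt_blockOK {q j : δ → ℕ} {K : δ → List Key} {σ : δ → List Op} {T : δ → List Word}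
    {Fs : δ → List (List Word)} (hq : PT q) (hK : PT K) (hσ : PT σ) (hT : PT T) (hj : PT j)
    (hF : PT Fs) : PT fun d => blockOK (q d) (K d) (σ d) (T d) (j d) (Fs d) := by
  have h1 : PT fun d => decide ((σ d ++ fops (Fs d) (q d), (T d, j d)) ∈ K d) :=
    mem_pt ipt_key (PT.pair (PT.append hσ (pt_fops hF hq)) (PT.pair hT hj)) hK _
  have h30 : PT fun p : (δ × ℕ) × Word =>
      ((σ p.1.1 ++ (fops (Fs p.1.1) p.1.2 ++ [opJ p.2]), (T p.1.1, j p.1.1)) : Key) :=
    PT.pair (PT.append (hσ.comp (PT.fst' PT.fst)) (PT.append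
      (pt_fops (hF.comp (PT.fst' PT.fst)) (PT.snd' PT.fst))
      (PT.cons (PT.pair (PT.const 4) (PT.pair (PT.const []) PT.snd)) (PT.const []))))
      (PT.pair (hT.comp (PT.fst' PT.fst)) (hj.comp (PT.fst' PT.fst)))
  have h3 : PT fun p : (δ × ℕ) × Word =>
      decide ((σ p.1.1 ++ (fops (Fs p.1.1) p.1.2 ++ [opJ p.2]), (T p.1.1, j p.1.1)) ∈ K p.1.1) :=
    mem_pt ipt_key h30 (hK.comp (PT.fst' PT.fst)) _
  have h2 : PT fun p : δ × ℕ => ((Fs p.1).getD p.2 []).all fun w =>
      decide ((σ p.1 ++ (fops (Fs p.1) p.2 ++ [opJ w]), (T p.1, j p.1)) ∈ K p.1) :=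
    PT.all (p := fun (p : δ × ℕ) w =>
      decide ((σ p.1 ++ (fops (Fs p.1) p.2 ++ [opJ w]), (T p.1, j p.1)) ∈ K p.1))
      (PT.getLD PT.snd (hF.comp PT.fst) (PT.const [])) h3
  have h4 : PT fun d => (List.range (q d)).all fun t => ((Fs d).getD t []).all fun w =>
      decide ((σ d ++ (fops (Fs d) t ++ [opJ w]), (T d, j d)) ∈ K d) :=
    PT.all (p := fun d t => ((Fs d).getD t []).all fun w =>
      decide ((σ d ++ (fops (Fs d) t ++ [opJ w]), (T d, j d)) ∈ K d)) (PT.range hq) h2
  exact PT.and h1 h4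

private theorem pt_branchOK {q i : δ → ℕ} {K : δ → List Key} {Lv : δ → List (List Op)}
    {N : δ → TNode} (hq : PT q) (hK : PT K) (hL : PT Lv) (hN : PT N) (hi : PT i) :
    PT fun d => branchOK (q d) (K d) (Lv d) (N d) (i d) := by
  have hb : PT fun d => (N d).2.2.getD (i d) (2, []) :=
    PT.getLD hi (PT.snd' (PT.snd' hN)) (PT.const (2, []))
  have hT : PT fun d => (N d).2.1.take (i d) ++ (N d).1.2.1 :=
    PT.append (PT.take hi (PT.fst' (PT.snd' hN))) (PT.fst' (PT.snd' (PT.fst' hN)))
  have hσ : PT fun d => (N d).1.1 := PT.fst' (PT.fst' hN)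
  have hj : PT fun d => (N d).1.2.2 - 1 := PT.sub (PT.snd' (PT.snd' (PT.fst' hN))) (PT.const 1)
  have hw : PT fun d => (N d).2.1.getD (i d) [] :=
    PT.getLD hi (PT.fst' (PT.snd' hN)) (PT.const [])
  have hopH : PT fun d => (N d).1.1 ++ [opH ((N d).2.1.take (i d) ++ (N d).1.2.1)] :=
    PT.append hσ (PT.cons (PT.pair (PT.const 2) (PT.pair hT (PT.const []))) (PT.const []))
  have hopR : PT fun d => (N d).1.1 ++ [opR ((N d).2.1.take (i d) ++ (N d).1.2.1)] :=
    PT.append hσ (PT.cons (PT.pair (PT.const 1) (PT.pair hT (PT.const []))) (PT.const []))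
  have hopN : PT fun d => (N d).1.1 ++
      [opN ((N d).2.1.take (i d) ++ (N d).1.2.1) ((N d).2.1.getD (i d) [])] :=
    PT.append hσ (PT.cons (PT.pair (PT.const 0) (PT.pair hT hw)) (PT.const []))
  have h1 : PT fun d => decide ((N d).1.1 ++
      [opH ((N d).2.1.take (i d) ++ (N d).1.2.1)] ∈ Lv d) := mem_pt ipt_ops hopH hL _
  have h2 : PT fun d => decide (i d < (N d).2.1.length) &&
      blockOK (q d) (K d) ((N d).1.1 ++
        [opN ((N d).2.1.take (i d) ++ (N d).1.2.1) ((N d).2.1.getD (i d) [])])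
        ((N d).2.1.take (i d) ++ (N d).1.2.1) ((N d).1.2.2 - 1)
        ((N d).2.2.getD (i d) (2, [])).2 :=
    PT.and (PT.lt hi (PT.length (PT.fst' (PT.snd' hN))))
      (pt_blockOK hq hK hopN hT hj (PT.snd' hb))
  have h3 : PT fun d => decide (i d = (N d).2.1.length) &&
      blockOK (q d) (K d) ((N d).1.1 ++ [opR ((N d).2.1.take (i d) ++ (N d).1.2.1)])
        ((N d).2.1.take (i d) ++ (N d).1.2.1) ((N d).1.2.2 - 1)
        ((N d).2.2.getD (i d) (2, [])).2 :=
    PT.and (PT.eqNat hi (PT.length (PT.fst' (PT.snd' hN))))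
      (pt_blockOK hq hK hopR hT hj (PT.snd' hb))
  have hc2 : PT fun d => ((N d).2.2.getD (i d) (2, [])).1 == 2 :=
    (PT.eqNat (PT.fst' hb) (PT.const 2)).of_eq fun d => by rw [Bool.eq_iff_iff]; simp
  have hc0 : PT fun d => ((N d).2.2.getD (i d) (2, [])).1 == 0 :=
    (PT.eqNat (PT.fst' hb) (PT.const 0)).of_eq fun d => by rw [Bool.eq_iff_iff]; simp
  exact PT.cond hc2 h1 (PT.cond hc0 h2 h3)

private theorem pt_nodup {L : δ → List Word} (hL : PT L) : PT fun d => decide (L d).Nodup := by
  have h2 : PT fun p : (δ × ℕ) × ℕ =>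
      (decide (p.1.2 = p.2) || !decide ((L p.1.1).getD p.1.2 [] = (L p.1.1).getD p.2 [])) :=
    PT.or (PT.eqNat (PT.snd' PT.fst) PT.snd) (PT.not (PT.eqWord
      (PT.getLD (PT.snd' PT.fst) (hL.comp (PT.fst' PT.fst)) (PT.const []))
      (PT.getLD PT.snd (hL.comp (PT.fst' PT.fst)) (PT.const []))))
  have h1 : PT fun p : δ × ℕ => (List.range (L p.1).length).all fun j =>
      (decide (p.2 = j) || !decide ((L p.1).getD p.2 [] = (L p.1).getD j [])) :=
    PT.all (p := fun (p : δ × ℕ) j =>
      (decide (p.2 = j) || !decide ((L p.1).getD p.2 [] = (L p.1).getD j [])))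
      (PT.range (PT.length (hL.comp PT.fst))) h2
  refine (PT.all (p := fun d i => (List.range (L d).length).all fun j =>
      (decide (i = j) || !decide ((L d).getD i [] = (L d).getD j [])))
      (PT.range (PT.length hL)) h1).of_eq fun d => ?_
  rw [Bool.eq_iff_iff, List.all_eq_true, decide_eq_true_eq, List.nodup_iff_injective_get]
  constructor
  · intro h i j hij
    have h3 := List.all_eq_true.1 (h i.val (List.mem_range.2 i.2)) j.val (List.mem_range.2 j.2)
    rw [List.getD_eq_getElem _ _ i.2, List.getD_eq_getElem _ _ j.2] at h3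
    simp only [List.get_eq_getElem] at hij
    rw [hij] at h3
    simp only [decide_true, Bool.not_true, Bool.or_false, decide_eq_true_eq] at h3
    exact Fin.ext h3
  · intro h i hi
    rw [List.mem_range] at hi
    refine List.all_eq_true.2 fun j hj => ?_
    rw [List.mem_range] at hj
    by_cases hij : i = j
    · simp [hij]
    · have h3 : ¬ ((L d).getD i [] = (L d).getD j []) := by
        rw [List.getD_eq_getElem _ _ hi, List.getD_eq_getElem _ _ hj]
        intro h4
        have h5 : (⟨i, hi⟩ : Fin (L d).length) = ⟨j, hj⟩ := h (by simpa using h4)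
        exact hij (Fin.mk.injEq _ _ _ _ ▸ h5)
      simp only [h3, decide_false, Bool.not_false, Bool.or_true]

private theorem pt_nodeOK {ℓ q P0 : δ → ℕ} {K : δ → List Key} {Lv : δ → List (List Op)}
    {N : δ → TNode} (hℓ : PT ℓ) (hq : PT q) (hP : PT P0) (hK : PT K) (hL : PT Lv) (hN : PT N) :
    PT fun d => nodeOK (ℓ d) (q d) (P0 d) (K d) (Lv d) (N d) := by
  have hc : PT fun d => (N d).2.1 := PT.fst' (PT.snd' hN)
  have hop : PT fun d => (N d).1.1 ++ [opY] := PT.append (PT.fst' (PT.fst' hN)) (PT.const [opY])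
  have h0 : PT fun d => decide ((N d).1.1 ++ [opY] ∈ Lv d) := mem_pt ipt_ops hop hL _
  have hc0 : PT fun d => (N d).1.2.2 == 0 :=
    (PT.eqNat (PT.snd' (PT.snd' (PT.fst' hN))) (PT.const 0)).of_eq fun d => by
      rw [Bool.eq_iff_iff]; simp
  have h1 : PT fun d => decide ((N d).2.1).Nodup := pt_nodup hc
  have h2 : PT fun d => (N d).2.1.all fun w => !decide (w ∈ (N d).1.2.1) &&
      decide (w.length ≤ ℓ d) :=
    PT.all (p := fun d w => !decide (w ∈ (N d).1.2.1) && decide (w.length ≤ ℓ d)) hc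
      (PT.and (PT.not (PT.memWord PT.snd (PT.fst' (PT.snd' (PT.fst' (hN.comp PT.fst))))))
        (PT.le (PT.length PT.snd) (hℓ.comp PT.fst)))
  have h3 : PT fun d => (List.range ((N d).2.1.length + 1)).all fun i =>
      decide (P0 d ≤ i) || branchOK (q d) (K d) (Lv d) (N d) i :=
    PT.all (p := fun d i => decide (P0 d ≤ i) || branchOK (q d) (K d) (Lv d) (N d) i)
      (PT.range (PT.succ (PT.length hc)))
      (PT.or (PT.le (hP.comp PT.fst) PT.snd) (pt_branchOK (hq.comp PT.fst) (hK.comp PT.fst)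
        (hL.comp PT.fst) (hN.comp PT.fst) PT.snd))
  exact PT.cond hc0 h0 (PT.and h1 (PT.and h2 h3))

private theorem pt_allK {ℓ q P0 : δ → ℕ} {K : δ → List Key} {Ns : δ → List TNode}
    {Lv : δ → List (List Op)} (hℓ : PT ℓ) (hq : PT q) (hP : PT P0) (hK : PT K) (hN : PT Ns)
    (hL : PT Lv) :
    PT fun d => (Ns d).all (nodeOK (ℓ d) (q d) (P0 d) (K d) (Lv d)) :=
  PT.all (p := fun d => nodeOK (ℓ d) (q d) (P0 d) (K d) (Lv d)) hN
    (pt_nodeOK (hℓ.comp PT.fst) (hq.comp PT.fst) (hP.comp PT.fst) (hK.comp PT.fst)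
      (hL.comp PT.fst) PT.snd)

theorem pt_closed {ℓ q P0 k : δ → ℕ} {Ns : δ → List TNode} {Lv : δ → List (List Op)} (hℓ : PT ℓ)
    (hq : PT q) (hP : PT P0) (hk : PT k) (hN : PT Ns) (hL : PT Lv) :
    PT fun d => closed (ℓ d) (q d) (P0 d) (k d) (Ns d) (Lv d) := by
  have hK : PT fun d => (Ns d).map fun N => N.1 :=
    PT.map (f := fun (_ : δ) (N : TNode) => N.1) hN (PT.fst' PT.snd)
  have hr : PT fun d => (([], ([], k d)) : Key) := PT.pair (PT.const []) (PT.pair (PT.const []) hk)
  have h1 : PT fun d => decide ((([], ([], k d)) : Key) ∈ (Ns d).map fun N => N.1) :=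
    mem_pt ipt_key hr hK _
  exact PT.and h1 (pt_allK hℓ hq hP hK hN hL)

end Pool.Agent.Lib.MP_634427_lc.Ad
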