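import Pool.Agent.Lib.MP_634427_lc.Ad.SizeT
import Pool.Agent.Lib.MP_634427_lc.Maj.LtPrm

/-!
# The parameters of the adaptive version

`z` is the main parameter; the dimension `p`, the number `q` of queries, the length `ℓ` of the queries
and the census bound `P0` are polynomials in `z`, `k` is a constant.
-/

namespace Pool.Agent.Lib.MP_634427_lc.Ad

open Pool.Agent.Lib.MP_634427_lc Pool.Agent.Lib.MP_634427_lc.Maj

/-- The data of the reduction for one value of the main parameter. -/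
structure Pm where
  /-- dimension -/
  p : ℕ
  /-- number of queries -/
  q : ℕ
  /-- length of the queries -/
  ℓ : ℕ
  /-- census bound -/
  P0 : ℕ
  /-- number of blocks of negative answers -/
  k : ℕ

namespace Pm

variable (a : Pm)

/-- Length of the scripts. -/
def Ls : ℕ := a.k * (a.q + 2) + 1

/-- Length of the lists of words. -/
def Lt : ℕ := (a.k + 1) * a.P0 + a.ℓ + 1

/-- Number of the leaves. -/
def N : ℕ := numT a.P0 a.q a.ℓ a.k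

/-- The constant of the rare test. -/
def Bc : ℕ := 144 * a.p ^ 2 * (a.Ls * a.P0) + 1

/-- The loss of mass. -/
def Gm : ℕ := Gam (2 * a.Bc) a.q a.ℓ a.k

/-- The constant of the alive test. -/
def A0 : ℕ := 2 * a.Gm

/-- Inverse of the precision. -/
def R : ℕ := 512 * a.p ^ 3 * a.Gm + 3 * a.Gm * (a.Bc + 1) + 1

/-- The number of the statistics. -/
def Q : ℕ := a.N * a.Ls + 1

/-- Length of the lists. -/
def M : ℕ := 16 * (a.Q + a.N * (200 * a.p ^ 4)) ^ 2 * a.R ^ 2 + 1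

/-- The prime number. -/
def P (z : ℕ) : ℕ :=
  LT.nextPrime (4 * a.M * (36 * (a.Q + a.N * (200 * a.p ^ 4)) ^ 2 * a.R ^ 2 + 1) +
    288 * a.p ^ 2 * a.A0 * (z + 1) ^ 2)

/-- Bound for the gap test. -/
def k0 (z : ℕ) : ℕ := 288 * a.p ^ 2 * a.A0 * a.P z

/-- Bound for the sizes of the trees. -/
def tb : ℕ := tlen a.ℓ a.q a.Ls a.Lt a.k a.N

theorem prime_P (z : ℕ) : (a.P z).Prime := LT.nextPrime_prime _

private theorem lt_P (z : ℕ) : 4 * a.M * (36 * (a.Q + a.N * (200 * a.p ^ 4)) ^ 2 * a.R ^ 2 + 1) +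
    288 * a.p ^ 2 * a.A0 * (z + 1) ^ 2 < a.P z := LT.lt_nextPrime _

theorem M_pos : 0 < a.M := Nat.succ_pos _

theorem R_pos : 0 < a.R := Nat.succ_pos _

theorem hR1 : 512 * a.p ^ 3 * a.Gm ≤ a.R := by
  unfold R
  omega

theorem hR2 : 3 * a.Gm * (a.Bc + 1) ≤ a.R := by
  unfold R
  omega

theorem hM : 16 * (a.Q + a.N * (200 * a.p ^ 4)) ^ 2 * a.R ^ 2 ≤ a.M := by
  unfold M
  omega

theorem hP (z : ℕ) :
    4 * a.M * (36 * (a.Q + a.N * (200 * a.p ^ 4)) ^ 2 * a.R ^ 2 + 1) ≤ a.P z := by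
  have h := a.lt_P z
  omega

theorem hP' {z m : ℕ} (h : m ≤ z) : 288 * a.p ^ 2 * a.A0 * (m + 1) ^ 2 ≤ a.P z := by
  have h1 := a.lt_P z
  have h2 : 288 * a.p ^ 2 * a.A0 * (m + 1) ^ 2 ≤ 288 * a.p ^ 2 * a.A0 * (z + 1) ^ 2 :=
    Nat.mul_le_mul_left _ (Nat.pow_le_pow_left (by omega) 2)
  omega

end Pm

/-! ### Polynomial time -/

section PT

variable {γ : Type} [Enc γ] {p q ℓ P0 : γ → ℕ}

private theorem pt_qℓ (hq : PT q) (hℓ : PT ℓ) : PT fun c => q c * (ℓ c + 1) :=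
  PT.mul hq (PT.succ hℓ)

theorem pt_numT (hP0 : PT P0) (hq : PT q) (hℓ : PT ℓ) (k : ℕ) :
    PT fun c => numT (P0 c) (q c) (ℓ c) k := by
  induction k with
  | zero => exact PT.const 1
  | succ j ih =>
    exact PT.succ (PT.mul (PT.succ hP0) (PT.mul (PT.succ (pt_qℓ hq hℓ)) ih))

private theorem pt_thB (hq : PT q) (hℓ : PT ℓ) : PT fun c => thB (q c) (ℓ c) :=
  PT.add (PT.mul (PT.const 2) (pt_qℓ hq hℓ)) (PT.const 2)

theorem pt_Gam {B : γ → ℕ} (hB : PT B) (hq : PT q) (hℓ : PT ℓ) (k : ℕ) :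
    PT fun c => Gam (B c) (q c) (ℓ c) k := by
  induction k with
  | zero => exact PT.const 1
  | succ j ih =>
    have h := PT.mul (pt_thB hq hℓ) ih
    exact PT.mul (PT.add (PT.mul (PT.mul (PT.const 2) hB) h) (PT.const 2)) h

theorem pt_Ls (hq : PT q) (k : ℕ) : PT fun c => Pm.Ls ⟨p c, q c, ℓ c, P0 c, k⟩ :=
  PT.succ (PT.mul (PT.const k) (PT.add hq (PT.const 2)))

theorem pt_Bc (hp : PT p) (hq : PT q) (hP0 : PT P0) (k : ℕ) :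
    PT fun c => Pm.Bc ⟨p c, q c, ℓ c, P0 c, k⟩ :=
  PT.succ (PT.mul (PT.mul (PT.const 144) (PT.pow hp 2))
    (PT.mul (pt_Ls (p := p) (ℓ := q) (P0 := P0) hq k) hP0))

private theorem pt_Gm (hp : PT p) (hq : PT q) (hℓ : PT ℓ) (hP0 : PT P0) (k : ℕ) :
    PT fun c => Pm.Gm ⟨p c, q c, ℓ c, P0 c, k⟩ :=
  pt_Gam (PT.mul (PT.const 2) (pt_Bc (ℓ := ℓ) hp hq hP0 k)) hq hℓ k

theorem pt_A0 (hp : PT p) (hq : PT q) (hℓ : PT ℓ) (hP0 : PT P0) (k : ℕ) :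
    PT fun c => Pm.A0 ⟨p c, q c, ℓ c, P0 c, k⟩ :=
  PT.mul (PT.const 2) (pt_Gm hp hq hℓ hP0 k)

theorem pt_N (hq : PT q) (hℓ : PT ℓ) (hP0 : PT P0) (k : ℕ) :
    PT fun c => Pm.N ⟨p c, q c, ℓ c, P0 c, k⟩ :=
  pt_numT hP0 hq hℓ k

private theorem pt_R (hp : PT p) (hq : PT q) (hℓ : PT ℓ) (hP0 : PT P0) (k : ℕ) :
    PT fun c => Pm.R ⟨p c, q c, ℓ c, P0 c, k⟩ :=
  PT.succ (PT.add (PT.mul (PT.mul (PT.const 512) (PT.pow hp 3)) (pt_Gm hp hq hℓ hP0 k))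
    (PT.mul (PT.mul (PT.const 3) (pt_Gm hp hq hℓ hP0 k))
      (PT.succ (pt_Bc (ℓ := ℓ) hp hq hP0 k))))

private theorem pt_Q (hq : PT q) (hℓ : PT ℓ) (hP0 : PT P0) (k : ℕ) :
    PT fun c => Pm.Q ⟨p c, q c, ℓ c, P0 c, k⟩ :=
  PT.succ (PT.mul (pt_N (p := p) hq hℓ hP0 k) (pt_Ls (p := p) (ℓ := ℓ) (P0 := P0) hq k))

private theorem pt_QN (hp : PT p) (hq : PT q) (hℓ : PT ℓ) (hP0 : PT P0) (k : ℕ) :
    PT fun c => Pm.Q ⟨p c, q c, ℓ c, P0 c, k⟩ + Pm.N ⟨p c, q c, ℓ c, P0 c, k⟩ * (200 * p c ^ 4) :=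
  PT.add (pt_Q hq hℓ hP0 k) (PT.mul (pt_N hq hℓ hP0 k) (PT.mul (PT.const 200) (PT.pow hp 4)))

theorem pt_M (hp : PT p) (hq : PT q) (hℓ : PT ℓ) (hP0 : PT P0) (k : ℕ) :
    PT fun c => Pm.M ⟨p c, q c, ℓ c, P0 c, k⟩ :=
  PT.succ (PT.mul (PT.mul (PT.const 16) (PT.pow (pt_QN hp hq hℓ hP0 k) 2))
    (PT.pow (pt_R hp hq hℓ hP0 k) 2))

theorem pt_P {z : γ → ℕ} (hp : PT p) (hq : PT q) (hℓ : PT ℓ) (hP0 : PT P0) (hz : PT z) (k : ℕ) :
    PT fun c => Pm.P ⟨p c, q c, ℓ c, P0 c, k⟩ (z c) :=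
  PT.nextPrime (PT.add
    (PT.mul (PT.mul (PT.const 4) (pt_M hp hq hℓ hP0 k))
      (PT.succ (PT.mul (PT.mul (PT.const 36) (PT.pow (pt_QN hp hq hℓ hP0 k) 2))
        (PT.pow (pt_R hp hq hℓ hP0 k) 2))))
    (PT.mul (PT.mul (PT.mul (PT.const 288) (PT.pow hp 2)) (pt_A0 hp hq hℓ hP0 k))
      (PT.pow (PT.succ hz) 2)))

theorem pt_k0 {z : γ → ℕ} (hp : PT p) (hq : PT q) (hℓ : PT ℓ) (hP0 : PT P0) (hz : PT z) (k : ℕ) :
    PT fun c => Pm.k0 ⟨p c, q c, ℓ c, P0 c, k⟩ (z c) :=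
  PT.mul (PT.mul (PT.mul (PT.const 288) (PT.pow hp 2)) (pt_A0 hp hq hℓ hP0 k))
    (pt_P hp hq hℓ hP0 hz k)

private theorem pt_Lt (hℓ : PT ℓ) (hP0 : PT P0) (k : ℕ) :
    PT fun c => Pm.Lt ⟨p c, q c, ℓ c, P0 c, k⟩ :=
  PT.succ (PT.add (PT.mul (PT.const (k + 1)) hP0) hℓ)

private theorem pt_wlen {f g : γ → ℕ} (hf : PT f) (hg : PT g) :
    PT fun c => wlen (f c) (g c) :=
  PT.mul hg (PT.succ (PT.mul (PT.const 2) hf))

private theorem pt_slen {f g h : γ → ℕ} (hf : PT f) (hg : PT g) (hh : PT h) :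
    PT fun c => slen (f c) (g c) (h c) :=
  PT.mul hg (PT.add (PT.add (pt_wlen hf hh) (PT.mul (PT.const 2) hf)) (PT.const 8))

private theorem pt_nodelen {f g h i : γ → ℕ} (hf : PT f) (hg : PT g) (hh : PT h) (hi : PT i)
    (k : ℕ) : PT fun c => nodelen (f c) (g c) (h c) (i c) k :=
  PT.add (PT.add (PT.add (PT.add (pt_slen hf hh hi) (PT.mul (PT.const 2) (pt_wlen hf hi)))
    (PT.const k)) (PT.mul (PT.succ hi) (PT.add (PT.mul hg (PT.succ (pt_wlen hf hi)))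
      (PT.const 4)))) (PT.const 4)

private theorem pt_tlen {f g h i j : γ → ℕ} (hf : PT f) (hg : PT g) (hh : PT h) (hi : PT i)
    (k : ℕ) (hj : PT j) : PT fun c => tlen (f c) (g c) (h c) (i c) k (j c) :=
  PT.mul (PT.succ hj) (PT.succ (pt_nodelen hf hg hh hi k))

theorem pt_tb (hq : PT q) (hℓ : PT ℓ) (hP0 : PT P0) (k : ℕ) :
    PT fun c => Pm.tb ⟨p c, q c, ℓ c, P0 c, k⟩ :=
  pt_tlen hℓ hq (pt_Ls (p := p) (ℓ := ℓ) (P0 := P0) hq k) (pt_Lt (p := p) (q := q) hℓ hP0 k) k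
    (pt_N (p := p) hq hℓ hP0 k)

end PT

private theorem prm_exp (q : ℕ) : ∃ E : ℕ, ∀ z, E ≤ z → (z + 2) ^ q < 2 ^ z := by
  have h := (tendsto_pow_const_div_const_pow_of_one_lt q (one_lt_two (α := ℝ))).comp
    (Filter.tendsto_add_atTop_nat 2)
  have h1 := h.eventually (gt_mem_nhds (show (0 : ℝ) < 1 / 4 by norm_num))
  obtain ⟨E, hE⟩ := h1.exists_forall_of_atTop
  refine ⟨E, fun z hz => ?_⟩
  have h2 := hE z hz
  simp only [Function.comp_apply] at h2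
  rw [div_lt_iff₀ (by positivity), pow_add] at h2
  have h3 : ((z + 2 : ℕ) : ℝ) ^ q < 2 ^ z := by
    have h4 : (1 / 4 : ℝ) * (2 ^ z * 2 ^ 2) = 2 ^ z := by ring
    rwa [h4] at h2
  exact_mod_cast h3

/-- The prime number is small. As `exists_EW` (Maj/LtPrm). -/
theorem exists_EA {p q ℓ P0 : ℕ → ℕ} (hp : PT p) (hq : PT q) (hℓ : PT ℓ) (hP0 : PT P0) (k : ℕ) :
    ∃ E : ℕ, 1 ≤ E ∧ ∀ z, E ≤ z → Pm.P ⟨p z, q z, ℓ z, P0 z, k⟩ z < 2 ^ z := by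
  obtain ⟨r, hr⟩ := (pt_P hp hq hℓ hP0 PT.id k).size_le
  obtain ⟨E, hE⟩ := prm_exp r
  refine ⟨E + 1, by omega, fun z hz => ?_⟩
  have h1 := hr z
  rw [sz_nat, sz_nat] at h1
  exact h1.trans_lt (hE z (by omega))

end Pool.Agent.Lib.MP_634427_lc.Ad
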