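import Pool.Agent.Lib.MP_634427_lc.Ad.Ops

/-!
# The operations give right answers

`Good next S e` says that all answers received so far are those of the oracle `S`. Every operation
keeps this if its data fit to `S`. All lemmas are for one test `r` that satisfies `Fit`.
-/

namespace Pool.Agent.Lib.MP_634427_lc.Ad

open Pool.Agent.Lib.MP_634427_lc Pool.Agent.Lib.MP_634427_lc.KNo

/-- Few steps and few blocks of negative answers on the test `r`, and short queries. -/
structure Fit (next : Word → List Bool → Option Word) (S : Set Word) (ℓ q k : ℕ) (r : Word) :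
    Prop where
  len : ∀ tr, Good next S (r, tr) → tr.length ≤ q
  neg : ∀ tr, Good next S (r, tr) → turns next (r, tr) ≤ k
  short : ∀ tr s, Good next S (r, tr) → next r tr = some s → s.length ≤ ℓ

variable {next : Word → List Bool → Option Word} {S : Set Word} {ℓ q k : ℕ} {r : Word}

theorem Fit.redT (h : Fit next S ℓ q k r) : RedT next S [r] q k :=
  ⟨fun r' hr => by rw [List.mem_singleton.1 hr]; exact h.len,
    fun r' hr => by rw [List.mem_singleton.1 hr]; exact h.neg⟩

/-- An operation does not change the test, and it prolongs the transcript. `iter_fst`, `iter_prefix`,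
`no`, `yesA`. -/
theorem opr_fst {o : Op} {e e' : Item} (h : opr next ℓ q o e = some e') : e'.1 = e.1 ∧ e.2 <+: e'.2 := by
  have hadv : ∀ T : List Word, (adv next q T e).1 = e.1 ∧ e.2 <+: (adv next q T e).2 := fun T =>
    ⟨iter_fst _ _ _, iter_prefix _ _ _⟩
  have hno : ∀ x : Item, x.1 = e.1 ∧ e.2 <+: x.2 → (no x).1 = e.1 ∧ e.2 <+: (no x).2 := fun x hx =>
    ⟨hx.1, hx.2.trans (List.prefix_append _ _)⟩
  unfold opr at h
  split_ifs at h with h0 h1 h2 h3 h4 h5 h6 h7
  · cases h
    exact hno _ (hadv _)
  · cases h
    exact hno _ (hadv _)
  · cases h
    exact hadv _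
  · cases hf : freeL next ℓ e
    · rw [hf] at h
      cases h
      exact ⟨rfl, List.prefix_rfl⟩
    · rw [hf] at h
      cases hp : pendIn next o.2.1 e
      · rw [hp] at h
        cases h
      · rw [hp] at h
        cases h
        exact hno _ ⟨rfl, List.prefix_rfl⟩
  · cases hf : (freeL next ℓ e && decide (qry next e = some o.2.2))
    · rw [hf] at h
      cases h
    · rw [hf] at h
      cases h
      exact ⟨rfl, List.prefix_append _ _⟩
  · cases h
    exact ⟨iter_fst _ _ _, iter_prefix _ _ _⟩

/-- A script does not change the test. Induction on `σ` from the right, `opr_fst`. -/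
theorem run_fst {σ : List Op} {e : Item} (h : run next ℓ q σ r = some e) : e.1 = r := by
  induction σ using List.reverseRecOn generalizing e with
  | nil =>
    cases h
    rfl
  | append_singleton σ o ih =>
    unfold run at h ih
    rw [List.foldl_append, List.foldl_cons, List.foldl_nil, Option.bind_eq_some_iff] at h
    obtain ⟨e0, h0, h1⟩ := h
    exact (opr_fst h1).1.trans (ih h0)

/-- `run` of a longer script. -/
theorem run_append (σ τ : List Op) (r : Word) :
    run next ℓ q (σ ++ τ) r = τ.foldl (fun x o => x.bind (opr next ℓ q o)) (run next ℓ q σ r) := by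
  unfold run
  rw [List.foldl_append]

/-- Halting branch: `good_adv`. -/
theorem opH_right {T : List Word} (hT : ∀ w ∈ T, w ∈ S) {e e' : Item} (hg : Good next S e)
    (h : opr next ℓ q (opH T) e = some e') : Good next S e' ∧ next e'.1 e'.2 = none := by
  have h' : (if (qry next (adv next q T e)).isNone then some (adv next q T e) else none) =
      some e' := h
  split_ifs at h' with h1
  cases h'
  exact ⟨(good_adv hT q).2 hg, Option.isNone_iff_eq_none.1 h1⟩

private lemma ra_no {T : List Word} (hT : ∀ w ∈ T, w ∈ S) {z : Word} (hz : z ∉ S) {e : Item}
    (hg : Good next S e) (hf : free next e = false)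
    (hq : qry next (adv next q T e) = some z) :
    Good next S (no (adv next q T e)) ∧ turns next e + 1 ≤ turns next (no (adv next q T e)) := by
  refine ⟨((good_adv hT q).2 hg).append hq (b := false) (by simp [hz]), ?_⟩
  have h1 : free next ((adv next q T e).1, (adv next q T e).2) = false := by
    by_contra h2
    rw [Bool.not_eq_false] at h2
    have h3 := free_adv h2
    rw [hf] at h3
    cases h3
  have h2 := turns_append (next := next) (adv next q T e).1 (adv next q T e).2 false
  rw [if_pos ⟨rfl, h1⟩] at h2
  have h3 := turns_mono (next := next) e.1 (iter_prefix (next := next) (inT T) q e)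
  have h4 : (adv next q T e).1 = e.1 := iter_fst _ _ _
  have h5 : turns next (no (adv next q T e)) =
      turns next ((adv next q T e).1, (adv next q T e).2 ++ [false]) := rfl
  rw [h5, h2, h4]
  exact Nat.succ_le_succ h3

/-- A negative answer to a query outside `S`. `good_adv`, `free_adv` (the block is closed, so the
new negative answer counts), `turns_append`, `turns_mono`. -/
theorem opN_right {T : List Word} {s : Word} (hT : ∀ w ∈ T, w ∈ S) (hs : s ∉ S) {e e' : Item}
    (hg : Good next S e) (hf : free next e = false) (h : opr next ℓ q (opN T s) e = some e') :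
    Good next S e' ∧ turns next e + 1 ≤ turns next e' := by
  have h' : (if qry next (adv next q T e) = some s then some (no (adv next q T e)) else none) =
      some e' := h
  split_ifs at h' with h1
  cases h'
  exact ra_no hT hs hg hf h1

/-- A negative answer to the pending query, whatever it is. If the pending query `z` is in `T` then
the item is not good: the transcript after `q` positive answers would have more than `q` answers
(`iter_stuck_or`, `Fit.len`). If `z ∈ S`, `z ∉ T`, the second alternative holds (`Fit.short`).
Otherwise the negative answer is right. -/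
theorem opR_right (hfit : Fit next S ℓ q k r) {T : List Word} (hT : ∀ w ∈ T, w ∈ S) {e e' : Item}
    (her : e.1 = r) (hg : Good next S e) (hf : free next e = false)
    (h : opr next ℓ q (opR T) e = some e') :
    (Good next S e' ∧ turns next e + 1 ≤ turns next e') ∨
      ∃ z, z ∈ S ∧ z ∉ T ∧ z.length ≤ ℓ ∧ qry next (adv next q T e) = some z := by
  have h' : (if (qry next (adv next q T e)).isSome then some (no (adv next q T e)) else none) =
      some e' := h
  split_ifs at h' with h1
  cases h'
  obtain ⟨z, hz⟩ := Option.isSome_iff_exists.1 h1
  by_cases hzS : z ∈ S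
  · right
    refine ⟨z, hzS, ?_, ?_, hz⟩
    · exact adv_pending hfit.redT.toRed hT (by rw [her]; exact List.mem_singleton_self r) hg hz
    · have h2 : (adv next q T e).1 = r := (iter_fst _ _ _).trans her
      have h3 : Good next S ((adv next q T e).1, (adv next q T e).2) := (good_adv hT q).2 hg
      have h4 : next (adv next q T e).1 (adv next q T e).2 = some z := hz
      rw [h2] at h3 h4
      exact hfit.short _ _ h3 h4
  · left
    exact ra_no hT hzS hg hf hz

end Pool.Agent.Lib.MP_634427_lc.Ad
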