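import Pool.Agent.Lib.MP_634427_lc.Ad.RightA

/-!
# The operations give right answers: blocks, and positive answers only
-/

namespace Pool.Agent.Lib.MP_634427_lc.Ad

open Pool.Agent.Lib.MP_634427_lc Pool.Agent.Lib.MP_634427_lc.KNo

variable {next : Word → List Bool → Option Word} {S : Set Word} {ℓ q k : ℕ} {r : Word}

private theorem rightB_opF (W : List Word) (e : Item) : opr next ℓ q (opF W) e =
    bif freeL next ℓ e then (bif pendIn next W e then some (no e) else none) else some e := rfl

private theorem rightB_opJ (s : Word) (e : Item) : opr next ℓ q (opJ s) e =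
    bif freeL next ℓ e && decide (qry next e = some s) then some (yesA e) else none := rfl

private theorem rightB_opY (e : Item) : opr next ℓ q opY e = some (yes next q e) := rfl

/-- The two cases of a step of a block. -/
private theorem rightB_casesF {W : List Word} {e e' : Item}
    (h : opr next ℓ q (opF W) e = some e') : (freeL next ℓ e = false ∧ e' = e) ∨
      (freeL next ℓ e = true ∧ (∃ s, next e.1 e.2 = some s ∧ s ∈ W) ∧ e' = no e) := by
  rw [rightB_opF] at h
  cases hf : freeL next ℓ e
  · rw [hf, cond_false] at h
    exact Or.inl ⟨rfl, (Option.some.inj h).symm⟩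
  · rw [hf, cond_true] at h
    right
    cases hp : pendIn next W e
    · rw [hp, cond_false] at h
      exact absurd h (by simp)
    · rw [hp, cond_true] at h
      refine ⟨rfl, ?_, (Option.some.inj h).symm⟩
      unfold pendIn qry at hp
      rcases hn : next e.1 e.2 with _ | s
      · rw [hn] at hp
        simp at hp
      · rw [hn] at hp
        exact ⟨s, rfl, by simpa using hp⟩

/-- A step of a block: no word of `W` is in `S`. -/
theorem opF_right {W : List Word} (hW : ∀ w ∈ W, w ∉ S) {e e' : Item} (hg : Good next S e)
    (h : opr next ℓ q (opF W) e = some e') : Good next S e' ∧ turns next e ≤ turns next e' := by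
  rcases rightB_casesF h with ⟨-, rfl⟩ | ⟨-, ⟨s, hs, hsW⟩, rfl⟩
  · exact ⟨hg, le_rfl⟩
  · exact ⟨hg.append hs (by simp [hW s hsW]), turns_mono e.1 (List.prefix_append _ _)⟩

/-- The first `t` steps of a block; if a negative answer is still free then `t` answers have been
given (compare `iter_noStep_free`). -/
theorem fops_right {Fs : List (List Word)} {t : ℕ} (hW : ∀ i < t, ∀ w ∈ Fs.getD i [], w ∉ S)
    {e e' : Item} (hg : Good next S e)
    (h : (fops Fs t).foldl (fun x o => x.bind (opr next ℓ q o)) (some e) = some e') :
    Good next S e' ∧ turns next e ≤ turns next e' ∧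
      (freeL next ℓ e' = true → t ≤ e'.2.length) := by
  induction t generalizing e' with
  | zero =>
    have h1 : some e = some e' := h
    have h2 := Option.some.inj h1
    subst h2
    exact ⟨hg, le_rfl, fun _ => Nat.zero_le _⟩
  | succ t ih =>
    have h1 : fops Fs (t + 1) = fops Fs t ++ [opF (Fs.getD t [])] := by
      unfold fops
      rw [List.range_succ, List.map_append, List.map_singleton]
    rw [h1, List.foldl_append, List.foldl_cons, List.foldl_nil] at h
    obtain ⟨e1, h2, h3⟩ := Option.bind_eq_some_iff.1 h
    obtain ⟨a1, a2, a3⟩ := ih (fun i hi => hW i (by omega)) h2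
    obtain ⟨b1, b2⟩ := opF_right (hW t (by omega)) a1 h3
    refine ⟨b1, a2.trans b2, fun hf => ?_⟩
    rcases rightB_casesF h3 with ⟨c1, rfl⟩ | ⟨c1, -, rfl⟩
    · rw [c1] at hf
      exact absurd hf (by simp)
    · have h4 := a3 c1
      simp only [no, List.length_append, List.length_singleton]
      omega

/-- After `q` steps of a block a good item is not free any more (`Fit.len`, one more answer would be
possible; `Fit.short` gives `freeL` from `free`). -/
theorem free_of_long (hfit : Fit next S ℓ q k r) {e : Item} (her : e.1 = r) (hg : Good next S e)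
    (h : freeL next ℓ e = true → q ≤ e.2.length) : free next e = false := by
  classical
  by_contra hf
  rw [Bool.not_eq_false] at hf
  obtain ⟨r', tr⟩ := e
  simp only at her
  subst her
  have h2 : ∃ s, next r' tr = some s := by
    unfold free at hf
    rw [Bool.and_eq_true] at hf
    rcases hn : next r' tr with _ | s
    · rw [hn] at hf; simp at hf
    · exact ⟨s, rfl⟩
  obtain ⟨s, hs⟩ := h2
  have hsl := hfit.short tr s hg hs
  have hfL : freeL next ℓ (r', tr) = true := by
    unfold freeL
    rw [hf]
    simp only [hs]
    simpa using hsl
  have h3 := h hfL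
  have h4 := hfit.len _ (hg.append hs (b := decide (s ∈ S)) (by simp))
  rw [List.length_append, List.length_singleton] at h4
  simp only at h3 h4
  omega

/-- The end of a block with a positive answer. -/
theorem opJ_right {s : Word} (hs : s ∈ S) {e e' : Item} (hg : Good next S e)
    (h : opr next ℓ q (opJ s) e = some e') :
    Good next S e' ∧ turns next e ≤ turns next e' ∧ free next e' = false := by
  rw [rightB_opJ] at h
  cases hc : freeL next ℓ e && decide (qry next e = some s)
  · rw [hc, cond_false] at h
    exact absurd h (by simp)
  · rw [hc, cond_true] at h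
    have h1 := (Option.some.inj h).symm
    subst h1
    rw [Bool.and_eq_true, decide_eq_true_eq] at hc
    exact ⟨hg.append hc.2 (by simp [hs]), turns_mono e.1 (List.prefix_append _ _),
      free_append_true _ _⟩

/-- All `k` blocks have been used: `good_yesT`, `yes_haltsT`. -/
theorem opY_right (hfit : Fit next S ℓ q k r) {e e' : Item} (her : e.1 = r)
    (hg : Good next S e) (hk : k ≤ turns next e) (hf : free next e = false)
    (h : opr next ℓ q opY e = some e') : Good next S e' ∧ next e'.1 e'.2 = none := by
  rw [rightB_opY] at h
  have h1 := (Option.some.inj h).symm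
  subst h1
  have hr : e.1 ∈ [r] := by rw [her]; exact List.mem_singleton.2 rfl
  exact ⟨good_yesT hfit.redT hr hg hk hf q, yes_haltsT hfit.redT hr hg hk hf⟩

end Pool.Agent.Lib.MP_634427_lc.Ad
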