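import Pool.Agent.Lib.MP_634427_lc.Ad.TreeDefs
import Pool.Agent.Lib.MP_634427_lc.Data

/-!
# The size of a tree

The size of a word is at most twice its length (`sz_word_le`), the size of a list is the sum of the
sizes plus one of its members, the size of a pair is the sum plus one.
-/

namespace Pool.Agent.Lib.MP_634427_lc.Ad

open Pool.Agent.Lib.MP_634427_lc

/-- Bound for the size of a list of at most `Lt` words of length at most `ℓ`. -/
def wlen (ℓ Lt : ℕ) : ℕ := Lt * (2 * ℓ + 1)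

/-- Bound for the size of a script. -/
def slen (ℓ Ls Lt : ℕ) : ℕ := Ls * (wlen ℓ Lt + 2 * ℓ + 8)

/-- Bound for the size of a node of a tree. -/
def nodelen (ℓ q Ls Lt k : ℕ) : ℕ :=
  slen ℓ Ls Lt + 2 * wlen ℓ Lt + k + (Lt + 1) * (q * (wlen ℓ Lt + 1) + 4) + 4

/-- Bound for the size of a tree and for the size of a leaf. -/
def tlen (ℓ q Ls Lt k N : ℕ) : ℕ := (N + 1) * (nodelen ℓ q Ls Lt k + 1)

private theorem sz_list_bd {α : Type} [Enc α] {m : ℕ} (l : List α) (h : ∀ a ∈ l, sz a ≤ m) :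
    sz l ≤ l.length * (m + 1) := by
  induction l with
  | nil => simp
  | cons a l ih =>
    have h1 := h a (List.mem_cons_self ..)
    have h2 := ih fun b hb => h b (List.mem_cons_of_mem _ hb)
    rw [sz_cons, List.length_cons, Nat.add_mul, Nat.one_mul]
    omega

private theorem sz_list_bd' {α : Type} [Enc α] {m n : ℕ} {l : List α} (hn : l.length ≤ n)
    (h : ∀ a ∈ l, sz a ≤ m) : sz l ≤ n * (m + 1) :=
  (sz_list_bd l h).trans (Nat.mul_le_mul_right _ hn)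

theorem sz_wlist_le {ℓ Lt : ℕ} {T : List Word} (h : T.length ≤ Lt) (h' : ∀ w ∈ T, w.length ≤ ℓ) :
    sz T ≤ wlen ℓ Lt :=
  sz_list_bd' h fun w hw => (sz_word_le w).trans (Nat.mul_le_mul_left 2 (h' w hw))

private theorem sz_script_slen {ℓ Ls Lt : ℕ} {σ : List Op} (h : OkScript ℓ Ls Lt σ) :
    sz σ ≤ slen ℓ Ls Lt := by
  refine sz_list_bd' (m := wlen ℓ Lt + 2 * ℓ + 7) h.1 fun o ho => ?_
  obtain ⟨h1, h2, h3, h4⟩ := h.2 o ho
  have h5 := sz_wlist_le h2 h3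
  have h6 := (sz_word_le o.2.2).trans (Nat.mul_le_mul_left 2 h4)
  rw [sz_prod o, sz_prod o.2, sz_nat]
  omega

/-- Scripts are small. -/
theorem sz_script_le {ℓ q Ls Lt k N : ℕ} {σ : List Op} (h : OkScript ℓ Ls Lt σ) :
    sz σ ≤ tlen ℓ q Ls Lt k N := by
  refine (sz_script_slen h).trans ?_
  have h1 : slen ℓ Ls Lt ≤ nodelen ℓ q Ls Lt k + 1 := by
    unfold nodelen
    omega
  exact h1.trans (Nat.le_mul_of_pos_left _ (Nat.succ_pos N))

/-- Trees are small. -/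
theorem sz_tree_le {ℓ q Ls Lt k N : ℕ} {Ns : List TNode} (hN : Ns.length ≤ N)
    (h : ∀ a ∈ Ns, OkNode ℓ q Ls Lt k a) : sz Ns ≤ tlen ℓ q Ls Lt k N := by
  refine (sz_list_bd' (m := nodelen ℓ q Ls Lt k) hN fun a ha => ?_).trans
    (Nat.mul_le_mul_right _ (Nat.le_succ N))
  obtain ⟨h1, h2, h3, h4, h5, h6⟩ := h a ha
  have e1 := sz_script_slen h1
  have e2 := sz_wlist_le h2.1 h2.2
  have e3 := sz_wlist_le h4.1 h4.2
  have e4 : sz a.2.2 ≤ (Lt + 1) * (q * (wlen ℓ Lt + 1) + 4) := by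
    refine sz_list_bd' (m := q * (wlen ℓ Lt + 1) + 3) h5 fun b hb => ?_
    obtain ⟨g1, g2, g3⟩ := h6 b hb
    have g4 : sz b.2 ≤ q * (wlen ℓ Lt + 1) :=
      sz_list_bd' g2 fun W hW => sz_wlist_le (g3 W hW).1 (g3 W hW).2
    rw [sz_prod b, sz_nat]
    omega
  rw [sz_prod a, sz_prod a.1, sz_prod a.1.2, sz_prod a.2, sz_nat]
  unfold nodelen
  omega

end Pool.Agent.Lib.MP_634427_lc.Ad
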