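import Pool.Agent.Lib.MP_634427_lc.Ad.TreeB

/-!
# Existence of the tree for a finite family of tests
-/

namespace Pool.Agent.Lib.MP_634427_lc.Ad

open Pool.Agent.Lib.MP_634427_lc Pool.Agent.Lib.MP_634427_lc.KNo Finset

variable {next : Word → List Bool → Option Word} {ℓ q : ℕ} {G : Type} [Fintype G] {rq : G → Word}

private lemma al_nil : al next ℓ q rq [] = Fintype.card G := by
  have h : ∀ g ∈ (univ : Finset G), alive next ℓ q [] (rq g) = true := fun g _ => rfl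
  unfold al
  rw [Finset.filter_true_of_mem h, Finset.card_univ]

/-- Existence of a closed tree with large leaves and small error sets. -/
theorem exists_tree (B P0 k : ℕ) [Nonempty G]
    (hℓ : ∀ g tr s, tr.length ≤ (k * (q + 2) + 2) * (q + 1) → next (rq g) tr = some s →
      s.length ≤ ℓ) :
    ∃ (Ns : List TNode) (Lv : List (List Op)), closed ℓ q P0 k Ns Lv = true ∧
      Ns.length ≤ numT P0 q ℓ k ∧ Lv.length ≤ numT P0 q ℓ k ∧
      (∀ N ∈ Ns, OkNode ℓ q (k * (q + 2) + 1) ((k + 1) * P0 + ℓ + 1) k N) ∧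
      ∀ τ ∈ Lv, OkScript ℓ (k * (q + 2) + 1) ((k + 1) * P0 + ℓ + 1) τ ∧
        Fintype.card G ≤ Gam B q ℓ k * al next ℓ q rq τ ∧
        ∀ σ' T' z, (σ' ++ [opR T']) <+: τ → z ∉ T' →
          B * cnt next ℓ q rq σ' T' z ≤ al next ℓ q rq τ := by
  have hP : P0 ≤ (k + 1) * P0 := Nat.le_mul_of_pos_left _ (Nat.succ_pos k)
  have hkP : k * P0 ≤ (k + 1) * P0 := Nat.mul_le_mul_right _ (Nat.le_succ k)
  obtain ⟨Ns, Lv, h1, h2, h3, h4, h5, h6⟩ := exists_tree_at (next := next) (ℓ := ℓ) (q := q)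
    (rq := rq) B P0 k (k * (q + 2) + 1) ((k + 1) * P0 + ℓ + 1) k hℓ [] []
    (by rw [List.length_nil]; omega) (by rw [List.length_nil]; omega) (by omega) (by omega) le_rfl
    (fun o ho => absurd ho List.not_mem_nil) (fun w hw => absurd hw List.not_mem_nil)
    (by rw [al_nil]; exact Fintype.card_pos)
  refine ⟨Ns, Lv, ?_, h3, h4, h5, fun τ hτ => ?_⟩
  · unfold closed
    rw [Bool.and_eq_true]
    exact ⟨decide_eq_true h1, h2⟩
  · obtain ⟨h7, -, h8, h9⟩ := h6 τ hτ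
    rw [al_nil] at h8
    exact ⟨h7, h8, fun σ' T' z hσ hz => h9 σ' T' z hσ (Nat.zero_le _) hz⟩

end Pool.Agent.Lib.MP_634427_lc.Ad
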