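import Pool.Agent.Lib.MP_634427_lc.Ad.TreeDefs

/-!
# Counting lemmas for scripts
-/

namespace Pool.Agent.Lib.MP_634427_lc.Ad

open Pool.Agent.Lib.MP_634427_lc Pool.Agent.Lib.MP_634427_lc.KNo Finset

variable {next : Word → List Bool → Option Word} {ℓ q : ℕ} {G : Type} [Fintype G] {rq : G → Word}

omit [Fintype G] in
private theorem ta_run (σ : List Op) (o : Op) (r : Word) :
    run next ℓ q (σ ++ [o]) r = (run next ℓ q σ r).bind (opr next ℓ q o) := by
  unfold run
  rw [List.foldl_append]
  rfl

private theorem ta_step (f : Word → Option Bool) (e : Item) :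
    (step next f e).2.length ≤ e.2.length + 1 := by
  unfold step
  split
  · exact Nat.le_succ _
  · split
    · exact Nat.le_succ _
    · rw [List.length_append, List.length_singleton]

private theorem ta_iter (f : Word → Option Bool) (n : ℕ) (e : Item) :
    ((step next f)^[n] e).2.length ≤ e.2.length + n := by
  induction n with
  | zero => exact le_rfl
  | succ n ih =>
    rw [Function.iterate_succ_apply']
    have := ta_step (next := next) f ((step next f)^[n] e)
    omega

private theorem ta_adv (T : List Word) (e : Item) :
    (adv next q T e).1 = e.1 ∧ (adv next q T e).2.length ≤ e.2.length + q :=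
  ⟨iter_fst _ _ _, ta_iter _ _ _⟩

private theorem ta_opr {o : Op} {e e' : Item} (h : opr next ℓ q o e = some e') :
    e'.1 = e.1 ∧ e'.2.length ≤ e.2.length + (q + 1) := by
  obtain ⟨h1, h2⟩ := ta_adv (next := next) (q := q) o.2.1 e
  have hno : ∀ x : Item, (no x).1 = x.1 ∧ (no x).2.length = x.2.length + 1 := fun x =>
    ⟨rfl, by simp [no]⟩
  unfold opr at h
  split_ifs at h
  · obtain rfl := Option.some.inj h
    obtain ⟨h3, h4⟩ := hno (adv next q o.2.1 e)
    exact ⟨h3.trans h1, by omega⟩
  · obtain rfl := Option.some.inj h
    obtain ⟨h3, h4⟩ := hno (adv next q o.2.1 e)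
    exact ⟨h3.trans h1, by omega⟩
  · obtain rfl := Option.some.inj h
    exact ⟨h1, by omega⟩
  · cases hf : freeL next ℓ e
    · rw [hf, cond_false] at h
      obtain rfl := Option.some.inj h
      exact ⟨rfl, by omega⟩
    · rw [hf, cond_true] at h
      cases hp : pendIn next o.2.1 e
      · rw [hp, cond_false] at h
        exact absurd h (by simp)
      · rw [hp, cond_true] at h
        obtain rfl := Option.some.inj h
        obtain ⟨h3, h4⟩ := hno e
        exact ⟨h3, by omega⟩
  · cases hf : (freeL next ℓ e && decide (qry next e = some o.2.2))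
    · rw [hf, cond_false] at h
      exact absurd h (by simp)
    · rw [hf, cond_true] at h
      obtain rfl := Option.some.inj h
      refine ⟨rfl, ?_⟩
      simp only [yesA, List.length_append, List.length_singleton]
      omega
  · obtain rfl := Option.some.inj h
    refine ⟨iter_fst _ _ _, ?_⟩
    have := ta_iter (next := next) (fun _ => some true) q e
    unfold yes
    omega

/-- Every operation adds at most `q + 1` answers. -/
theorem run_length {σ : List Op} {r : Word} {e : Item} (h : run next ℓ q σ r = some e) :
    e.1 = r ∧ e.2.length ≤ σ.length * (q + 1) := by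
  induction σ using List.reverseRecOn generalizing e with
  | nil =>
    obtain rfl : (r, []) = e := Option.some.inj h
    exact ⟨rfl, by simp⟩
  | append_singleton σ o ih =>
    rw [ta_run] at h
    obtain ⟨e0, h0, h1⟩ := Option.bind_eq_some_iff.1 h
    obtain ⟨h2, h3⟩ := ih h0
    obtain ⟨h4, h5⟩ := ta_opr h1
    refine ⟨h4.trans h2, ?_⟩
    rw [List.length_append, List.length_singleton, Nat.succ_mul]
    omega

theorem al_opN (σ : List Op) (T : List Word) (s : Word) :
    al next ℓ q rq (σ ++ [opN T s]) = cnt next ℓ q rq σ T s := by
  unfold al cnt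
  congr 1
  refine Finset.filter_congr fun g _ => ?_
  unfold alive waits
  rw [ta_run]
  rcases hr : run next ℓ q σ (rq g) with _ | e
  · simp
  · rw [Option.bind_some]
    unfold opr opN
    simp only [if_true]
    by_cases h : qry next (adv next q T e) = some s
    · simp [h]
    · simp [h]

theorem al_opH_opR (σ : List Op) (T : List Word) :
    al next ℓ q rq (σ ++ [opH T]) + al next ℓ q rq (σ ++ [opR T]) = al next ℓ q rq σ := by
  classical
  unfold al
  rw [← Finset.card_union_of_disjoint]
  · congr 1
    ext g
    simp only [Finset.mem_union, Finset.mem_filter, Finset.mem_univ, true_and]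
    unfold alive
    rw [ta_run, ta_run]
    rcases hr : run next ℓ q σ (rq g) with _ | e
    · simp
    · rw [Option.bind_some, Option.bind_some]
      unfold opr opH opR
      rcases hq : qry next (adv next q T e) with _ | w
      · simp
      · simp
  · rw [Finset.disjoint_filter]
    intro g _
    unfold alive
    rw [ta_run, ta_run]
    rcases hr : run next ℓ q σ (rq g) with _ | e
    · simp
    · rw [Option.bind_some, Option.bind_some]
      unfold opr opH opR
      rcases hq : qry next (adv next q T e) with _ | w
      · simp
      · simp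

theorem al_opY (σ : List Op) : al next ℓ q rq (σ ++ [opY]) = al next ℓ q rq σ := by
  unfold al
  congr 1
  refine Finset.filter_congr fun g _ => ?_
  unfold alive
  rw [ta_run]
  rcases hr : run next ℓ q σ (rq g) with _ | e
  · simp
  · simp [opr, opY]

/-- A word at which somebody waits is short. The transcript before has at most
`(σ.length + 1) * (q + 1)` answers. -/
theorem length_of_cnt {Ls : ℕ}
    (hℓ : ∀ g tr s, tr.length ≤ (Ls + 1) * (q + 1) → next (rq g) tr = some s → s.length ≤ ℓ)
    {σ : List Op} (hσ : σ.length ≤ Ls) {T : List Word} {z : Word}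
    (h : 0 < cnt next ℓ q rq σ T z) : z.length ≤ ℓ := by
  obtain ⟨g, hg⟩ := Finset.card_pos.1 h
  have h1 := (Finset.mem_filter.1 hg).2
  unfold waits at h1
  rcases hr : run next ℓ q σ (rq g) with _ | e
  · rw [hr] at h1
    exact absurd h1 (by simp)
  · rw [hr] at h1
    simp only [decide_eq_true_eq] at h1
    obtain ⟨h2, h3⟩ := run_length hr
    obtain ⟨h4, h5⟩ := ta_adv (next := next) (q := q) T e
    unfold qry at h1
    rw [h4, h2] at h1
    refine hℓ g _ z ?_ h1
    have h6 : σ.length * (q + 1) ≤ Ls * (q + 1) := Nat.mul_le_mul_right _ hσ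
    rw [Nat.succ_mul]
    omega

end Pool.Agent.Lib.MP_634427_lc.Ad
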