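import Pool.Agent.Lib.MP_634427_lc.Ad.TreeA

/-!
# The chain of popular words
-/

namespace Pool.Agent.Lib.MP_634427_lc.Ad

open Pool.Agent.Lib.MP_634427_lc Pool.Agent.Lib.MP_634427_lc.KNo Finset

variable {next : Word → List Bool → Option Word} {ℓ q : ℕ} {G : Type} [Fintype G] {rq : G → Word}

/-- The chain of popular words. Add a popular word outside `T` and the chain as long as there is one
and the chain has fewer than `P0` words. -/
theorem exists_chain {Ls : ℕ}
    (hℓ : ∀ g tr s, tr.length ≤ (Ls + 1) * (q + 1) → next (rq g) tr = some s → s.length ≤ ℓ)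
    {σ : List Op} (hσ : σ.length ≤ Ls) (hal : 0 < al next ℓ q rq σ) (T : List Word) (th P0 : ℕ) :
    ∃ ch : List Word, ch.Nodup ∧ (∀ w ∈ ch, w ∉ T ∧ w.length ≤ ℓ) ∧ ch.length ≤ P0 ∧
      (∀ i < ch.length, al next ℓ q rq σ ≤
        th * cnt next ℓ q rq σ (ch.take i ++ T) (ch.getD i [])) ∧
      (ch.length = P0 ∨ ∀ z, z ∉ ch ++ T →
        th * cnt next ℓ q rq σ (ch ++ T) z < al next ℓ q rq σ) := by
  have key : ∀ n ≤ P0, ∃ ch : List Word, ch.Nodup ∧ (∀ w ∈ ch, w ∉ T ∧ w.length ≤ ℓ) ∧
      ch.length ≤ P0 ∧
      (∀ i < ch.length, al next ℓ q rq σ ≤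
        th * cnt next ℓ q rq σ (ch.take i ++ T) (ch.getD i [])) ∧
      (ch.length = n ∨ ∀ z, z ∉ ch ++ T →
        th * cnt next ℓ q rq σ (ch ++ T) z < al next ℓ q rq σ) := by
    intro n
    induction n with
    | zero =>
      intro _
      refine ⟨[], List.nodup_nil, ?_, ?_, ?_, Or.inl rfl⟩
      · intro w hw
        simp at hw
      · simp
      · intro i hi
        simp at hi
    | succ n ih =>
      intro hn
      obtain ⟨ch, h1, h2, h3, h4, h5⟩ := ih (by omega)
      by_cases hd : ∀ z, z ∉ ch ++ T → th * cnt next ℓ q rq σ (ch ++ T) z < al next ℓ q rq σ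
      · exact ⟨ch, h1, h2, h3, h4, Or.inr hd⟩
      · have hlen : ch.length = n := h5.resolve_right hd
        obtain ⟨z, hz⟩ := not_forall.1 hd
        rw [Classical.not_imp, not_lt, List.mem_append, not_or] at hz
        obtain ⟨⟨hz1, hz2⟩, hz3⟩ := hz
        have hc : 0 < cnt next ℓ q rq σ (ch ++ T) z := by
          rcases Nat.eq_zero_or_pos (cnt next ℓ q rq σ (ch ++ T) z) with h | h
          · rw [h, Nat.mul_zero] at hz3
            omega
          · exact h
        have hzl : z.length ≤ ℓ := length_of_cnt hℓ hσ hc
        refine ⟨ch ++ [z], ?_, ?_, ?_, ?_, Or.inl ?_⟩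
        · rw [List.nodup_append]
          refine ⟨h1, List.nodup_singleton z, ?_⟩
          intro a ha b hb hab
          rw [List.mem_singleton] at hb
          subst hb
          subst hab
          exact hz1 ha
        · intro w hw
          rw [List.mem_append, List.mem_singleton] at hw
          rcases hw with hw | hw
          · exact h2 w hw
          · subst hw
            exact ⟨hz2, hzl⟩
        · rw [List.length_append, List.length_singleton]
          omega
        · intro i hi
          rw [List.length_append, List.length_singleton] at hi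
          rcases Nat.lt_or_ge i ch.length with h | h
          · rw [List.take_append_of_le_length h.le, List.getD_append _ _ _ _ h]
            exact h4 i h
          · have hi' : i = ch.length := by omega
            subst hi'
            rw [List.take_append_of_le_length le_rfl, List.take_length,
              List.getD_append_right _ _ _ _ le_rfl, Nat.sub_self, List.getD_cons_zero]
            exact hz3
        · rw [List.length_append, List.length_singleton, hlen]
  exact key P0 le_rfl

end Pool.Agent.Lib.MP_634427_lc.Ad
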