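import Pool.Agent.Lib.MP_634427_lc.Ad.TreeBlk
import Pool.Agent.Lib.MP_634427_lc.Ad.TreeCh

/-!
# The tree below a key

Induction on `j` for all `σ`, `T`. `j = 0`: one node, one leaf `σ ++ [opY]`. Step: the chain of
`exists_chain` with `th = thJ B q ℓ j`. For `i ≤ r`, `i < P0`: kind 2 if `al σ ≤ 2 * al (σ ++ [opH T_i])`.
Otherwise kind 0 if `i < r` (`al (σ ++ [opN ..]) ≥ al σ / thJ`) and kind 1 if `i = r`
(`al σ ≤ 2 * al (σ ++ [opR ..])`); the block of `exists_block`; the trees of the children by induction;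
all lists of nodes and leaves are concatenated (`nodeOK` is monotone in both lists). A new prefix
`σ' ++ [opR T']` of a leaf is either below a child or `σ ++ [opR T_r]`; in the last case
`thJ * cnt z < al σ ≤ 2 * thB * Gam j * al leaf` for `z ∉ T_r`.
-/

namespace Pool.Agent.Lib.MP_634427_lc.Ad

open Pool.Agent.Lib.MP_634427_lc Pool.Agent.Lib.MP_634427_lc.KNo Finset

variable {next : Word → List Bool → Option Word} {ℓ q : ℕ} {G : Type} [Fintype G] {rq : G → Word}

private lemma trb_block_mono {K K' : List Key} (hK : ∀ a ∈ K, a ∈ K') {σ : List Op}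
    {T : List Word} {j : ℕ} {Fs : List (List Word)} (h : blockOK q K σ T j Fs = true) :
    blockOK q K' σ T j Fs = true := by
  unfold blockOK at h ⊢
  simp only [Bool.and_eq_true, decide_eq_true_eq, List.all_eq_true] at h ⊢
  exact ⟨hK _ h.1, fun t ht w hw => hK _ (h.2 t ht w hw)⟩

private lemma trb_branch_mono {K K' : List Key} {Lv Lv' : List (List Op)}
    (hK : ∀ a ∈ K, a ∈ K') (hL : ∀ a ∈ Lv, a ∈ Lv') {N : TNode} {i : ℕ}
    (h : branchOK q K Lv N i = true) : branchOK q K' Lv' N i = true := by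
  unfold branchOK at h ⊢
  cases h2 : (N.2.2.getD i (2, [])).1 == 2
  · rw [h2] at h
    simp only [cond_false] at h ⊢
    cases h0 : (N.2.2.getD i (2, [])).1 == 0
    · rw [h0] at h
      simp only [cond_false, Bool.and_eq_true] at h ⊢
      exact ⟨h.1, trb_block_mono hK h.2⟩
    · rw [h0] at h
      simp only [cond_true, Bool.and_eq_true] at h ⊢
      exact ⟨h.1, trb_block_mono hK h.2⟩
  · rw [h2] at h
    simp only [cond_true, decide_eq_true_eq] at h ⊢
    exact hL _ h

/-- `nodeOK` is monotone. -/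
theorem nodeOK_mono {P0 : ℕ} {K K' : List Key} {Lv Lv' : List (List Op)} (hK : ∀ a ∈ K, a ∈ K')
    (hL : ∀ a ∈ Lv, a ∈ Lv') {N : TNode} (h : nodeOK ℓ q P0 K Lv N = true) :
    nodeOK ℓ q P0 K' Lv' N = true := by
  unfold nodeOK at h ⊢
  cases h0 : N.1.2.2 == 0
  · rw [h0] at h
    rw [cond_false, Bool.and_eq_true, Bool.and_eq_true, List.all_eq_true (l := List.range _)] at h ⊢
    refine ⟨h.1, h.2.1, fun i hi => ?_⟩
    have h3 := h.2.2 i hi
    rw [Bool.or_eq_true] at h3 ⊢
    exact h3.imp_right (trb_branch_mono hK hL)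
  · rw [h0] at h
    rw [cond_true, decide_eq_true_eq] at h ⊢
    exact hL _ h

private lemma trb_pre_mem {σ1 rest σ' : List Op} {o : Op} (h : (σ' ++ [o]) <+: σ1 ++ rest)
    (hl : σ1.length ≤ σ'.length) : o ∈ rest := by
  obtain ⟨s, hs⟩ := h
  have h1 : (σ1 ++ rest)[σ'.length]? = some o := by
    rw [← hs, List.append_assoc, List.getElem?_append_right le_rfl]
    simp
  rw [List.getElem?_append_right hl] at h1
  exact List.mem_of_getElem? h1

private lemma trb_pre_eq {σ rest σ' : List Op} {o o' : Op} (h : (σ' ++ [o]) <+: σ ++ o' :: rest)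
    (hl : σ'.length = σ.length) : σ' = σ ∧ o = o' := by
  obtain ⟨s, hs⟩ := h
  rw [List.append_assoc] at hs
  obtain ⟨h1, h2⟩ := List.append_inj hs hl
  simp only [List.cons_append, List.nil_append, List.cons.injEq] at h2
  exact ⟨h1, h2.1⟩

private lemma trb_thB_pos : 2 ≤ thB q ℓ := by
  unfold thB
  omega

private lemma trb_Gam_pos (B : ℕ) : ∀ j, 1 ≤ Gam B q ℓ j
  | 0 => le_rfl
  | j + 1 => by
    have h1 := trb_Gam_pos B j
    have h2 := trb_thB_pos (q := q) (ℓ := ℓ)
    have h3 : 1 ≤ thB q ℓ * Gam B q ℓ j := Nat.mul_pos (by omega) h1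
    exact Nat.mul_pos (by omega) h3

private lemma trb_num_pos (P0 : ℕ) : ∀ j, 1 ≤ numT P0 q ℓ j
  | 0 => le_rfl
  | j + 1 => by
    unfold numT
    omega

/-- A part of a tree. -/
private structure TrbSub (next : Word → List Bool → Option Word) (ℓ q : ℕ) (rq : G → Word)
    (B P0 k Ls Lt J : ℕ) (σ : List Op) (num : ℕ) (Ns : List TNode) (Lv : List (List Op)) :
    Prop where
  all : allOK ℓ q P0 Ns Lv = true
  n1 : Ns.length ≤ num
  n2 : Lv.length ≤ num
  ok : ∀ N ∈ Ns, OkNode ℓ q Ls Lt k N
  lf : ∀ τ ∈ Lv, OkScript ℓ Ls Lt τ ∧ σ <+: τ ∧ al next ℓ q rq σ ≤ Gam B q ℓ J * al next ℓ q rq τ ∧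
        ∀ σ' T' z, (σ' ++ [opR T']) <+: τ → σ.length ≤ σ'.length → z ∉ T' →
          B * cnt next ℓ q rq σ' T' z ≤ al next ℓ q rq τ

private lemma trb_concat {B P0 k Ls Lt J : ℕ} {σ : List Op} {num : ℕ} {α : Type} {X : List α}
    {Nf : α → List TNode} {Lf : α → List (List Op)}
    (h : ∀ x ∈ X, TrbSub next ℓ q rq B P0 k Ls Lt J σ num (Nf x) (Lf x)) :
    TrbSub next ℓ q rq B P0 k Ls Lt J σ (X.length * num) (X.flatMap Nf) (X.flatMap Lf) := by
  refine ⟨?_, ?_, ?_, ?_, ?_⟩
  · unfold allOK
    rw [List.all_eq_true]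
    intro N hN
    obtain ⟨x, hx, hN⟩ := List.mem_flatMap.1 hN
    have h1 := (h x hx).all
    unfold allOK at h1
    rw [List.all_eq_true] at h1
    refine nodeOK_mono ?_ ?_ (h1 N hN)
    · intro a ha
      rw [List.mem_map] at ha ⊢
      obtain ⟨N', hN', rfl⟩ := ha
      exact ⟨N', List.mem_flatMap.2 ⟨x, hx, hN'⟩, rfl⟩
    · intro a ha
      exact List.mem_flatMap.2 ⟨x, hx, ha⟩
  · rw [List.length_flatMap]
    have h1 := List.sum_le_card_nsmul (X.map fun x => (Nf x).length) num (by
      intro y hy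
      obtain ⟨x, hx, rfl⟩ := List.mem_map.1 hy
      exact (h x hx).n1)
    rwa [List.length_map, smul_eq_mul] at h1
  · rw [List.length_flatMap]
    have h1 := List.sum_le_card_nsmul (X.map fun x => (Lf x).length) num (by
      intro y hy
      obtain ⟨x, hx, rfl⟩ := List.mem_map.1 hy
      exact (h x hx).n2)
    rwa [List.length_map, smul_eq_mul] at h1
  · intro N hN
    obtain ⟨x, hx, hN⟩ := List.mem_flatMap.1 hN
    exact (h x hx).ok N hN
  · intro τ hτ
    obtain ⟨x, hx, hτ⟩ := List.mem_flatMap.1 hτ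
    exact (h x hx).lf τ hτ

/-- From a child to the node. -/
private lemma trb_lift {B P0 k Ls Lt j : ℕ} {σ : List Op} {op : Op} {rest c : List Op} {num : ℕ}
    {Ns : List TNode} {Lv : List (List Op)} (hc : c = σ ++ op :: rest)
    (hrest : ∀ o ∈ rest, o.1 ≠ 1)
    (h1 : al next ℓ q rq σ ≤ thJ B q ℓ j * (thB q ℓ * al next ℓ q rq c))
    (h2 : op.1 ≠ 1 ∨ al next ℓ q rq σ ≤ 2 * (thB q ℓ * al next ℓ q rq c) ∧
      ∀ T', op = opR T' → ∀ z, z ∉ T' →
        thJ B q ℓ j * cnt next ℓ q rq σ T' z < al next ℓ q rq σ)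
    (h : TrbSub next ℓ q rq B P0 k Ls Lt j c num Ns Lv) :
    TrbSub next ℓ q rq B P0 k Ls Lt (j + 1) σ num Ns Lv := by
  refine ⟨h.all, h.n1, h.n2, h.ok, fun τ hτ => ?_⟩
  obtain ⟨h3, h4, h5, h6⟩ := h.lf τ hτ
  have hpre : σ <+: c := by
    rw [hc]
    exact List.prefix_append _ _
  have h7 : thB q ℓ * al next ℓ q rq c ≤ thB q ℓ * Gam B q ℓ j * al next ℓ q rq τ := by
    rw [mul_assoc]
    exact Nat.mul_le_mul_left _ h5
  refine ⟨h3, hpre.trans h4, ?_, ?_⟩
  · have h8 : Gam B q ℓ (j + 1) = thJ B q ℓ j * (thB q ℓ * Gam B q ℓ j) := rfl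
    rw [h8, mul_assoc]
    exact h1.trans (Nat.mul_le_mul_left _ h7)
  · intro σ' T' z hp hl hz
    rcases Nat.lt_or_ge σ'.length c.length with h8 | h8
    · have h9 : (σ' ++ [opR T']) <+: c :=
        List.prefix_of_prefix_length_le hp h4 (by
          rw [List.length_append, List.length_singleton]
          omega)
      rw [hc] at h9
      rcases Nat.eq_or_lt_of_le hl with h10 | h10
      · obtain ⟨h11, h12⟩ := trb_pre_eq h9 h10.symm
        rcases h2 with h2 | ⟨h2, h13⟩
        · exact absurd (by rw [← h12]; rfl) h2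
        · have h14 := h13 T' h12.symm z hz
          rw [h11]
          have h15 : al next ℓ q rq σ ≤ 2 * (thB q ℓ * Gam B q ℓ j * al next ℓ q rq τ) :=
            h2.trans (Nat.mul_le_mul_left _ h7)
          have hg : 0 < thB q ℓ * Gam B q ℓ j :=
            Nat.mul_pos (by have := trb_thB_pos (q := q) (ℓ := ℓ); omega) (trb_Gam_pos B j)
          unfold thJ at h14
          generalize thB q ℓ * Gam B q ℓ j = g at *
          generalize cnt next ℓ q rq σ T' z = y at *
          generalize al next ℓ q rq τ = u at *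
          have h16 : (2 * g) * (B * y) ≤ (2 * g) * u := by
            have e1 : (2 * g) * (B * y) = 2 * B * g * y := by ring
            have e2 : (2 * B * g + 2) * y = 2 * B * g * y + 2 * y := by ring
            have e3 : (2 * g) * u = 2 * (g * u) := by ring
            rw [e1, e3]
            rw [e2] at h14
            omega
          exact Nat.le_of_mul_le_mul_left h16 (by omega)
      · have h11 : opR T' ∈ rest := by
          refine trb_pre_mem (σ1 := σ ++ [op]) (σ' := σ') ?_ ?_
          · rw [List.append_assoc]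
            exact h9
          · rw [List.length_append, List.length_singleton]
            omega
        exact absurd rfl (hrest _ h11)
    · exact h6 σ' T' z hp h8 hz

private lemma trb_fops {Fs : List (List Word)} {t : ℕ} {o : Op} (h : o ∈ fops Fs t) :
    ∃ i < t, o = opF (Fs.getD i []) := by
  obtain ⟨i, hi, rfl⟩ := List.mem_map.1 h
  exact ⟨i, List.mem_range.1 hi, rfl⟩

private lemma trb_getD {Fs : List (List Word)} {Q : List Word → Prop} (h : ∀ W ∈ Fs, Q W)
    (h0 : Q []) (i : ℕ) : Q (Fs.getD i []) := by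
  rw [List.getD_eq_getElem?_getD]
  rcases hx : Fs[i]? with _ | W
  · exact h0
  · exact h W (List.mem_of_getElem? hx)

/-- The children of a branch. -/
private lemma trb_children {B P0 k Ls Lt j : ℕ}
    (IH : ∀ (c : List Op) (T : List Word), c.length + (j * (q + 2) + 1) ≤ Ls →
      T.length + j * P0 ≤ Lt → (∀ o ∈ c, OkOp ℓ Lt o) → (∀ w ∈ T, w.length ≤ ℓ) →
      0 < al next ℓ q rq c → ∃ (Ns : List TNode) (Lv : List (List Op)),
        ((c, (T, j)) : Key) ∈ Ns.map (fun N => N.1) ∧
        TrbSub next ℓ q rq B P0 k Ls Lt j c (numT P0 q ℓ j) Ns Lv)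
    {σ : List Op} {T : List Word} {op : Op} (hLℓ : ℓ + 1 ≤ Lt)
    (hσ : σ.length + ((j + 1) * (q + 2) + 1) ≤ Ls) (hT : T.length + j * P0 ≤ Lt)
    (hops : ∀ o ∈ σ, OkOp ℓ Lt o) (hop : OkOp ℓ Lt op) (hTw : ∀ w ∈ T, w.length ≤ ℓ)
    (hal : 0 < al next ℓ q rq σ)
    (h1 : al next ℓ q rq σ ≤ thJ B q ℓ j * al next ℓ q rq (σ ++ [op]))
    (h2 : op.1 ≠ 1 ∨ al next ℓ q rq σ ≤ 2 * al next ℓ q rq (σ ++ [op]) ∧
      ∀ T', op = opR T' → ∀ z, z ∉ T' →
        thJ B q ℓ j * cnt next ℓ q rq σ T' z < al next ℓ q rq σ) :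
    ∃ (Fs : List (List Word)) (Ns : List TNode) (Lv : List (List Op)),
      Fs.length ≤ q ∧ (∀ W ∈ Fs, W.length ≤ Lt ∧ ∀ w ∈ W, w.length ≤ ℓ) ∧
      blockOK q (Ns.map fun N => N.1) (σ ++ [op]) T j Fs = true ∧
      TrbSub next ℓ q rq B P0 k Ls Lt (j + 1) σ ((q * (ℓ + 1) + 1) * numT P0 q ℓ j) Ns Lv := by
  classical
  obtain ⟨Fs, hF1, hF2, hF3, hF4⟩ := exists_block (next := next) (ℓ := ℓ) (q := q) (rq := rq)
    (σ ++ [op])
  have hal1 : 0 < al next ℓ q rq (σ ++ [op]) := by
    by_contra h0
    rw [Nat.eq_zero_of_not_pos h0, mul_zero] at h1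
    omega
  have hF5 : ∀ i, (Fs.getD i []).length ≤ ℓ + 1 ∧ ∀ w ∈ Fs.getD i [], w.length ≤ ℓ :=
    trb_getD (Q := fun W => W.length ≤ ℓ + 1 ∧ ∀ w ∈ W, w.length ≤ ℓ) hF2
      ⟨Nat.zero_le _, fun w hw => absurd hw List.not_mem_nil⟩
  have hFop : ∀ i, OkOp ℓ Lt (opF (Fs.getD i [])) := fun i =>
    ⟨by show 3 ≤ 5; omega, (hF5 i).1.trans hLℓ, (hF5 i).2, Nat.zero_le _⟩
  -- the ends of the block
  let C : List (List Op) := fops Fs q :: (List.range q).flatMap fun t =>
    (Fs.getD t []).map fun w => fops Fs t ++ [opJ w]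
  have hC : ∀ rest ∈ C, rest.length ≤ q ∧ (∀ o ∈ rest, o.1 ≠ 1) ∧ (∀ o ∈ rest, OkOp ℓ Lt o) ∧
      al next ℓ q rq (σ ++ [op]) ≤ thB q ℓ * al next ℓ q rq ((σ ++ [op]) ++ rest) := by
    intro rest hrest
    rcases List.mem_cons.1 hrest with rfl | hrest
    · refine ⟨by simp [fops], fun o ho => ?_, fun o ho => ?_, ?_⟩
      · obtain ⟨i, -, rfl⟩ := trb_fops ho
        show (3 : ℕ) ≠ 1
        omega
      · obtain ⟨i, -, rfl⟩ := trb_fops ho
        exact hFop i
      · exact hF3.trans (Nat.mul_le_mul_right _ trb_thB_pos)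
    · obtain ⟨t, ht, hrest⟩ := List.mem_flatMap.1 hrest
      obtain ⟨w, hw, rfl⟩ := List.mem_map.1 hrest
      rw [List.mem_range] at ht
      refine ⟨?_, fun o ho => ?_, fun o ho => ?_, hF4 t ht w hw⟩
      · rw [List.length_append, List.length_singleton]
        have : (fops Fs t).length = t := by simp [fops]
        omega
      · rcases List.mem_append.1 ho with ho | ho
        · obtain ⟨i, -, rfl⟩ := trb_fops ho
          show (3 : ℕ) ≠ 1
          omega
        · rw [List.mem_singleton.1 ho]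
          show (4 : ℕ) ≠ 1
          omega
      · rcases List.mem_append.1 ho with ho | ho
        · obtain ⟨i, -, rfl⟩ := trb_fops ho
          exact hFop i
        · rw [List.mem_singleton.1 ho]
          exact ⟨by show 4 ≤ 5; omega, Nat.zero_le _, fun w hw => absurd hw List.not_mem_nil,
            (hF5 t).2 w hw⟩
  have hsub : ∀ rest ∈ C, ∃ X : List TNode × List (List Op),
      ((((σ ++ [op]) ++ rest), (T, j)) : Key) ∈ X.1.map (fun N => N.1) ∧
      TrbSub next ℓ q rq B P0 k Ls Lt (j + 1) σ (numT P0 q ℓ j) X.1 X.2 := by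
    intro rest hrest
    obtain ⟨c1, c2, c3, c4⟩ := hC rest hrest
    obtain ⟨Ns, Lv, h3, h4⟩ := IH ((σ ++ [op]) ++ rest) T (by
      rw [List.length_append, List.length_append, List.length_singleton]
      have : (j + 1) * (q + 2) = j * (q + 2) + q + 2 := by ring
      omega) hT (by
      intro o ho
      rcases List.mem_append.1 ho with ho | ho
      · rcases List.mem_append.1 ho with ho | ho
        · exact hops o ho
        · rw [List.mem_singleton.1 ho]
          exact hop
      · exact c3 o ho) hTw (by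
      by_contra h0
      rw [Nat.eq_zero_of_not_pos h0, mul_zero] at c4
      omega)
    refine ⟨(Ns, Lv), h3, trb_lift (op := op) (rest := rest) ?_ c2 ?_ ?_ h4⟩
    · rw [List.append_assoc]
      rfl
    · exact h1.trans (Nat.mul_le_mul_left _ c4)
    · refine h2.imp_right fun h2 => ⟨?_, h2.2⟩
      exact h2.1.trans (Nat.mul_le_mul_left _ c4)
  choose! X hX1 hX2 using hsub
  have hlen : C.length ≤ q * (ℓ + 1) + 1 := by
    show (_ :: _).length ≤ _
    rw [List.length_cons, List.length_flatMap]
    have h3 := List.sum_le_card_nsmul ((List.range q).map fun t =>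
      ((Fs.getD t []).map fun w => fops Fs t ++ [opJ w]).length) (ℓ + 1) (by
      intro y hy
      obtain ⟨t, -, rfl⟩ := List.mem_map.1 hy
      rw [List.length_map]
      exact (hF5 t).1)
    rw [List.length_map, List.length_range, smul_eq_mul] at h3
    omega
  have hcat := trb_concat (X := C) (Nf := fun rest => (X rest).1) (Lf := fun rest => (X rest).2) hX2
  refine ⟨Fs, C.flatMap fun rest => (X rest).1, C.flatMap fun rest => (X rest).2, hF1.le,
    fun W hW => ⟨(hF2 W hW).1.trans hLℓ, (hF2 W hW).2⟩, ?_, ⟨hcat.all, ?_, ?_, hcat.ok, hcat.lf⟩⟩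
  · have hmem : ∀ rest ∈ C, ((((σ ++ [op]) ++ rest), (T, j)) : Key) ∈
        (C.flatMap fun rest => (X rest).1).map (fun N => N.1) := by
      intro rest hrest
      obtain ⟨N, hN, hN2⟩ := List.mem_map.1 (hX1 rest hrest)
      exact List.mem_map.2 ⟨N, List.mem_flatMap.2 ⟨rest, hrest, hN⟩, hN2⟩
    unfold blockOK
    rw [Bool.and_eq_true, decide_eq_true_eq, List.all_eq_true]
    refine ⟨hmem _ List.mem_cons_self, fun t ht => ?_⟩
    rw [List.all_eq_true]
    intro w hw
    rw [decide_eq_true_eq]
    exact hmem _ (List.mem_cons_of_mem _ (List.mem_flatMap.2 ⟨t, ht, List.mem_map.2 ⟨w, hw, rfl⟩⟩))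
  · exact hcat.n1.trans (Nat.mul_le_mul_right _ hlen)
  · exact hcat.n2.trans (Nat.mul_le_mul_right _ hlen)

/-- The tree below a key. -/
theorem exists_tree_at (B P0 k Ls Lt : ℕ) (j : ℕ)
    (hℓ : ∀ g tr s, tr.length ≤ (Ls + 1) * (q + 1) → next (rq g) tr = some s → s.length ≤ ℓ)
    (σ : List Op) (T : List Word) (hσ : σ.length + (j * (q + 2) + 1) ≤ Ls)
    (hT : T.length + j * P0 ≤ Lt) (hLt : P0 ≤ Lt) (hLℓ : ℓ + 1 ≤ Lt) (hjk : j ≤ k)
    (hops : ∀ o ∈ σ, OkOp ℓ Lt o) (hTw : ∀ w ∈ T, w.length ≤ ℓ)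
    (hal : 0 < al next ℓ q rq σ) :
    ∃ (Ns : List TNode) (Lv : List (List Op)), ((σ, (T, j)) : Key) ∈ Ns.map (fun N => N.1) ∧
      allOK ℓ q P0 Ns Lv = true ∧ Ns.length ≤ numT P0 q ℓ j ∧ Lv.length ≤ numT P0 q ℓ j ∧
      (∀ N ∈ Ns, OkNode ℓ q Ls Lt k N) ∧
      ∀ τ ∈ Lv, OkScript ℓ Ls Lt τ ∧ σ <+: τ ∧ al next ℓ q rq σ ≤ Gam B q ℓ j * al next ℓ q rq τ ∧
        ∀ σ' T' z, (σ' ++ [opR T']) <+: τ → σ.length ≤ σ'.length → z ∉ T' →
          B * cnt next ℓ q rq σ' T' z ≤ al next ℓ q rq τ := by
  suffices hmain : ∀ j ≤ k, ∀ (σ : List Op) (T : List Word), σ.length + (j * (q + 2) + 1) ≤ Ls →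
      T.length + j * P0 ≤ Lt → (∀ o ∈ σ, OkOp ℓ Lt o) → (∀ w ∈ T, w.length ≤ ℓ) →
      0 < al next ℓ q rq σ → ∃ (Ns : List TNode) (Lv : List (List Op)),
        ((σ, (T, j)) : Key) ∈ Ns.map (fun N => N.1) ∧
        TrbSub next ℓ q rq B P0 k Ls Lt j σ (numT P0 q ℓ j) Ns Lv by
    obtain ⟨Ns, Lv, h1, h2⟩ := hmain j hjk σ T hσ hT hops hTw hal
    exact ⟨Ns, Lv, h1, h2.all, h2.n1, h2.n2, h2.ok, h2.lf⟩
  clear hσ hT hjk hops hTw hal σ T j
  intro j
  induction j with
  | zero =>
    intro _ σ T hσ hT hops hTw hal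
    refine ⟨[((σ, (T, 0)), ([], []))], [σ ++ [opY]], List.mem_singleton_self _, ?_, le_rfl, le_rfl,
      ?_, ?_⟩
    · unfold allOK
      rw [List.all_eq_true]
      intro N hN
      rw [List.mem_singleton.1 hN]
      unfold nodeOK
      simp
    · intro N hN
      rw [List.mem_singleton.1 hN]
      refine ⟨⟨?_, hops⟩, ⟨?_, hTw⟩, Nat.zero_le _, ⟨Nat.zero_le _, fun w hw => ?_⟩,
        Nat.zero_le _, fun b hb => ?_⟩
      · show σ.length ≤ Ls
        omega
      · show T.length ≤ Lt
        omega
      · exact absurd hw List.not_mem_nil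
      · exact absurd hb List.not_mem_nil
    · intro τ hτ
      rw [List.mem_singleton.1 hτ]
      refine ⟨⟨?_, fun o ho => ?_⟩, List.prefix_append _ _, ?_, fun σ' T' z hp hl hz => ?_⟩
      · rw [List.length_append, List.length_singleton]
        omega
      · rcases List.mem_append.1 ho with ho | ho
        · exact hops o ho
        · rw [List.mem_singleton.1 ho]
          exact ⟨le_rfl, Nat.zero_le _, fun w hw => absurd hw List.not_mem_nil, Nat.zero_le _⟩
      · rw [al_opY]
        show _ ≤ 1 * _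
        rw [one_mul]
      · have h1 := hp.length_le
        rw [List.length_append, List.length_append, List.length_singleton,
          List.length_singleton] at h1
        obtain ⟨-, h2⟩ := trb_pre_eq hp (by omega)
        have h3 := congrArg Prod.fst h2
        exact absurd h3 (by show (1 : ℕ) ≠ 5; omega)
  | succ j IH =>
    intro hjk σ T hσ hT hops hTw hal
    have IH' := IH (by omega)
    have hj1 : (j + 1) * P0 = j * P0 + P0 := by ring
    obtain ⟨ch, hnd, hch, hlen, hpop, hend⟩ := exists_chain (next := next) (ℓ := ℓ) (q := q)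
      (rq := rq) hℓ (σ := σ) (by omega) hal T (thJ B q ℓ j) P0
    have hTi : ∀ i ≤ ch.length, (ch.take i ++ T).length + j * P0 ≤ Lt := by
      intro i hi
      rw [List.length_append, List.length_take]
      omega
    have hTiw : ∀ i, ∀ w ∈ ch.take i ++ T, w.length ≤ ℓ := by
      intro i w hw
      rcases List.mem_append.1 hw with hw | hw
      · exact (hch w (List.mem_of_mem_take hw)).2
      · exact hTw w hw
    have hth : 2 ≤ thJ B q ℓ j := by
      unfold thJ
      omega
    have hg : 1 ≤ thB q ℓ * Gam B q ℓ j :=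
      Nat.mul_pos (by have := trb_thB_pos (q := q) (ℓ := ℓ); omega) (trb_Gam_pos B j)
    have hnum : 1 ≤ (q * (ℓ + 1) + 1) * numT P0 q ℓ j :=
      Nat.mul_pos (Nat.succ_pos _) (trb_num_pos P0 j)
    -- the branches
    have hbr : ∀ i : ℕ, ∃ X : Branch × (List TNode × List (List Op)), i ≤ ch.length →
        (X.1.1 ≤ 2 ∧ X.1.2.length ≤ q ∧
          ∀ W ∈ X.1.2, W.length ≤ Lt ∧ ∀ w ∈ W, w.length ≤ ℓ) ∧
        (i < P0 → ∀ N : TNode, N.1 = (σ, (T, j + 1)) → N.2.1 = ch →
          N.2.2.getD i (2, []) = X.1 →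
          branchOK q (X.2.1.map fun N => N.1) X.2.2 N i = true) ∧
        TrbSub next ℓ q rq B P0 k Ls Lt (j + 1) σ ((q * (ℓ + 1) + 1) * numT P0 q ℓ j)
          X.2.1 X.2.2 := by
      intro i
      by_cases hi : i ≤ ch.length
      swap
      · exact ⟨((0, []), ([], [])), fun h => absurd h hi⟩
      by_cases hiP : i < P0
      swap
      · refine ⟨((2, []), ([], [])), fun _ => ⟨⟨le_rfl, Nat.zero_le _, fun W hW =>
          absurd hW List.not_mem_nil⟩, fun h => absurd h hiP, ⟨rfl, Nat.zero_le _,
          Nat.zero_le _, fun N hN => absurd hN List.not_mem_nil,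
          fun τ hτ => absurd hτ List.not_mem_nil⟩⟩⟩
      by_cases hH : al next ℓ q rq σ ≤ 2 * al next ℓ q rq (σ ++ [opH (ch.take i ++ T)])
      · -- the branch stops
        refine ⟨((2, []), ([], [σ ++ [opH (ch.take i ++ T)]])), fun _ => ⟨⟨le_rfl, Nat.zero_le _,
          fun W hW => absurd hW List.not_mem_nil⟩, ?_, ⟨rfl, Nat.zero_le _, hnum,
          fun N hN => absurd hN List.not_mem_nil, fun τ hτ => ?_⟩⟩⟩
        · intro _ N hN1 hN2 hN3
          unfold branchOK
          rw [hN3, hN1, hN2]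
          simp
        · rw [List.mem_singleton.1 hτ]
          refine ⟨⟨?_, fun o ho => ?_⟩, List.prefix_append _ _, ?_, fun σ' T' z hp hl hz => ?_⟩
          · rw [List.length_append, List.length_singleton]
            omega
          · rcases List.mem_append.1 ho with ho | ho
            · exact hops o ho
            · rw [List.mem_singleton.1 ho]
              refine ⟨by show 2 ≤ 5; omega, ?_, hTiw i, Nat.zero_le _⟩
              have := hTi i hi
              show (ch.take i ++ T).length ≤ Lt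
              omega
          · refine hH.trans (Nat.mul_le_mul_right _ ?_)
            show 2 ≤ thJ B q ℓ j * (thB q ℓ * Gam B q ℓ j)
            exact hth.trans (Nat.le_mul_of_pos_right _ hg)
          · have h1 := hp.length_le
            rw [List.length_append, List.length_append, List.length_singleton,
              List.length_singleton] at h1
            obtain ⟨-, h2⟩ := trb_pre_eq hp (by omega)
            have h3 := congrArg Prod.fst h2
            exact absurd h3 (by show (1 : ℕ) ≠ 2; omega)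
      · push Not at hH
        have hsplit := al_opH_opR (next := next) (ℓ := ℓ) (q := q) (rq := rq) σ (ch.take i ++ T)
        rcases Nat.lt_or_ge i ch.length with hir | hir
        · -- a negative answer to the popular word
          have hw : (ch.getD i []).length ≤ ℓ := by
            rw [List.getD_eq_getElem _ _ hir]
            exact (hch _ (List.getElem_mem hir)).2
          obtain ⟨Fs, Ns, Lv, f1, f2, f3, f4⟩ := trb_children (op := opN (ch.take i ++ T)
            (ch.getD i [])) IH' hLℓ hσ (hTi i hi) hops (by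
              have := hTi i hi
              exact ⟨Nat.zero_le _, by show (ch.take i ++ T).length ≤ Lt; omega, hTiw i, hw⟩)
            (hTiw i) hal (by
              rw [al_opN]
              exact hpop i hir) (Or.inl (by show (0 : ℕ) ≠ 1; omega))
          refine ⟨((0, Fs), (Ns, Lv)), fun _ => ⟨⟨Nat.zero_le _, f1, f2⟩, ?_, f4⟩⟩
          intro _ N hN1 hN2 hN3
          unfold branchOK
          rw [hN3, hN1, hN2]
          show (bif (0 : ℕ) == 2 then _ else bif (0 : ℕ) == 0 then _ else _) = true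
          simp only [Nat.reduceBEq, cond_false, cond_true, BEq.rfl, Bool.and_eq_true,
            decide_eq_true_eq]
          exact ⟨hir, f3⟩
        · -- a negative answer to any word
          have hie : i = ch.length := le_antisymm hi hir
          obtain ⟨Fs, Ns, Lv, f1, f2, f3, f4⟩ := trb_children (op := opR (ch.take i ++ T))
            IH' hLℓ hσ (hTi i hi) hops (by
              have := hTi i hi
              exact ⟨by show 1 ≤ 5; omega, by show (ch.take i ++ T).length ≤ Lt; omega, hTiw i,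
                Nat.zero_le _⟩)
            (hTiw i) hal (by
              refine le_trans ?_ (Nat.mul_le_mul_right _ hth)
              omega) (Or.inr ⟨by omega, by
              intro T' hT' z hz
              have h1 : ch.take i ++ T = T' := congrArg (fun o : Op => o.2.1) hT'
              rw [← h1] at hz ⊢
              rw [hie, List.take_length] at hz ⊢
              rcases hend with hend | hend
              · omega
              · exact hend z hz⟩)
          refine ⟨((1, Fs), (Ns, Lv)), fun _ => ⟨⟨by show 1 ≤ 2; omega, f1, f2⟩, ?_, f4⟩⟩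
          intro _ N hN1 hN2 hN3
          unfold branchOK
          rw [hN3, hN1, hN2]
          show (bif (1 : ℕ) == 2 then _ else bif (1 : ℕ) == 0 then _ else _) = true
          simp only [Nat.reduceBEq, cond_false, Bool.and_eq_true, decide_eq_true_eq]
          exact ⟨hie, f3⟩
    choose X hX using hbr
    have hrange : ∀ i ∈ List.range (ch.length + 1), i ≤ ch.length := fun i hi =>
      Nat.lt_succ_iff.1 (List.mem_range.1 hi)
    have hcat := trb_concat (X := List.range (ch.length + 1)) (Nf := fun i => (X i).2.1)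
      (Lf := fun i => (X i).2.2) fun i hi => (hX i (hrange i hi)).2.2
    rw [List.length_range] at hcat
    have hmul : (ch.length + 1) * ((q * (ℓ + 1) + 1) * numT P0 q ℓ j) ≤
        (P0 + 1) * ((q * (ℓ + 1) + 1) * numT P0 q ℓ j) :=
      Nat.mul_le_mul_right _ (by omega)
    have hnT : numT P0 q ℓ (j + 1) = (P0 + 1) * ((q * (ℓ + 1) + 1) * numT P0 q ℓ j) + 1 := rfl
    set N0 : TNode := ((σ, (T, j + 1)), (ch, (List.range (ch.length + 1)).map fun i => (X i).1))
      with hN0
    set Ns := (List.range (ch.length + 1)).flatMap fun i => (X i).2.1 with hNs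
    set Lv := (List.range (ch.length + 1)).flatMap fun i => (X i).2.2 with hLv
    refine ⟨N0 :: Ns, Lv, List.mem_map.2 ⟨N0, List.mem_cons_self, rfl⟩, ?_, ?_, ?_, ?_, hcat.lf⟩
    · have hall := hcat.all
      unfold allOK at hall ⊢
      rw [List.all_eq_true] at hall ⊢
      intro N hN
      rcases List.mem_cons.1 hN with rfl | hN
      · unfold nodeOK
        have h0 : (N0.1.2.2 == 0) = false := rfl
        rw [h0, cond_false, Bool.and_eq_true, Bool.and_eq_true, decide_eq_true_eq,
          List.all_eq_true (l := List.range _), List.all_eq_true]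
        refine ⟨hnd, fun w hw => ?_, fun i hi => ?_⟩
        · have h1 := hch w hw
          rw [Bool.and_eq_true, Bool.not_eq_true', decide_eq_false_iff_not, decide_eq_true_eq]
          exact h1
        · rw [Bool.or_eq_true, decide_eq_true_eq]
          rcases Nat.lt_or_ge i P0 with hiP | hiP
          · right
            have h1 := hrange i hi
            refine trb_branch_mono ?_ ?_ ((hX i h1).2.1 hiP N0 rfl rfl ?_)
            · intro a ha
              rw [List.mem_map] at ha ⊢
              obtain ⟨N', hN', rfl⟩ := ha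
              exact ⟨N', List.mem_cons_of_mem _ (List.mem_flatMap.2 ⟨i, hi, hN'⟩), rfl⟩
            · intro a ha
              exact List.mem_flatMap.2 ⟨i, hi, ha⟩
            · show ((List.range (ch.length + 1)).map fun i => (X i).1).getD i (2, []) = (X i).1
              rw [List.getD_eq_getElem _ _ (by
                rw [List.length_map, List.length_range]
                omega), List.getElem_map, List.getElem_range]
          · left
            exact hiP
      · refine nodeOK_mono ?_ (fun a ha => ha) (hall N hN)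
        intro a ha
        rw [List.mem_map] at ha ⊢
        obtain ⟨N', hN', rfl⟩ := ha
        exact ⟨N', List.mem_cons_of_mem _ hN', rfl⟩
    · rw [List.length_cons, hnT]
      have := hcat.n1
      omega
    · rw [hnT]
      have := hcat.n2
      omega
    · intro N hN
      rcases List.mem_cons.1 hN with rfl | hN
      · refine ⟨⟨?_, hops⟩, ⟨?_, hTw⟩, hjk, ⟨?_, fun w hw => (hch w hw).2⟩, ?_, fun b hb => ?_⟩
        · show σ.length ≤ Ls
          omega
        · show T.length ≤ Lt
          omega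
        · show ch.length ≤ Lt
          omega
        · show ((List.range (ch.length + 1)).map fun i => (X i).1).length ≤ Lt + 1
          rw [List.length_map, List.length_range]
          omega
        · obtain ⟨i, hi, rfl⟩ := List.mem_map.1 hb
          exact (hX i (hrange i hi)).1
      · exact hcat.ok N hN

end Pool.Agent.Lib.MP_634427_lc.Ad
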