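import Pool.Agent.Lib.MP_634427_lc.Ad.TreeA

/-!
# The block of free negative answers
-/

namespace Pool.Agent.Lib.MP_634427_lc.Ad

open Pool.Agent.Lib.MP_634427_lc Pool.Agent.Lib.MP_634427_lc.KNo Finset

variable {next : Word → List Bool → Option Word} {ℓ q : ℕ} {G : Type} [Fintype G] {rq : G → Word}

private theorem blk_run (σ : List Op) (o : Op) (r : Word) :
    run next ℓ q (σ ++ [o]) r = (run next ℓ q σ r).bind (opr next ℓ q o) := by
  unfold run
  rw [List.foldl_append, List.foldl_cons, List.foldl_nil]

private theorem blk_opF (W : List Word) (e : Item) : opr next ℓ q (opF W) e =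
    (bif freeL next ℓ e then (bif pendIn next W e then some (no e) else none) else some e) := rfl

private theorem blk_opJ (w : Word) (e : Item) : opr next ℓ q (opJ w) e =
    (bif freeL next ℓ e && decide (qry next e = some w) then some (yesA e) else none) := rfl

/-- the tally words of length at most `ℓ` -/
private def tal (ℓ : ℕ) : List Word := (List.range (ℓ + 1)).map fun i => List.replicate i false

private theorem blk_cases (σ : List Op) (W : List Word) (r : Word)
    (h : alive next ℓ q σ r = true) :
    alive next ℓ q (σ ++ [opF W]) r = true ∨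
      ∃ i ∈ range (ℓ + 1), List.replicate i false ∉ W ∧
        alive next ℓ q (σ ++ [opJ (List.replicate i false)]) r = true := by
  unfold alive at h ⊢
  rw [Option.isSome_iff_exists] at h
  obtain ⟨e, he⟩ := h
  rw [blk_run, he, Option.bind_some, blk_opF]
  cases hf : freeL next ℓ e with
  | false => exact Or.inl rfl
  | true =>
    obtain ⟨_, s, hs0, hsl, hst⟩ := freeL_imp hf
    have hs : qry next e = some s := hs0
    by_cases hW : s ∈ W
    · left
      have h1 : pendIn next W e = true := by
        unfold pendIn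
        rw [hs]
        exact decide_eq_true hW
      rw [h1]
      rfl
    · right
      have hs' : s = List.replicate s.length false := (isTally_iff s).1 hst
      refine ⟨s.length, mem_range.2 (by omega), ?_, ?_⟩
      · rw [← hs']
        exact hW
      · rw [← hs', blk_run, he, Option.bind_some, blk_opJ, hf, hs]
        simp

/-- One step of a block. `b` is the number of the items at the beginning of the block. Take for `W`
the tally words `0 ^ i`, `i ≤ ℓ`, with `b ≤ thB q ℓ * al (σ ++ [opJ w])`. The items that die are those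
with a free negative answer and a pending tally word of length `≤ ℓ` outside `W`, for each of these
`ℓ + 1` words at most `b / thB` items. -/
theorem exists_blockStep (σ : List Op) (b : ℕ) :
    ∃ W : List Word, W.length ≤ ℓ + 1 ∧ (∀ w ∈ W, w.length ≤ ℓ) ∧
      (∀ w ∈ W, b ≤ thB q ℓ * al next ℓ q rq (σ ++ [opJ w])) ∧
      thB q ℓ * al next ℓ q rq σ ≤ thB q ℓ * al next ℓ q rq (σ ++ [opF W]) + (ℓ + 1) * b := by
  classical
  set W : List Word := (tal ℓ).filter fun w =>
    decide (b ≤ thB q ℓ * al next ℓ q rq (σ ++ [opJ w])) with hW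
  refine ⟨W, ?_, ?_, ?_, ?_⟩
  · refine (List.length_filter_le _ _).trans ?_
    unfold tal
    rw [List.length_map, List.length_range]
  · intro w hw
    rw [hW, List.mem_filter] at hw
    have h1 := hw.1
    unfold tal at h1
    rw [List.mem_map] at h1
    obtain ⟨i, hi, rfl⟩ := h1
    rw [List.mem_range] at hi
    rw [List.length_replicate]
    omega
  · intro w hw
    rw [hW, List.mem_filter] at hw
    exact of_decide_eq_true hw.2
  · set J : Finset ℕ := (range (ℓ + 1)).filter fun i => List.replicate i false ∉ W with hJ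
    have h1 : al next ℓ q rq σ ≤ al next ℓ q rq (σ ++ [opF W]) +
        ∑ i ∈ J, al next ℓ q rq (σ ++ [opJ (List.replicate i false)]) := by
      have h2 : (univ.filter fun g => alive next ℓ q σ (rq g) = true) ⊆
          (univ.filter fun g => alive next ℓ q (σ ++ [opF W]) (rq g) = true) ∪
            J.biUnion fun i => univ.filter fun g =>
              alive next ℓ q (σ ++ [opJ (List.replicate i false)]) (rq g) = true := by
        intro g hg
        rw [mem_filter] at hg
        rw [mem_union, mem_biUnion]
        rcases blk_cases σ W (rq g) hg.2 with h | ⟨i, hi, hiW, h⟩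
        · exact Or.inl (mem_filter.2 ⟨mem_univ _, h⟩)
        · exact Or.inr ⟨i, mem_filter.2 ⟨hi, hiW⟩, mem_filter.2 ⟨mem_univ _, h⟩⟩
      calc al next ℓ q rq σ ≤ _ := card_le_card h2
        _ ≤ _ := card_union_le _ _
        _ ≤ _ := Nat.add_le_add_left card_biUnion_le _
    have h3 : ∀ i ∈ J, thB q ℓ * al next ℓ q rq (σ ++ [opJ (List.replicate i false)]) ≤ b := by
      intro i hi
      rw [hJ, mem_filter] at hi
      by_contra hc
      apply hi.2
      rw [hW, List.mem_filter]
      refine ⟨?_, decide_eq_true (by omega)⟩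
      unfold tal
      rw [List.mem_map]
      exact ⟨i, List.mem_range.2 (mem_range.1 hi.1), rfl⟩
    have h4 : J.card ≤ ℓ + 1 := by
      refine (card_filter_le _ _).trans ?_
      rw [card_range]
    calc thB q ℓ * al next ℓ q rq σ
        ≤ thB q ℓ * (al next ℓ q rq (σ ++ [opF W]) +
          ∑ i ∈ J, al next ℓ q rq (σ ++ [opJ (List.replicate i false)])) :=
          Nat.mul_le_mul_left _ h1
      _ = thB q ℓ * al next ℓ q rq (σ ++ [opF W]) +
          ∑ i ∈ J, thB q ℓ * al next ℓ q rq (σ ++ [opJ (List.replicate i false)]) := by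
          rw [Nat.mul_add, mul_sum]
      _ ≤ thB q ℓ * al next ℓ q rq (σ ++ [opF W]) + ∑ _i ∈ J, b :=
          Nat.add_le_add_left (sum_le_sum h3) _
      _ = thB q ℓ * al next ℓ q rq (σ ++ [opF W]) + J.card * b := by
          rw [sum_const, smul_eq_mul]
      _ ≤ _ := Nat.add_le_add_left (Nat.mul_le_mul_right _ h4) _

private theorem blk_fops_succ (Fs : List (List Word)) (W : List Word) :
    fops (Fs ++ [W]) (Fs.length + 1) = fops Fs Fs.length ++ [opF W] := by
  unfold fops
  rw [List.range_succ, List.map_append, List.map_singleton,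
    List.getD_append_right _ _ _ _ le_rfl, Nat.sub_self, List.getD_cons_zero]
  congr 1
  refine List.map_congr_left fun i hi => ?_
  rw [List.getD_append _ _ _ _ (List.mem_range.1 hi)]

private theorem blk_fops_lt (Fs : List (List Word)) (W : List Word) {t : ℕ}
    (ht : t ≤ Fs.length) : fops (Fs ++ [W]) t = fops Fs t := by
  unfold fops
  refine List.map_congr_left fun i hi => ?_
  rw [List.getD_append _ _ _ _ (lt_of_lt_of_le (List.mem_range.1 hi) ht)]

/-- The block. `q` times `exists_blockStep` with `b = al σ`. -/
theorem exists_block (σ : List Op) :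
    ∃ Fs : List (List Word), Fs.length = q ∧
      (∀ W ∈ Fs, W.length ≤ ℓ + 1 ∧ ∀ w ∈ W, w.length ≤ ℓ) ∧
      al next ℓ q rq σ ≤ 2 * al next ℓ q rq (σ ++ fops Fs q) ∧
      ∀ t < q, ∀ w ∈ Fs.getD t [],
        al next ℓ q rq σ ≤ thB q ℓ * al next ℓ q rq (σ ++ (fops Fs t ++ [opJ w])) := by
  have key : ∀ n : ℕ, ∃ Fs : List (List Word), Fs.length = n ∧
      (∀ W ∈ Fs, W.length ≤ ℓ + 1 ∧ ∀ w ∈ W, w.length ≤ ℓ) ∧
      thB q ℓ * al next ℓ q rq σ ≤
        thB q ℓ * al next ℓ q rq (σ ++ fops Fs n) + (n * (ℓ + 1)) * al next ℓ q rq σ ∧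
      ∀ t < n, ∀ w ∈ Fs.getD t [],
        al next ℓ q rq σ ≤ thB q ℓ * al next ℓ q rq (σ ++ (fops Fs t ++ [opJ w])) := by
    intro n
    induction n with
    | zero =>
      refine ⟨[], rfl, ?_, ?_, ?_⟩
      · intro W hW
        simp at hW
      · have h0 : fops [] 0 = [] := rfl
        rw [h0, List.append_nil]
        exact Nat.le_add_right _ _
      · intro t ht
        omega
    | succ n ih =>
      obtain ⟨Fs, h1, h2, h3, h4⟩ := ih
      obtain ⟨W, hW1, hW2, hW3, hW4⟩ := exists_blockStep (next := next) (ℓ := ℓ) (q := q)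
        (rq := rq) (σ ++ fops Fs n) (al next ℓ q rq σ)
      refine ⟨Fs ++ [W], ?_, ?_, ?_, ?_⟩
      · rw [List.length_append, List.length_singleton, h1]
      · intro V hV
        rw [List.mem_append, List.mem_singleton] at hV
        rcases hV with hV | hV
        · exact h2 V hV
        · subst hV
          exact ⟨hW1, hW2⟩
      · subst h1
        rw [blk_fops_succ, ← List.append_assoc]
        have h5 : (Fs.length + 1) * (ℓ + 1) * al next ℓ q rq σ =
            Fs.length * (ℓ + 1) * al next ℓ q rq σ + (ℓ + 1) * al next ℓ q rq σ := by ring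
        rw [h5]
        omega
      · intro t ht w hw
        subst h1
        rcases Nat.lt_or_ge t Fs.length with h | h
        · rw [List.getD_append _ _ _ _ h] at hw
          rw [blk_fops_lt Fs W h.le]
          exact h4 t h w hw
        · have ht' : t = Fs.length := by omega
          subst ht'
          rw [List.getD_append_right _ _ _ _ le_rfl, Nat.sub_self, List.getD_cons_zero] at hw
          rw [blk_fops_lt Fs W le_rfl, ← List.append_assoc]
          exact hW3 w hw
  obtain ⟨Fs, h1, h2, h3, h4⟩ := key q
  refine ⟨Fs, h1, h2, ?_, h4⟩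
  have hB : thB q ℓ = 2 * (q * (ℓ + 1)) + 2 := rfl
  rw [hB] at h3
  nlinarith [h3, Nat.zero_le (q * (ℓ + 1)), Nat.zero_le (al next ℓ q rq σ),
    Nat.zero_le (al next ℓ q rq (σ ++ fops Fs q))]

end Pool.Agent.Lib.MP_634427_lc.Ad
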