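import Pool.Agent.Lib.MP_634427_lc.Ad.Ops

/-!
# Counting in a finite family of tests; constants
-/

namespace Pool.Agent.Lib.MP_634427_lc.Ad

open Pool.Agent.Lib.MP_634427_lc Pool.Agent.Lib.MP_634427_lc.KNo Finset

section counts

variable (next : Word → List Bool → Option Word) (ℓ q : ℕ) {G : Type} [Fintype G] (rq : G → Word)

/-- The number of the tests of the family that are alive. -/
def al (σ : List Op) : ℕ := (univ.filter fun g => alive next ℓ q σ (rq g) = true).card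

/-- The number of the tests of the family that wait at `z`. -/
def cnt (σ : List Op) (T : List Word) (z : Word) : ℕ :=
  (univ.filter fun g => waits next ℓ q σ T z (rq g) = true).card

end counts

/-- The threshold for the tally words of a block. -/
def thB (q ℓ : ℕ) : ℕ := 2 * (q * (ℓ + 1)) + 2

/-- The loss of mass below a node with `j` blocks left. -/
def Gam (B q ℓ : ℕ) : ℕ → ℕ
  | 0 => 1
  | j + 1 => (2 * B * (thB q ℓ * Gam B q ℓ j) + 2) * (thB q ℓ * Gam B q ℓ j)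

/-- The popularity threshold at a node with `j + 1` blocks left. -/
def thJ (B q ℓ j : ℕ) : ℕ := 2 * B * (thB q ℓ * Gam B q ℓ j) + 2

/-- Bound for the number of nodes and for the number of leaves. -/
def numT (P0 q ℓ : ℕ) : ℕ → ℕ
  | 0 => 1
  | j + 1 => (P0 + 1) * ((q * (ℓ + 1) + 1) * numT P0 q ℓ j) + 1

/-- Structural bounds for an operation. -/
def OkOp (ℓ Lt : ℕ) (o : Op) : Prop :=
  o.1 ≤ 5 ∧ o.2.1.length ≤ Lt ∧ (∀ w ∈ o.2.1, w.length ≤ ℓ) ∧ o.2.2.length ≤ ℓ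

/-- Structural bounds for a script. -/
def OkScript (ℓ Ls Lt : ℕ) (σ : List Op) : Prop := σ.length ≤ Ls ∧ ∀ o ∈ σ, OkOp ℓ Lt o

/-- Structural bounds for a node. -/
def OkNode (ℓ q Ls Lt k : ℕ) (N : TNode) : Prop :=
  OkScript ℓ Ls Lt N.1.1 ∧ (N.1.2.1.length ≤ Lt ∧ ∀ w ∈ N.1.2.1, w.length ≤ ℓ) ∧ N.1.2.2 ≤ k ∧
    (N.2.1.length ≤ Lt ∧ ∀ w ∈ N.2.1, w.length ≤ ℓ) ∧ N.2.2.length ≤ Lt + 1 ∧
      ∀ b ∈ N.2.2, b.1 ≤ 2 ∧ b.2.length ≤ q ∧
        ∀ W ∈ b.2, W.length ≤ Lt ∧ ∀ w ∈ W, w.length ≤ ℓ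

end Pool.Agent.Lib.MP_634427_lc.Ad
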