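import Pool.Agent.Lib.MP_634427_lc.Ad.OpsPT
import Pool.Agent.Lib.MP_634427_lc.Ad.Prm
import Pool.Agent.Lib.MP_634427_lc.Ad.Tree
import Pool.Agent.Lib.MP_634427_lc.Ad.Bridge

/-!
# The functions of the check, for a given reduction

`nx (r, l)` is the next query for the question `r` and the answers `l`, `V (z, (r, l))` is the vector.
-/

namespace Pool.Agent.Lib.MP_634427_lc.Ad

open Pool.Agent.Lib.MP_634427_lc Pool.Agent.Lib.MP_634427_lc.KNo Pool.Agent.Lib.MP_634427_lc.Maj
open Finset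

/-- The next query. -/
def nxF (nx : Word × List Bool → Option Word) (r : Word) (l : List Bool) : Option Word :=
  nx (r, l)

/-- The vector of a question. -/
def rvF (nx : Word × List Bool → Option Word) (V : ℕ × (Word × List Bool) → List LT.Num)
    (ℓ q : ℕ → ℕ) (z : Word → ℕ) (a : (Word × List Op) × Word) : Option (List LT.Num) :=
  match run (nxF nx) (ℓ (z a.1.1)) (q (z a.1.1)) a.1.2 a.2 with
  | some e => some (V (z a.1.1, e))
  | none => none

/-- The pending query of a question. -/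
def wtF (nx : Word × List Bool → Option Word) (ℓ q : ℕ → ℕ) (z : Word → ℕ)
    (a : (Word × (List Op × List Word)) × Word) : Option Word :=
  waitW (nxF nx) (ℓ (z a.1.1)) (q (z a.1.1)) a.1.2.1 a.1.2.2 a.2

/-- The test of the tree. -/
def clF (ℓ q P0 : ℕ → ℕ) (k : ℕ) (z : Word → ℕ) (a : Word × (List TNode × List (List Op))) :
    Bool :=
  closed (ℓ (z a.1)) (q (z a.1)) (P0 (z a.1)) k a.2.1 a.2.2

variable {nx : Word × List Bool → Option Word} {V : ℕ × (Word × List Bool) → List LT.Num}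
  {ℓ q P0 : ℕ → ℕ} {k : ℕ} {z : Word → ℕ}

theorem pt_rvF (hn : PT nx) (hV : PT V) (hℓ : PT ℓ) (hq : PT q) (hz : PT z) :
    PT (rvF nx V ℓ q z) := by
  have hr : PT fun a : (Word × List Op) × Word =>
      run (nxF nx) (ℓ (z a.1.1)) (q (z a.1.1)) a.1.2 a.2 :=
    pt_run (γ := ℕ) (next := fun _ => nxF nx) (hn.comp PT.snd) hℓ hq
      (cx := fun a : (Word × List Op) × Word => z a.1.1) (hz.comp (PT.fst' PT.fst))
      (PT.snd' PT.fst) PT.snd
  have hv : PT fun p : ((Word × List Op) × Word) × Item => some (V (z p.1.1.1, p.2)) :=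
    PT.some (hV.comp (PT.pair (hz.comp (PT.fst' (PT.fst' PT.fst))) PT.snd))
  refine (PT.casesOption (g := fun (a : (Word × List Op) × Word) (e : Item) =>
    some (V (z a.1.1, e))) hr (PT.const none) hv).of_eq fun a => ?_
  unfold rvF
  cases run (nxF nx) (ℓ (z a.1.1)) (q (z a.1.1)) a.1.2 a.2 <;> rfl

theorem pt_wtF (hn : PT nx) (hℓ : PT ℓ) (hq : PT q) (hz : PT z) : PT (wtF nx ℓ q z) :=
  pt_waitW (γ := ℕ) (next := fun _ => nxF nx) (hn.comp PT.snd) hℓ hq
    (cx := fun a : (Word × (List Op × List Word)) × Word => z a.1.1) (hz.comp (PT.fst' PT.fst))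
    (PT.fst' (PT.snd' PT.fst)) (PT.snd' (PT.snd' PT.fst)) PT.snd

theorem pt_clF (hℓ : PT ℓ) (hq : PT q) (hP : PT P0) (hz : PT z) : PT (clF ℓ q P0 k z) :=
  pt_closed (hℓ.comp (hz.comp PT.fst)) (hq.comp (hz.comp PT.fst)) (hP.comp (hz.comp PT.fst))
    (PT.const k) (PT.fst' PT.snd) (PT.snd' PT.snd)

/-- All questions are alive after the empty script. -/
theorem rvF_nil (x r : Word) : (rvF nx V ℓ q z ((x, []), r)).isSome := rfl

private theorem alR_iff {x : Word} {P m n : ℕ} {σ : List Op} {D : Itm P m n} :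
    alR (rvF nx V ℓ q z) x P m n σ D =
      alive (nxF nx) (ℓ (z x)) (q (z x)) σ (quest x P (itmL D)) := by
  unfold alR alive rvF
  dsimp only
  cases run (nxF nx) (ℓ (z x)) (q (z x)) σ (quest x P (itmL D)) <;> rfl

/-- The tree for the questions of a level: `exists_tree` with `G = Itm P m n`, the sizes by
`sz_tree_le`, `sz_script_le`. -/
theorem tree_use (x : Word) {P m n : ℕ} [NeZero P] (B : ℕ) (a : Pm) (hq : a.q = q (z x))
    (hℓ : a.ℓ = ℓ (z x)) (hP : a.P0 = P0 (z x)) (hk : a.k = k)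
    (hlen : ∀ (D : Itm P m n) tr s, tr.length ≤ (a.k * (a.q + 2) + 2) * (a.q + 1) →
      nx (quest x P (itmL D), tr) = some s → s.length ≤ a.ℓ) :
    ∃ (Ns : List TNode) (Lv : List (List Op)), clF ℓ q P0 k z (x, (Ns, Lv)) = true ∧
      sz Ns ≤ a.tb ∧ Lv.length ≤ a.N ∧ ∀ σ ∈ Lv, sz σ ≤ a.tb ∧ σ.length ≤ a.Ls ∧
        Fintype.card (Itm P m n) ≤ Gam B a.q a.ℓ a.k *
          (univ.filter fun D => alR (rvF nx V ℓ q z) x P m n σ D = true).card ∧
        ∀ σ' T w, (σ' ++ [opR T]) <+: σ → w ∉ T →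
          B * (univ.filter fun D : Itm P m n =>
            wtF nx ℓ q z ((x, (σ', T)), quest x P (itmL D)) = some w).card ≤
            (univ.filter fun D => alR (rvF nx V ℓ q z) x P m n σ D = true).card := by
  obtain ⟨Ns, Lv, h1, h2, h3, h4, h5⟩ := exists_tree (next := nxF nx) (ℓ := a.ℓ) (q := a.q)
    (rq := fun D : Itm P m n => quest x P (itmL D)) B a.P0 a.k hlen
  have hal : ∀ σ : List Op, al (nxF nx) a.ℓ a.q (fun D : Itm P m n => quest x P (itmL D)) σ =
      (univ.filter fun D => alR (rvF nx V ℓ q z) x P m n σ D = true).card := by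
    intro σ
    unfold al
    rw [hq, hℓ]
    simp only [alR_iff]
  have hcn : ∀ (σ : List Op) (T : List Word) (w : Word),
      cnt (nxF nx) a.ℓ a.q (fun D : Itm P m n => quest x P (itmL D)) σ T w =
      (univ.filter fun D : Itm P m n =>
        wtF nx ℓ q z ((x, (σ, T)), quest x P (itmL D)) = some w).card := by
    intro σ T w
    unfold cnt wtF
    rw [hq, hℓ]
    simp only [waits_iff]
  refine ⟨Ns, Lv, ?_, sz_tree_le h2 h4, h3, fun σ hσ => ?_⟩
  · unfold clF
    rw [← hq, ← hℓ, ← hP, ← hk]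
    exact h1
  · obtain ⟨h6, h7, h8⟩ := h5 σ hσ
    refine ⟨sz_script_le h6, h6.1, ?_, fun σ' T w hp hw => ?_⟩
    · rw [← hal]
      exact h7
    · rw [← hal, ← hcn]
      exact h8 σ' T w hp hw

end Pool.Agent.Lib.MP_634427_lc.Ad
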